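import Pool.Agent.H14.HF.Fib

/-!
# Hilali: the count for total spaces over odd spheres
-/

namespace Pool.Agent.H14.HF

open Pool.Agent.H91.Hil
open Pool.Agent.H68.Sullivan (Coh)

section lin

variable {K A B : Type*} [Field K] [Ring A] [Algebra K A] [Ring B] [Algebra K B]

/-- the class of a cocycle -/
def cl (d : A →ₗ[K] A) (a : A) (ha : d a = 0) : Coh d :=
  Submodule.Quotient.mk (⟨a, ha⟩ : LinearMap.ker d)

theorem cl_surj (d : A →ₗ[K] A) (x : Coh d) : ∃ a, ∃ ha : d a = 0, cl d a ha = x := by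
  obtain ⟨⟨a, ha⟩, h⟩ := Submodule.Quotient.mk_surjective _ x
  exact ⟨a, ha, h⟩

theorem cl_eq_zero (d : A →ₗ[K] A) (a : A) (ha : d a = 0) : cl d a ha = 0 ↔ ∃ w, d w = a :=
  (Submodule.Quotient.mk_eq_zero ((LinearMap.range d).submoduleOf (LinearMap.ker d))
    (x := (⟨a, ha⟩ : LinearMap.ker d))).trans Iff.rfl

theorem cl_eq (d : A →ₗ[K] A) (a b : A) (ha : d a = 0) (hb : d b = 0) (w : A)
    (h : d w = a - b) : cl d a ha = cl d b hb :=
  (Submodule.Quotient.eq ((LinearMap.range d).submoduleOf (LinearMap.ker d))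
    (x := (⟨a, ha⟩ : LinearMap.ker d)) (y := (⟨b, hb⟩ : LinearMap.ker d))).mpr ⟨w, h⟩

/-- the induced map on cohomology -/
def cm (dA : A →ₗ[K] A) (dB : B →ₗ[K] B) (f : A →ₗ[K] B) (h1 : ∀ a, dA a = 0 → dB (f a) = 0)
    (h2 : ∀ a, ∃ w, dB w = f (dA a)) : Coh dA →ₗ[K] Coh dB :=
  Submodule.mapQ _ _ (f.restrict (p := LinearMap.ker dA) (q := LinearMap.ker dB) h1) (by
    rintro ⟨x, hx⟩ ⟨a, ha⟩
    obtain ⟨w, hw⟩ := h2 a
    refine ⟨w, ?_⟩
    rw [hw]
    exact congrArg f ha)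

theorem cm_cl (dA : A →ₗ[K] A) (dB : B →ₗ[K] B) (f : A →ₗ[K] B)
    (h1 : ∀ a, dA a = 0 → dB (f a) = 0) (h2 : ∀ a, ∃ w, dB w = f (dA a)) (a : A)
    (ha : dA a = 0) : cm dA dB f h1 h2 (cl dA a ha) = cl dB (f a) (h1 a ha) := rfl

/-- The Wang sequence gives `dim H(A) = 2 dim im (H(A) → H(B))`. -/
theorem wang (dA : A →ₗ[K] A) (dB : B →ₗ[K] B) (π : A →ₗ[K] B) (s μ : B →ₗ[K] A) (θ : B →ₗ[K] B)
    (hd : ∀ b, dB (dB b) = 0)
    (hπs : ∀ b, π (s b) = b) (hπμ : ∀ b, π (μ b) = 0) (hker : ∀ a, π a = 0 → ∃ b, a = μ b)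
    (hinj : ∀ b, μ b = 0 → b = 0) (hπ : ∀ a, π (dA a) = dB (π a))
    (hμ : ∀ b, dA (μ b) = -μ (dB b)) (hs : ∀ b, dA (s b) = s (dB b) + μ (θ b))
    (hθ : ∀ b, dB (θ b) = θ (dB b)) [hfin : FiniteDimensional K (Coh dB)] (c : ℕ)
    (hc : ∀ (h1 : ∀ a, dA a = 0 → dB (π a) = 0) (h2 : ∀ a, ∃ w, dB w = π (dA a)),
      c ≤ Module.finrank K (LinearMap.range (cm dA dB π h1 h2))) :
    FiniteDimensional K (Coh dA) ∧ 2 * c ≤ Module.finrank K (Coh dA) := by
  have p1 : ∀ a, dA a = 0 → dB (π a) = 0 := fun a ha => by rw [← hπ, ha, map_zero]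
  have p2 : ∀ a, ∃ w, dB w = π (dA a) := fun a => ⟨π a, (hπ a).symm⟩
  have m1 : ∀ a, dB a = 0 → dA (μ a) = 0 := fun a ha => by rw [hμ, ha, map_zero, neg_zero]
  have m2 : ∀ a, ∃ w, dA w = μ (dB a) := fun a => ⟨-μ a, by rw [map_neg, hμ, neg_neg]⟩
  have t1 : ∀ a, dB a = 0 → dB (θ a) = 0 := fun a ha => by rw [hθ, ha, map_zero]
  have t2 : ∀ a, ∃ w, dB w = θ (dB a) := fun a => ⟨θ a, hθ a⟩
  have inj' : ∀ b b', μ b = μ b' → b = b' := fun b b' h => by
    rw [← sub_eq_zero]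
    apply hinj
    rw [map_sub, h, sub_self]
  have dec : ∀ a, ∃ t, a = s (π a) + μ t := fun a => by
    obtain ⟨t, ht⟩ := hker (a - s (π a)) (by rw [map_sub, hπs, sub_self])
    exact ⟨t, by rw [← ht]; abel⟩
  have dA_dec : ∀ a t, a = s (π a) + μ t → dA a = s (dB (π a)) + μ (θ (π a) - dB t) := by
    intro a t h
    have h3 : dA a = dA (s (π a) + μ t) := by rw [← h]
    rw [h3, map_add, hs, hμ, map_sub]
    abel
  set pH := cm dA dB π p1 p2 with hpH
  set mH := cm dB dA μ m1 m2 with hmH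
  set tH := cm dB dB θ t1 t2 with htH
  have E1 : LinearMap.ker pH = LinearMap.range mH := by
    ext x
    rw [LinearMap.mem_ker, LinearMap.mem_range]
    constructor
    · intro hx
      obtain ⟨a, ha, rfl⟩ := cl_surj dA x
      rw [hpH, cm_cl, cl_eq_zero] at hx
      obtain ⟨w, hw⟩ := hx
      obtain ⟨b, hb⟩ := hker (a - dA (s w)) (by
        rw [map_sub, hπ, hπs, hw, sub_self])
      have hdd : dA (dA (s w)) = 0 := by
        rw [hs w, map_add, hs, hμ, hd, map_zero, zero_add, hθ]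
        abel
      have h1 : dB b = 0 := by
        apply hinj
        have h2 := congrArg dA hb
        rw [map_sub, ha, hdd, sub_zero, hμ] at h2
        rw [← neg_eq_zero, ← h2]
      refine ⟨cl dB b h1, ?_⟩
      rw [hmH, cm_cl]
      refine (cl_eq dA _ _ _ _ (s w) ?_).symm
      rw [← hb]
      abel
    · rintro ⟨z, rfl⟩
      obtain ⟨b, hb, rfl⟩ := cl_surj dB z
      rw [hmH, hpH, cm_cl, cm_cl, cl_eq_zero]
      exact ⟨0, by rw [map_zero, hπμ]⟩
  have E2 : LinearMap.ker mH = LinearMap.range tH := by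
    ext x
    rw [LinearMap.mem_ker, LinearMap.mem_range]
    constructor
    · intro hx
      obtain ⟨b, hb, rfl⟩ := cl_surj dB x
      rw [hmH, cm_cl, cl_eq_zero] at hx
      obtain ⟨a, ha⟩ := hx
      obtain ⟨t, ht⟩ := dec a
      have h1 := dA_dec a t ht
      rw [ha] at h1
      have h2 : dB (π a) = 0 := by
        have h3 := congrArg π h1
        rw [map_add, hπs, hπμ, hπμ, add_zero] at h3
        exact h3.symm
      rw [h2, map_zero, zero_add] at h1
      have h3 := inj' _ _ h1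
      refine ⟨cl dB (π a) h2, ?_⟩
      rw [htH, cm_cl]
      refine cl_eq dB _ _ _ _ t ?_
      rw [h3]
      abel
    · rintro ⟨z, rfl⟩
      obtain ⟨b, hb, rfl⟩ := cl_surj dB z
      rw [htH, hmH, cm_cl, cm_cl, cl_eq_zero]
      exact ⟨s b, by rw [hs, hb, map_zero, zero_add]⟩
  have E3 : LinearMap.ker tH = LinearMap.range pH := by
    ext x
    rw [LinearMap.mem_ker, LinearMap.mem_range]
    constructor
    · intro hx
      obtain ⟨b, hb, rfl⟩ := cl_surj dB x
      rw [htH, cm_cl, cl_eq_zero] at hx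
      obtain ⟨w, hw⟩ := hx
      have h1 : dA (s b + μ w) = 0 := by
        rw [map_add, hs, hμ, hb, hw, map_zero, zero_add, add_neg_cancel]
      refine ⟨cl dA (s b + μ w) h1, ?_⟩
      rw [hpH, cm_cl]
      refine cl_eq dB _ _ _ _ 0 ?_
      rw [map_add, hπs, hπμ, add_zero, sub_self, map_zero]
    · rintro ⟨z, rfl⟩
      obtain ⟨a, ha, rfl⟩ := cl_surj dA z
      rw [htH, hpH, cm_cl, cm_cl, cl_eq_zero]
      obtain ⟨t, ht⟩ := dec a
      have h1 := dA_dec a t ht
      rw [ha, ← hπ, ha, map_zero, map_zero, zero_add] at h1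
      have h2 := hinj _ h1.symm
      exact ⟨t, (sub_eq_zero.mp h2).symm⟩
  have fk : FiniteDimensional K (LinearMap.ker pH) := by
    rw [E1]
    infer_instance
  have fr : FiniteDimensional K (Coh dA ⧸ LinearMap.ker pH) :=
    Module.Finite.equiv pH.quotKerEquivRange.symm
  have fA : FiniteDimensional K (Coh dA) := Module.Finite.of_submodule_quotient (LinearMap.ker pH)
  refine ⟨fA, ?_⟩
  have r1 := LinearMap.finrank_range_add_finrank_ker pH
  have r2 := LinearMap.finrank_range_add_finrank_ker mH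
  have r3 := LinearMap.finrank_range_add_finrank_ker tH
  rw [E1] at r1
  rw [E2] at r2
  rw [E3] at r3
  have r4 := hc p1 p2
  rw [← hpH] at r4
  omega

end lin

section

variable {K A B : Type*} [Field K] [Ring A] [Algebra K A] [Ring B] [Algebra K B]
  {BA : Base K A} {BB : Base K B} {π : A →ₐ[K] B} {y : A} {e : ℤ}

theorem Fib.rank (F : Fib BA BB π y e) (c : ℕ) (l : ℕ → ℤ) (hl : ∀ i < c, l i < l (i + 1))
    (hch : ∀ i ≤ c, ∃ a ∈ BA.gr (l i), BA.d a = 0 ∧ ∀ w, BB.d w ≠ π a)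
    (hfin : FiniteDimensional K (Coh BB.d))
    (h1 : ∀ a, BA.d a = 0 → BB.d (π.toLinearMap a) = 0)
    (h2 : ∀ a, ∃ w, BB.d w = π.toLinearMap (BA.d a)) :
    c + 1 ≤ Module.finrank K (LinearMap.range (cm BA.d BB.d π.toLinearMap h1 h2)) := by
  have hmono : ∀ i j, i < j → j ≤ c → l i < l j := by
    intro i j hij
    induction j with
    | zero => omega
    | succ j ih =>
      intro hj
      have h3 := hl j (by omega)
      rcases Nat.lt_succ_iff_lt_or_eq.mp hij with h | h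
      · exact (ih h (by omega)).trans h3
      · rw [h]; exact h3
  choose! a ha hda hne using hch
  let L : (Fin (c + 1) → K) →ₗ[K] Coh BA.d :=
    ((LinearMap.range BA.d).submoduleOf (LinearMap.ker BA.d)).mkQ ∘ₗ
      Fintype.linearCombination K
        (fun i : Fin (c + 1) => (⟨a i, hda i (by omega)⟩ : LinearMap.ker BA.d))
  have hL : ∀ g : Fin (c + 1) → K, ∃ hs : BA.d (∑ i, g i • a i) = 0,
      L g = cl BA.d (∑ i, g i • a i) hs := by
    intro g
    have hs : BA.d (∑ i, g i • a i) = 0 := by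
      rw [map_sum]
      exact Finset.sum_eq_zero fun i _ => by rw [map_smul, hda i (by omega), smul_zero]
    refine ⟨hs, ?_⟩
    have h4 : Fintype.linearCombination K
        (fun i : Fin (c + 1) => (⟨a i, hda i (by omega)⟩ : LinearMap.ker BA.d)) g =
        ⟨∑ i, g i • a i, hs⟩ := by
      apply Subtype.ext
      rw [Fintype.linearCombination_apply]
      simp
    change ((LinearMap.range BA.d).submoduleOf (LinearMap.ker BA.d)).mkQ
      (Fintype.linearCombination K _ g) = _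
    rw [h4]
    rfl
  have hinj : Function.Injective (cm BA.d BB.d π.toLinearMap h1 h2 ∘ₗ L) := by
    rw [← LinearMap.ker_eq_bot, LinearMap.ker_eq_bot']
    intro g hg
    obtain ⟨hs, hgL⟩ := hL g
    rw [LinearMap.comp_apply, hgL, cm_cl, cl_eq_zero] at hg
    obtain ⟨w, hw⟩ := hg
    rw [AlgHom.toLinearMap_apply, map_sum] at hw
    funext i
    rw [Pi.zero_apply]
    by_contra hgi
    have h3 := congrArg (BB.π (l i)) hw
    rw [map_sum, Finset.sum_eq_single i] at h3
    · rw [map_smul, map_smul, BB.π_self _ _ (F.gr _ _ (ha i (by omega)))] at h3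
      refine hne i (by omega) ((g i)⁻¹ • BB.π (l i - 1) w) ?_
      have h4 := BB.π_d (l i - 1) w
      rw [sub_add_cancel] at h4
      rw [map_smul, ← h4, h3, smul_smul, inv_mul_cancel₀ hgi, one_smul]
    · intro j _ hj
      rw [map_smul, map_smul]
      have h5 : l j ≠ l i := by
        intro h6
        rcases lt_trichotomy (j : ℕ) (i : ℕ) with h7 | h7 | h7
        · have := hmono j i h7 (by omega); omega
        · exact hj (Fin.ext h7)
        · have := hmono i j h7 (by omega); omega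
      rw [BB.π_ne _ _ h5 _ (F.gr _ _ (ha j (by omega))), smul_zero]
    · intro h5
      exact absurd (Finset.mem_univ i) h5
  have h3 : Module.finrank K (Fin (c + 1) → K) =
      Module.finrank K (LinearMap.range (cm BA.d BB.d π.toLinearMap h1 h2 ∘ₗ L)) :=
    (LinearEquiv.ofInjective _ hinj).finrank_eq
  rw [Module.finrank_fintype_fun_eq_card, Fintype.card_fin] at h3
  rw [h3]
  exact Submodule.finrank_mono (LinearMap.range_comp_le_range _ _)

/-- Classes of `c + 1` different degrees in the image of `H(A)` in `H(B)` give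
`2 (c + 1) ≤ dim H(A)`. -/
theorem Fib.mainl (F : Fib BA BB π y e) (hfin : FiniteDimensional K (Coh BB.d)) (c : ℕ)
    (l : ℕ → ℤ) (hl : ∀ i < c, l i < l (i + 1))
    (hch : ∀ i ≤ c, ∃ a ∈ BA.gr (l i), BA.d a = 0 ∧ ∀ w, BB.d w ≠ π a) :
    FiniteDimensional K (Coh BA.d) ∧ 2 * (c + 1) ≤ Module.finrank K (Coh BA.d) := by
  obtain ⟨s, hs⟩ := LinearMap.exists_rightInverse_of_surjective π.toLinearMap
    (LinearMap.range_eq_top.mpr F.sur')
  have hπs : ∀ b, π (s b) = b := fun b => LinearMap.congr_fun hs b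
  have hyk : ∀ a, π a = 0 → y * a = 0 := by
    intro a ha
    obtain ⟨c, rfl⟩ := F.ker' a ha
    rw [← mul_assoc, F.yy, zero_mul]
  let μ : B →ₗ[K] A := (LinearMap.mulLeft K y) ∘ₗ s
  have hμ : ∀ b, μ b = y * s b := fun b => rfl
  have hinj : ∀ b, μ b = 0 → b = 0 := by
    intro b hb
    have h1 := F.reg _ ((hμ b).symm.trans hb)
    rwa [hπs] at h1
  have hπμ : ∀ b, π (μ b) = 0 := fun b => by rw [hμ, map_mul, F.π_y, zero_mul]
  have hker : ∀ a, π a = 0 → ∃ b, a = μ b := by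
    intro a ha
    obtain ⟨c, rfl⟩ := F.ker' a ha
    refine ⟨π c, ?_⟩
    rw [hμ, ← sub_eq_zero, ← mul_sub]
    exact hyk _ (by rw [map_sub, hπs, sub_self])
  have hdμ : ∀ b, BA.d (μ b) = -μ (BB.d b) := by
    intro b
    rw [hμ, hμ, F.d_y_mul, neg_inj, ← sub_eq_zero, ← mul_sub]
    exact hyk _ (by rw [map_sub, F.comm, hπs, hπs, sub_self])
  have hμi : Function.Injective μ := by
    intro b b' h
    rw [← sub_eq_zero]
    apply hinj
    rw [map_sub, h, sub_self]
  let δ : B →ₗ[K] A := BA.d ∘ₗ s - s ∘ₗ BB.d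
  have hδ : ∀ b, δ b ∈ LinearMap.range μ := by
    intro b
    obtain ⟨b', hb'⟩ := hker (δ b) (by
      change π (BA.d (s b) - s (BB.d b)) = 0
      rw [map_sub, F.comm, hπs, hπs, sub_self])
    exact ⟨b', hb'.symm⟩
  let θ : B →ₗ[K] B := (LinearEquiv.ofInjective μ hμi).symm.toLinearMap ∘ₗ
    δ.codRestrict (LinearMap.range μ) hδ
  have hθ : ∀ b, μ (θ b) = δ b := by
    intro b
    have h1 : (LinearEquiv.ofInjective μ hμi) (θ b) = ⟨δ b, hδ b⟩ :=
      (LinearEquiv.ofInjective μ hμi).apply_symm_apply _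
    exact congrArg Subtype.val h1
  have hds : ∀ b, BA.d (s b) = s (BB.d b) + μ (θ b) := by
    intro b
    rw [hθ]
    change BA.d (s b) = s (BB.d b) + (BA.d (s b) - s (BB.d b))
    abel
  have hdθ : ∀ b, BB.d (θ b) = θ (BB.d b) := by
    intro b
    apply hμi
    have h1 := BA.d_sq (s b)
    rw [hds, map_add, hds, BB.d_sq, map_zero, zero_add, hdμ] at h1
    exact (add_neg_eq_zero.mp h1).symm
  exact wang BA.d BB.d π.toLinearMap s μ θ BB.d_sq hπs hπμ hker hinj F.comm hdμ hds hdθ (c + 1)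
    (fun h1 h2 => F.rank c l hl hch hfin h1 h2)

/-- **Theorem.** A product of `c` cocycles of positive degree which is not a boundary gives
`2 (c + 1) ≤ dim H(A)`. -/
theorem Fib.main (F : Fib BA BB π y e) (hfin : FiniteDimensional K (Coh BB.d)) (c : ℕ) (n : ℤ)
    (hN : NZ BB c n) :
    FiniteDimensional K (Coh BA.d) ∧ 2 * (c + 1) ≤ Module.finrank K (Coh BA.d) := by
  obtain ⟨l, -, hl, hch⟩ := F.chain c n hN
  exact F.mainl hfin c l hl hch

end

end Pool.Agent.H14.HF
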