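import Pool.Agent.H14.HF.Fib
import Pool.Agent.H91.Hil.Desc

/-!
# Hilali: the cup length of a formal minimal Sullivan algebra
-/

namespace Pool.Agent.H14.HF

open Pool.Agent.H91.Hil

section

variable {K B : Type*} [Field K] [Ring B] [Algebra K B]

/-- `J` is the kernel of a surjective quasi-isomorphism to an algebra with zero differential. -/
structure Frm (BB : Base K B) (J : Submodule K B) : Prop where
  left : ∀ a x, x ∈ J → a * x ∈ J
  right : ∀ a x, x ∈ J → x * a ∈ J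
  hom : ∀ p x, x ∈ J → BB.π p x ∈ J
  d_mem : ∀ a, BB.d a ∈ J
  acy : ∀ x ∈ J, BB.d x = 0 → ∃ w ∈ J, BB.d w = x

/-- the ideals `(B^+)^j + J` -/
def Qf (BB : Base K B) (J : Submodule K B) : ℕ → ℤ → Submodule K B
  | 0, n => BB.gr n
  | j + 1, n => Submodule.span K {x | ∃ a : ℤ, ∃ u ∈ BB.gp a, ∃ w ∈ Qf BB J j (n - a), x = u * w} ⊔
      (J ⊓ BB.gr n)

theorem Qf_succ (BB : Base K B) (J : Submodule K B) (j : ℕ) (n : ℤ) : Qf BB J (j + 1) n =
    Submodule.span K {x | ∃ a : ℤ, ∃ u ∈ BB.gp a, ∃ w ∈ Qf BB J j (n - a), x = u * w} ⊔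
      (J ⊓ BB.gr n) := rfl

theorem Qf_le (BB : Base K B) (J : Submodule K B) (j : ℕ) : ∀ n, Qf BB J j n ≤ BB.gr n := by
  induction j with
  | zero => intro n; exact le_refl _
  | succ j ih =>
    intro n
    rw [Qf_succ]
    refine sup_le (Submodule.span_le.mpr ?_) inf_le_right
    rintro x ⟨a, u, hu, w, hw, rfl⟩
    have h := BB.mul_mem a (n - a) u (BB.gp_le a hu) w (ih _ hw)
    rwa [add_sub_cancel] at h

theorem Qf_J (BB : Base K B) (J : Submodule K B) (j : ℕ) (n : ℤ) :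
    J ⊓ BB.gr n ≤ Qf BB J j n := by
  cases j with
  | zero => exact inf_le_right
  | succ j => rw [Qf_succ]; exact le_sup_right

theorem Qf_mul (BB : Base K B) (J : Submodule K B) (j : ℕ) (a q : ℤ) :
    ∀ x ∈ BB.gp a, ∀ y ∈ Qf BB J j q, x * y ∈ Qf BB J (j + 1) (a + q) := by
  intro x hx y hy
  rw [Qf_succ]
  refine Submodule.mem_sup_left (Submodule.subset_span ⟨a, x, hx, y, ?_, rfl⟩)
  rwa [add_sub_cancel_left]

theorem Qf_anti (BB : Base K B) (J : Submodule K B) (j : ℕ) :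
    ∀ n, Qf BB J (j + 1) n ≤ Qf BB J j n := by
  induction j with
  | zero => intro n; exact Qf_le BB J 1 n
  | succ j ih =>
    intro n
    rw [Qf_succ BB J (j + 1), Qf_succ BB J j]
    refine sup_le_sup_right (Submodule.span_mono ?_) _
    rintro x ⟨a, u, hu, w, hw, rfl⟩
    exact ⟨a, u, hu, w, ih _ hw, rfl⟩

theorem Qf_idl (BB : Base K B) (J : Submodule K B) (j : ℕ) : BB.Idl (Qf BB J j) :=
  ⟨Qf_le BB J j, fun a q x hx y hy => Qf_anti BB J j _ (Qf_mul BB J j a q x hx y hy)⟩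

theorem Frm.chain {BB : Base K B} {J : Submodule K B} (h : Frm BB J) (r : ℕ) : ∀ j,
    (∀ n, Qf BB J (j + r) n ≤ J ⊓ BB.gr n) → Chain BB r (Qf BB J j) := by
  induction r with
  | zero =>
    intro j hj
    refine ⟨Qf_idl BB J j, ?_⟩
    intro p z hz hdz
    rw [Submodule.mem_bot] at hdz
    have hz1 := hj p hz
    obtain ⟨w, hw, hw1⟩ := h.acy z hz1.1 hdz
    refine ⟨BB.π (p - 1) w, Qf_J BB J j _ ⟨h.hom _ _ hw, BB.π_mem _ _⟩, ?_⟩
    have h4 := BB.π_d (p - 1) w
    rw [sub_add_cancel] at h4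
    rw [← h4, hw1, BB.π_self p z hz1.2, sub_self]
    exact Submodule.zero_mem _
  | succ r ih =>
    intro j hj
    refine ⟨Qf_idl BB J j, Qf BB J j, Qf BB J (j + 1), Qf_idl BB J j, fun q => le_refl _,
      Qf_mul BB J j, ?_, ?_, ih (j + 1) ?_⟩
    · intro q y hy
      exact Qf_J BB J (j + 1) _ ⟨h.d_mem y, BB.d_mem q y (Qf_le BB J j q hy)⟩
    · intro p z hz _
      exact ⟨0, Submodule.zero_mem _, by rw [map_zero, sub_zero]; exact hz⟩
    · intro n
      have e1 : j + 1 + r = j + (r + 1) := by ring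
      rw [e1]
      exact hj n

theorem Frm.coc0 {BB : Base K B} {J : Submodule K B} (h : Frm BB J) {n : ℤ} {z : B}
    (hz : z ∈ BB.gr n) : ∃ z2 ∈ BB.gr n, BB.d z2 = 0 ∧ z - z2 ∈ J := by
  obtain ⟨w, hw, hw1⟩ := h.acy (BB.d z) (h.d_mem z) (BB.d_sq z)
  refine ⟨z - BB.π n w, Submodule.sub_mem _ hz (BB.π_mem n w), ?_, ?_⟩
  · rw [map_sub, ← BB.π_d, hw1, BB.π_self _ _ (BB.d_mem n z hz), sub_self]
  · rw [sub_sub_cancel]
    exact h.hom n w hw

theorem Frm.coc {BB : Base K B} {J : Submodule K B} (h : Frm BB J) (j : ℕ) : ∀ n : ℤ,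
    ∀ z ∈ Qf BB J j n, ∃ z2 ∈ Pw BB j n, z - z2 ∈ J := by
  induction j with
  | zero =>
    intro n z hz
    obtain ⟨z2, h1, h2, h3⟩ := h.coc0 (n := n) hz
    exact ⟨z2, ⟨h1, h2⟩, h3⟩
  | succ j ih =>
    intro n z hz
    rw [Qf_succ] at hz
    obtain ⟨s, hs, x, hx, rfl⟩ := Submodule.mem_sup.mp hz
    have key : ∃ z2 ∈ Pw BB (j + 1) n, s - z2 ∈ J := by
      clear hz hx
      induction hs using Submodule.span_induction with
      | mem s hs =>
        obtain ⟨a, u, hu, w, hw, rfl⟩ := hs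
        by_cases ha : 0 < a
        · obtain ⟨u2, h1, h2, h3⟩ := h.coc0 (BB.gp_le a hu)
          obtain ⟨w2, h4, h5⟩ := ih _ w hw
          refine ⟨u2 * w2, Submodule.subset_span ⟨a, ha, u2, h1, h2, w2, h4, rfl⟩, ?_⟩
          have e1 : u * w - u2 * w2 = (u - u2) * w + u2 * (w - w2) := by
            rw [sub_mul, mul_sub]
            abel
          rw [e1]
          exact Submodule.add_mem _ (h.right _ _ h3) (h.left _ _ h5)
        · refine ⟨0, Submodule.zero_mem _, ?_⟩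
          rw [BB.gp_zero ha hu, zero_mul, sub_zero]
          exact Submodule.zero_mem _
      | zero => exact ⟨0, Submodule.zero_mem _, by rw [sub_zero]; exact Submodule.zero_mem _⟩
      | add s t _ _ hs ht =>
        obtain ⟨s2, h1, h2⟩ := hs
        obtain ⟨t2, h3, h4⟩ := ht
        refine ⟨s2 + t2, Submodule.add_mem _ h1 h3, ?_⟩
        have e1 : s + t - (s2 + t2) = (s - s2) + (t - t2) := by abel
        rw [e1]
        exact Submodule.add_mem _ h2 h4
      | smul k s _ hs =>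
        obtain ⟨s2, h1, h2⟩ := hs
        refine ⟨k • s2, Submodule.smul_mem _ k h1, ?_⟩
        rw [← smul_sub]
        exact Submodule.smul_mem _ k h2
    obtain ⟨z2, h1, h2⟩ := key
    refine ⟨z2, h1, ?_⟩
    have e1 : s + x - z2 = (s - z2) + x := by abel
    rw [e1]
    exact Submodule.add_mem _ h2 hx.1

end

section

universe u v

variable {K : Type v} {B : Type u} [Field K] [CharZero K] [Ring B] [Algebra K B]

/-- **Theorem.** In a formal minimal Sullivan algebra a product of `dim V^odd` cocycles of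
positive degree is not a boundary. -/
theorem Frm.main {BB : Base K B} {J : Submodule K B} (h : Frm BB J) :
    ∃ n, NZ BB (BB.odd 0) n := by
  have h1 : ¬ ∀ n, Qf BB J (0 + BB.odd 0) n ≤ J ⊓ BB.gr n := by
    intro hcon
    have h2 := h.chain (BB.odd 0) 0 hcon
    exact absurd (odd_lt BB _ h2) (lt_irrefl _)
  rw [zero_add] at h1
  push Not at h1
  obtain ⟨n, hn⟩ := h1
  obtain ⟨z, hz, hzJ⟩ := Set.not_subset.mp hn
  obtain ⟨z2, h2, h3⟩ := h.coc _ n z hz
  refine ⟨n, z2, h2, ?_⟩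
  intro w hw
  apply hzJ
  refine ⟨?_, Qf_le BB J _ n hz⟩
  have h4 : z2 ∈ J := by rw [← hw]; exact h.d_mem w
  have e1 : z = (z - z2) + z2 := by abel
  rw [e1]
  exact Submodule.add_mem _ h3 h4

end

end Pool.Agent.H14.HF
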