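import Pool.Agent.H14.HF.Fib
import Pool.Agent.H91.Hil.LamBase

/-!
# Hilali: the projection `ΛV → ΛV / (y_0)` on the monomial bases
-/

namespace Pool.Agent.H14.HF

open Pool.Agent.H91.Hil Pool.Agent.H91.Hil.LamBase Pool.Agent.H68.Hil

variable {K A B : Type*} [Field K] [Ring A] [Algebra K A] [Ring B] [Algebra K B] {q m : ℕ}

/-- the generators of the base of the shift -/
def sh : Fin q ⊕ Fin m → Fin q ⊕ Fin (m + 1)
  | Sum.inl i => Sum.inl i
  | Sum.inr j => Sum.inr j.succ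

/-- the monomials without `y_0` -/
def sc (s : Ix q m) : Ix q (m + 1) := (s.1, s.2.map (Fin.succEmb m))

theorem zero_notMem_sc (s : Ix q m) : (0 : Fin (m + 1)) ∉ (sc s).2 := by
  simp [sc, Fin.succ_ne_zero]

theorem sc_inj {s t : Ix q m} (h : sc s = sc t) : s = t := by
  obtain ⟨a, S⟩ := s
  obtain ⟨a', S'⟩ := t
  simp only [sc, Prod.mk.injEq, Finset.map_inj] at h
  rw [h.1, h.2]

theorem exists_sc (p : Ix q (m + 1)) (h : (0 : Fin (m + 1)) ∉ p.2) : ∃ s, sc s = p := by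
  classical
  obtain ⟨a, S⟩ := p
  refine ⟨(a, S.preimage (Fin.succEmb m) (Fin.succEmb m).injective.injOn), ?_⟩
  simp only [sc, Prod.mk.injEq, true_and]
  ext j
  simp only [Finset.mem_map, Finset.mem_preimage]
  constructor
  · rintro ⟨i, hi, rfl⟩
    exact hi
  · intro hj
    obtain ⟨i, rfl⟩ := Fin.exists_succ_eq.mpr (fun e => h (e ▸ hj) : j ≠ 0)
    exact ⟨i, hj, rfl⟩

theorem bad_sh (v : Fin q ⊕ Fin m) (s : Ix q m) : bad (sh v) (sc s) ↔ bad v s := by
  rcases v with i | j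
  · exact Iff.rfl
  · simp [sh, bad, sc]

theorem up_sh (v : Fin q ⊕ Fin m) (s : Ix q m) : up (sh v) (sc s) = sc (up v s) := by
  rcases v with i | j
  · rfl
  · simp only [sh, up, sc, Prod.mk.injEq, true_and, Finset.map_insert]
    rfl

theorem sh_cases (v : Fin q ⊕ Fin (m + 1)) : v = Sum.inr 0 ∨ ∃ w, v = sh w := by
  rcases v with i | j
  · exact Or.inr ⟨Sum.inl i, rfl⟩
  · refine Fin.cases (Or.inl rfl) (fun j => Or.inr ⟨Sum.inr j, rfl⟩) j

/-- the degrees of the generators other than `y_0` -/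
def dgF (deg : Fin q ⊕ Fin (m + 1) → ℕ) (v : Fin q ⊕ Fin m) : ℕ := deg (sh v)

theorem dg_sc (deg : Fin q ⊕ Fin (m + 1) → ℕ) (s : Ix q m) :
    dg deg (sc s) = dg (dgF deg) s := by
  unfold dg
  simp only [sc, Finset.sum_map]
  rfl

/-- `π` is the projection -/
structure Prj (g : Fin q ⊕ Fin (m + 1) → A) (g' : Fin q ⊕ Fin m → B) (π : A →ₐ[K] B) : Prop where
  y : π (g (Sum.inr 0)) = 0
  g_sh : ∀ v, π (g (sh v)) = g' v

variable {g : Fin q ⊕ Fin (m + 1) → A} {g' : Fin q ⊕ Fin m → B} {π : A →ₐ[K] B}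
  {b : Module.Basis (Ix q (m + 1)) K A} {b' : Module.Basis (Ix q m) K B}

theorem Prj.bas (h : Prj g g' π) (hb : IsMon g b) (hb' : IsMon g' b') (p : Ix q (m + 1)) :
    ((0 : Fin (m + 1)) ∈ p.2 ∧ π (b p) = 0) ∨
      ∃ s, p = sc s ∧ (π (b p) = b' s ∨ π (b p) = -b' s) := by
  classical
  apply mon_ind hb (P := fun p x => ((0 : Fin (m + 1)) ∈ p.2 ∧ π x = 0) ∨
      ∃ s, p = sc s ∧ (π x = b' s ∨ π x = -b' s))
  · refine Or.inr ⟨(0, ∅), by simp [sc], Or.inl ?_⟩
    rw [map_one, hb'.one]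
  · rintro p x (⟨h1, h2⟩ | ⟨s, h1, h2 | h2⟩)
    · exact Or.inl ⟨h1, by rw [map_neg, h2, neg_zero]⟩
    · exact Or.inr ⟨s, h1, Or.inr (by rw [map_neg, h2])⟩
    · exact Or.inr ⟨s, h1, Or.inl (by rw [map_neg, h2, neg_neg])⟩
  · rintro v p x hv hx hP
    rcases sh_cases v with rfl | ⟨w, rfl⟩
    · refine Or.inl ⟨?_, by rw [map_mul, h.y, zero_mul]⟩
      simp [up]
    · rcases hP with ⟨h1, h2⟩ | ⟨s, h1, h2⟩
      · refine Or.inl ⟨?_, by rw [map_mul, h2, mul_zero]⟩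
        rcases w with i | j
        · exact h1
        · exact Finset.mem_insert_of_mem h1
      · subst h1
        rw [bad_sh] at hv
        refine Or.inr ⟨up w s, up_sh w s, ?_⟩
        rw [map_mul, h.g_sh]
        rcases gen_mul_good hb' hv with h3 | h3 <;> rcases h2 with h2 | h2 <;> rw [h2] <;>
          simp [h3]

theorem Prj.repr (h : Prj g g' π) (hb : IsMon g b) (hb' : IsMon g' b') (s : Ix q m) :
    ∃ ε : K, (ε = 1 ∨ ε = -1) ∧ ∀ a, b'.repr (π a) s = ε * b.repr a (sc s) := by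
  classical
  have key : ∃ ε : K, (ε = 1 ∨ ε = -1) ∧ π (b (sc s)) = ε • b' s := by
    rcases h.bas hb hb' (sc s) with ⟨h1, -⟩ | ⟨t, h1, h2⟩
    · exact absurd h1 (zero_notMem_sc s)
    · rw [← sc_inj h1] at h2
      rcases h2 with h2 | h2
      · exact ⟨1, Or.inl rfl, by rw [h2, one_smul]⟩
      · exact ⟨-1, Or.inr rfl, by rw [h2, neg_one_smul]⟩
  obtain ⟨ε, hε, he⟩ := key
  refine ⟨ε, hε, ?_⟩
  let f1 : A →ₗ[K] K := (Finsupp.lapply s).comp (b'.repr.toLinearMap.comp π.toLinearMap)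
  let f2 : A →ₗ[K] K := ε • ((Finsupp.lapply (sc s)).comp b.repr.toLinearMap)
  have hf : f1 = f2 := by
    apply b.ext
    intro p'
    change b'.repr (π (b p')) s = ε * b.repr (b p') (sc s)
    by_cases hp : p' = sc s
    · subst hp
      rw [he]
      simp
    · rcases h.bas hb hb' p' with ⟨h1, h2⟩ | ⟨t, h1, h2⟩
      · rw [h2]
        simp [hp]
      · have hts : t ≠ s := fun e => hp (by rw [h1, e])
        rcases h2 with h2 | h2
        · rw [h2]; simp [hp, hts]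
        · rw [h2]; simp [hp, hts]
  intro a
  exact LinearMap.congr_fun hf a

theorem ε_ne {ε : K} (h : ε = 1 ∨ ε = -1) : ε ≠ 0 := by
  rcases h with h | h
  · rw [h]; exact one_ne_zero
  · rw [h]; exact neg_ne_zero.2 one_ne_zero

theorem Prj.eq_zero (h : Prj g g' π) (hb : IsMon g b) (hb' : IsMon g' b') {a : A} :
    π a = 0 ↔ ∀ s, b.repr a (sc s) = 0 := by
  constructor
  · intro ha s
    obtain ⟨ε, hε, h1⟩ := h.repr hb hb' s
    have h2 := h1 a
    rw [ha, map_zero, Finsupp.zero_apply] at h2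
    exact (mul_eq_zero.mp h2.symm).resolve_left (ε_ne hε)
  · intro ha
    apply b'.repr.injective
    rw [map_zero]
    ext s
    obtain ⟨ε, hε, h1⟩ := h.repr hb hb' s
    rw [h1, ha s, mul_zero]
    rfl

/-- elements of the ideal of `y_0` -/
theorem exists_mul (hb : IsMon g b) {S : Set (Ix q (m + 1))}
    {T : Set (Ix q (m + 1))}
    (hS : ∀ p ∈ S, (0 : Fin (m + 1)) ∈ p.2 ∧ ∀ p', up (Sum.inr 0) p' = p → ¬ bad (Sum.inr 0) p' →
      p' ∈ T) {a : A} (ha : a ∈ cs b S) : ∃ c ∈ cs b T, a = g (Sum.inr 0) * c := by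
  apply cs_ind (P := fun a => ∃ c ∈ cs b T, a = g (Sum.inr 0) * c) _ _ _ _ ha
  · exact ⟨0, Submodule.zero_mem _, by rw [mul_zero]⟩
  · rintro _ _ ⟨c, hc, rfl⟩ ⟨c', hc', rfl⟩
    exact ⟨c + c', Submodule.add_mem _ hc hc', by rw [mul_add]⟩
  · rintro k _ ⟨c, hc, rfl⟩
    exact ⟨k • c, Submodule.smul_mem _ _ hc, by rw [mul_smul_comm]⟩
  · intro p hp
    obtain ⟨h0, h1⟩ := hS p hp
    obtain ⟨p', h2, h3⟩ := exists_up (v := Sum.inr 0) (p := p) h0
    have h4 := h1 p' h2 h3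
    rcases gen_mul_good hb h3 with h5 | h5
    · exact ⟨b p', bas_mem h4, by rw [h5, h2]⟩
    · exact ⟨-b p', Submodule.neg_mem _ (bas_mem h4), by rw [mul_neg, h5, h2, neg_neg]⟩

theorem Prj.mem_cs_of (h : Prj g g' π) (hb : IsMon g b) (hb' : IsMon g' b') {a : A}
    (ha : π a = 0) : a ∈ cs b {p : Ix q (m + 1) | (0 : Fin (m + 1)) ∈ p.2} := by
  rw [mem_cs]
  intro p hp
  by_contra h0
  obtain ⟨s, rfl⟩ := exists_sc p h0
  exact hp ((h.eq_zero hb hb').mp ha s)

theorem Prj.gr (h : Prj g g' π) (hb : IsMon g b) (hb' : IsMon g' b')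
    (deg : Fin q ⊕ Fin (m + 1) → ℕ) (p : ℤ) {a : A} (ha : a ∈ grd b deg p) :
    π a ∈ grd b' (dgF deg) p := by
  apply cs_ind (P := fun a => π a ∈ grd b' (dgF deg) p) _ _ _ _ ha
  · rw [map_zero]; exact Submodule.zero_mem _
  · intro x y hx hy; rw [map_add]; exact Submodule.add_mem _ hx hy
  · intro c x hx; rw [map_smul]; exact Submodule.smul_mem _ _ hx
  · intro s hs
    rcases h.bas hb hb' s with ⟨-, h2⟩ | ⟨t, rfl, h2⟩
    · rw [h2]; exact Submodule.zero_mem _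
    · have h3 : b' t ∈ grd b' (dgF deg) p := by
        apply bas_mem
        change ((dg (dgF deg) t : ℕ) : ℤ) = p
        rw [← dg_sc]
        exact hs
      rcases h2 with h2 | h2
      · rw [h2]; exact h3
      · rw [h2]; exact Submodule.neg_mem _ h3

theorem Prj.sur (h : Prj g g' π) (hb : IsMon g b) (hb' : IsMon g' b')
    {S : Set (Ix q m)} {T : Set (Ix q (m + 1))} (hST : ∀ s ∈ S, sc s ∈ T) {x : B}
    (hx : x ∈ cs b' S) : ∃ a ∈ cs b T, π a = x := by
  apply cs_ind (P := fun x => ∃ a ∈ cs b T, π a = x) _ _ _ _ hx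
  · exact ⟨0, Submodule.zero_mem _, map_zero _⟩
  · rintro _ _ ⟨a, ha, rfl⟩ ⟨a', ha', rfl⟩
    exact ⟨a + a', Submodule.add_mem _ ha ha', by rw [map_add]⟩
  · rintro k _ ⟨a, ha, rfl⟩
    exact ⟨k • a, Submodule.smul_mem _ _ ha, by rw [map_smul]⟩
  · intro s hs
    rcases h.bas hb hb' (sc s) with ⟨h1, -⟩ | ⟨t, h1, h2⟩
    · exact absurd h1 (zero_notMem_sc s)
    · rw [← sc_inj h1] at h2
      rcases h2 with h2 | h2
      · exact ⟨b (sc s), bas_mem (hST s hs), h2⟩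
      · exact ⟨-b (sc s), Submodule.neg_mem _ (bas_mem (hST s hs)), by rw [map_neg, h2, neg_neg]⟩

theorem y_mul_y (hb : IsMon g b) : g (Sum.inr 0) * g (Sum.inr 0) = 0 := by
  have h1 := gen_mul_good hb (not_bad_zero (Sum.inr 0))
  rw [hb.one, mul_one] at h1
  have h2 : g (Sum.inr 0) * b (up (Sum.inr 0) (0, ∅)) = 0 :=
    gen_mul_bad hb (by simp [bad, up])
  rcases h1 with h1 | h1
  · nth_rewrite 2 [h1]
    exact h2
  · nth_rewrite 2 [h1]
    rw [mul_neg, h2, neg_zero]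

theorem Prj.reg (h : Prj g g' π) (hb : IsMon g b) (hb' : IsMon g' b') {a : A}
    (ha : g (Sum.inr 0) * a = 0) : π a = 0 := by
  rw [h.eq_zero hb hb']
  intro s
  have h1 : ¬ bad (Sum.inr 0) (sc s) := zero_notMem_sc s
  obtain ⟨ε, hε, h2⟩ := repr_gen_mul hb h1
  have h3 := h2 a
  rw [ha, map_zero, Finsupp.zero_apply] at h3
  exact (mul_eq_zero.mp h3.symm).resolve_left (ε_ne hε)

/-- The projection on products of generators. -/
theorem Prj.cmp_map (h : Prj g g' π) (deg : Fin q ⊕ Fin (m + 1) → ℕ) (n l : ℕ) {a : A}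
    (ha : a ∈ Pool.Agent.H68.Hil.cmp K g deg n l) : π a ∈ Pool.Agent.H68.Hil.cmp K g' (dgF deg) n l := by
  have key : ∀ L : List (Fin q ⊕ Fin (m + 1)), π (L.map g).prod = 0 ∨
      ∃ L' : List (Fin q ⊕ Fin m), L = L'.map sh ∧ π (L.map g).prod = (L'.map g').prod := by
    intro L
    induction L with
    | nil => exact Or.inr ⟨[], rfl, by simp⟩
    | cons v L ih =>
      rw [List.map_cons, List.prod_cons, map_mul]
      rcases sh_cases v with rfl | ⟨w, rfl⟩
      · exact Or.inl (by rw [h.y, zero_mul])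
      · rcases ih with h1 | ⟨L', h1, h2⟩
        · exact Or.inl (by rw [h1, mul_zero])
        · exact Or.inr ⟨w :: L', by rw [h1, List.map_cons],
            by rw [h2, h.g_sh, List.map_cons, List.prod_cons]⟩
  unfold Pool.Agent.H68.Hil.cmp at ha
  induction ha using Submodule.span_induction with
  | mem x hx =>
    obtain ⟨L, h1, h2, rfl⟩ := hx
    rcases key L with h3 | ⟨L', rfl, h3⟩
    · rw [h3]; exact Submodule.zero_mem _
    · rw [h3]
      refine Submodule.subset_span ⟨L', by simpa using h1, ?_, rfl⟩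
      rw [← h2, List.map_map]
      rfl
  | zero => rw [map_zero]; exact Submodule.zero_mem _
  | add x y _ _ hx hy => rw [map_add]; exact Submodule.add_mem _ hx hy
  | smul c x _ hx => rw [map_smul]; exact Submodule.smul_mem _ _ hx

theorem Prj.cmp_sur (h : Prj g g' π) (deg : Fin q ⊕ Fin (m + 1) → ℕ) (n l : ℕ) {x : B}
    (hx : x ∈ Pool.Agent.H68.Hil.cmp K g' (dgF deg) n l) : ∃ a ∈ Pool.Agent.H68.Hil.cmp K g deg n l, π a = x := by
  unfold Pool.Agent.H68.Hil.cmp at hx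
  induction hx using Submodule.span_induction with
  | mem x hx =>
    obtain ⟨L, h1, h2, rfl⟩ := hx
    refine ⟨((L.map sh).map g).prod, Submodule.subset_span ⟨L.map sh, by simpa using h1, ?_, rfl⟩,
      ?_⟩
    · rw [← h2, List.map_map]
      rfl
    · rw [List.map_map, map_list_prod, List.map_map]
      congr 1
      apply List.map_congr_left
      intro v _
      exact h.g_sh v
  | zero => exact ⟨0, Submodule.zero_mem _, map_zero _⟩
  | add x y _ _ hx hy =>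
    obtain ⟨a, ha, rfl⟩ := hx
    obtain ⟨a', ha', rfl⟩ := hy
    exact ⟨a + a', Submodule.add_mem _ ha ha', by rw [map_add]⟩
  | smul c x _ hx =>
    obtain ⟨a, ha, rfl⟩ := hx
    exact ⟨c • a, Submodule.smul_mem _ _ ha, by rw [map_smul]⟩

/-- The induced differential is minimal. -/
theorem Prj.mn (h : Prj g g' π) (deg : Fin q ⊕ Fin (m + 1) → ℕ) {d : A → A} {dF : B → B}
    (hd : Mn K g deg d) (hc : ∀ a, π (d a) = dF (π a))
    (hsur : Function.Surjective π) : Mn K g' (dgF deg) dF := by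
  refine ⟨fun i => hd.even_deg i, fun j => hd.odd_deg j.succ, fun v => hd.two_le_deg (sh v), ?_,
    ?_, ?_⟩
  · intro x
    obtain ⟨a, rfl⟩ := hsur x
    rw [← hc, ← hc, hd.sq_zero, map_zero]
  · intro n l x y hx
    obtain ⟨a, ha, rfl⟩ := h.cmp_sur deg n l hx
    obtain ⟨c, rfl⟩ := hsur y
    rw [← map_mul, ← hc, hd.leibniz n l a c ha, map_add, map_mul, map_mul, map_mul, map_pow,
      map_neg, map_one, hc, hc]
  · intro v
    rw [← h.g_sh v, ← hc]
    have h1 := hd.map_gen (sh v)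
    have h2 : (⨆ l : ℕ, ⨆ _ : 2 ≤ l, Pool.Agent.H68.Hil.cmp K g deg (deg (sh v) + 1) l) ≤
        Submodule.comap π.toLinearMap
          (⨆ l : ℕ, ⨆ _ : 2 ≤ l, Pool.Agent.H68.Hil.cmp K g' (dgF deg) (dgF deg v + 1) l) := by
      refine iSup_le fun l => iSup_le fun hl => ?_
      intro a ha
      exact Submodule.mem_iSup_of_mem l (Submodule.mem_iSup_of_mem hl (h.cmp_map deg _ l ha))
    exact h2 h1

/-- **The fibration.** -/
theorem Prj.fib (h : Prj g g' π) (hb : IsMon g b) (hb' : IsMon g' b') (hg : GC g) (hg' : GC g')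
    {deg : Fin q ⊕ Fin (m + 1) → ℕ} {d : A →ₗ[K] A} {dF : B →ₗ[K] B} (hd : Mn K g deg d)
    (hd' : Mn K g' (dgF deg) dF) (hc : ∀ a, π (d a) = dF (π a)) (hy : d (g (Sum.inr 0)) = 0)
    {N N' : ℕ} (σ : Fin N ≃ Fin q ⊕ Fin (m + 1))
    (hσ : ∀ j k : Fin N, j ≤ k → deg (σ j) ≤ deg (σ k))
    (σ' : Fin N' ≃ Fin q ⊕ Fin m)
    (hσ' : ∀ j k : Fin N', j ≤ k → dgF deg (σ' j) ≤ dgF deg (σ' k)) :
    Fib (mkBase hb hg hd σ hσ) (mkBase hb' hg' hd' σ' hσ') π (g (Sum.inr 0))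
      (deg (Sum.inr 0) : ℤ) where
  e_odd := by exact_mod_cast hd.odd_deg 0
  e_two := by exact_mod_cast hd.two_le_deg (Sum.inr 0)
  y_mem := by
    refine cs_mono ?_ (gen_mem_cs hb (Sum.inr 0))
    rintro t rfl
    change ((dg deg _ : ℕ) : ℤ) = _
    rw [dg_gen]
  y_V := Submodule.subset_span ⟨Sum.inr 0, rfl⟩
  y_ne := by
    intro h0
    have h1 := gen_mul_good hb (not_bad_zero (Sum.inr 0))
    rw [h0, zero_mul] at h1
    have h2 : b (up (Sum.inr 0) (0, ∅)) = 0 := by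
      rcases h1 with h1 | h1
      · exact h1.symm
      · exact neg_eq_zero.mp h1.symm
    exact b.ne_zero _ h2
  dy := hy
  yy := y_mul_y hb
  gr := fun p a ha => h.gr hb hb' deg p ha
  sur := fun p x hx => h.sur hb hb' (S := {s | (dg (dgF deg) s : ℤ) = p})
    (T := {s | (dg deg s : ℤ) = p}) (by
      intro s hs
      change ((dg deg (sc s) : ℕ) : ℤ) = p
      rw [dg_sc]
      exact hs) hx
  ker := by
    intro p a ha hπ
    have h1 := cs_inf ha (h.mem_cs_of hb hb' hπ)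
    refine exists_mul hb (T := {s | (dg deg s : ℤ) = p - deg (Sum.inr 0)}) ?_ h1
    rintro s ⟨h2, h3⟩
    refine ⟨h3, ?_⟩
    rintro s' rfl hs'
    change ((dg deg (up (Sum.inr 0) s') : ℕ) : ℤ) = p at h2
    change ((dg deg s' : ℕ) : ℤ) = p - deg (Sum.inr 0)
    rw [dg_up deg hs'] at h2
    push_cast at h2
    omega
  sur' := by
    intro x
    obtain ⟨a, -, ha⟩ := h.sur hb hb' (S := Set.univ) (T := Set.univ) (fun s _ => trivial)
      (mem_univ_cs (b := b') x)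
    exact ⟨a, ha⟩
  ker' := by
    intro a ha
    obtain ⟨c, -, hc⟩ := exists_mul hb (S := {p | (0 : Fin (m + 1)) ∈ p.2})
      (T := Set.univ) (fun p hp => ⟨hp, fun _ _ _ => trivial⟩) (h.mem_cs_of hb hb' ha)
    exact ⟨c, hc⟩
  reg := fun a ha => h.reg hb hb' ha
  comm := hc

end Pool.Agent.H14.HF
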