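import Pool.Agent.H91.Hil.Statement

/-! Minimal Sullivan algebras over an odd sphere: the definitions used by the hand-in. -/

namespace Pool.Agent.H14.HFStatement

open Pool.Agent.H68.Sullivan

universe u

variable {K : Type u} [Field K] {q m : ℕ}

/-- The degrees of the generators `x_i` and `y_1, .., y_m` of `ΛW`, where `y_0, y_1, .., y_m` are
the odd generators of `ΛV`. -/
def degF (deg : Fin q ⊕ Fin (m + 1) → ℕ) : Fin q ⊕ Fin m → ℕ :=
  Sum.elim (fun i => deg (Sum.inl i)) (fun j => deg (Sum.inr j.succ))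

/-- The generator `y_0` of `(ΛV, d)` is closed and `(ΛW, dF)` is the quotient of `(ΛV, d)` by the
ideal generated by `y_0`, with projection `p`. (For minimal models of spaces: `ΛV` is the model of
the total space and `ΛW` the model of the fibre of a fibration over the odd sphere which belongs
to `y_0`.) -/
structure IsFibre (d : Lam K q (m + 1) →ₗ[K] Lam K q (m + 1)) (dF : Lam K q m →ₗ[K] Lam K q m)
    (p : Lam K q (m + 1) →ₐ[K] Lam K q m) : Prop where
  closed : d (genY K q (m + 1) 0) = 0
  genX : ∀ i, p (genX K q (m + 1) i) = genX K q m i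
  genY_zero : p (genY K q (m + 1) 0) = 0
  genY_succ : ∀ j : Fin m, p (genY K q (m + 1) j.succ) = genY K q m j
  comm : ∀ a, p (d a) = dF (p a)

/-- The part of degree `n` of `ΛW`. -/
noncomputable def homog (deg : Fin q ⊕ Fin m → ℕ) (n : ℕ) : Submodule K (Lam K q m) :=
  ⨆ l : ℕ, comp K deg n l

/-- There are `c` cocycles of positive degrees whose product is not a boundary: the cup length of
the cohomology is at least `c`. -/
def HasCup (deg : Fin q ⊕ Fin m → ℕ) (d : Lam K q m →ₗ[K] Lam K q m) (c : ℕ) : Prop :=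
  ∃ L : List (Lam K q m), L.length = c ∧
    (∀ z ∈ L, d z = 0 ∧ ∃ n : ℕ, 0 < n ∧ z ∈ homog deg n) ∧ ∀ w, d w ≠ L.prod

/-- `(ΛW, d)` is formal: there is a homomorphism `f` of graded differential algebras from
`(ΛW, d)` to a graded algebra `H` with zero differential that induces an isomorphism on
cohomology. -/
def IsFormal (deg : Fin q ⊕ Fin m → ℕ) (d : Lam K q m →ₗ[K] Lam K q m) : Prop :=
  ∃ (H : Type u) (_ : Ring H) (_ : Algebra K H) (G : ℕ → Submodule K H) (_ : GradedAlgebra G)
    (f : Lam K q m →ₐ[K] H),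
    (∀ n, ∀ a ∈ homog deg n, f a ∈ G n) ∧ (∀ a, f (d a) = 0) ∧
    (∀ h, ∃ a, d a = 0 ∧ f a = h) ∧ ∀ a, d a = 0 → f a = 0 → ∃ w, d w = a

end Pool.Agent.H14.HFStatement
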