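import Pool.Agent.H14.HF.Count
import Pool.Agent.H14.HF.Form
import Pool.Agent.H14.HF.Mon
import Pool.Agent.H14.HF.Statement

/-!
# Hilali: total spaces over odd spheres, conclusion
-/

namespace Pool.Agent.H14.HF

open Pool.Agent.H68.Sullivan Pool.Agent.H91.Hil Pool.Agent.H91.Hil.LamBase
open Pool.Agent.H14.HFStatement Pool.Agent.H91.HilStatement

universe u

variable {K : Type u} [Field K] {q m : ℕ}

theorem prj_of {d : Lam K q (m + 1) →ₗ[K] Lam K q (m + 1)} {dF : Lam K q m →ₗ[K] Lam K q m}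
    {p : Lam K q (m + 1) →ₐ[K] Lam K q m} (h : IsFibre d dF p) :
    Prj (gen K q (m + 1)) (gen K q m) p := by
  refine ⟨h.genY_zero, ?_⟩
  intro v
  rcases v with i | j
  · exact h.genX i
  · exact h.genY_succ j

theorem degF_eq (deg : Fin q ⊕ Fin (m + 1) → ℕ) : degF deg = dgF deg := by
  funext v
  rcases v with i | j <;> rfl

/-- the generators ordered by degree -/
noncomputable def ord (deg : Fin q ⊕ Fin m → ℕ) : Fin (q + m) ≃ Fin q ⊕ Fin m :=
  (Tuple.sort (deg ∘ finSumFinEquiv.symm)).trans finSumFinEquiv.symm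

theorem ord_mono (deg : Fin q ⊕ Fin m → ℕ) :
    ∀ j k : Fin (q + m), j ≤ k → deg (ord deg j) ≤ deg (ord deg k) :=
  fun _ _ hjk => Tuple.monotone_sort (deg ∘ finSumFinEquiv.symm) hjk

theorem homog_le (deg : Fin q ⊕ Fin m → ℕ) (n : ℕ) :
    homog (K := K) deg n ≤ grd (mon K q m) deg (n : ℤ) := by
  refine iSup_le fun l => ?_
  rw [comp_eq]
  refine (Pool.Agent.H68.Hil.cmp_le_span (isMon K q m) deg n l).trans
    (Submodule.span_mono (Set.image_mono ?_))
  rintro s ⟨h1, -⟩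
  change ((Pool.Agent.H68.Hil.dg deg s : ℕ) : ℤ) = n
  rw [h1]

theorem bas_homog (deg : Fin q ⊕ Fin m → ℕ) (s : Ix q m) :
    mon K q m s ∈ homog deg (Pool.Agent.H68.Hil.dg deg s) := by
  refine Submodule.mem_iSup_of_mem (Pool.Agent.H68.Hil.wl s) ?_
  rw [comp_eq]
  exact Pool.Agent.H68.Hil.bas_mem_cmp (isMon K q m) deg s

/-- the structure of `ΛW` -/
noncomputable abbrev bs {deg : Fin q ⊕ Fin m → ℕ} {d : Lam K q m →ₗ[K] Lam K q m}
    (hd : Mn K (gen K q m) deg d) : Base K (Lam K q m) :=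
  mkBase (isMon K q m) (gc_gen K q m) hd (ord deg) (ord_mono deg)

theorem nz_of {deg : Fin q ⊕ Fin m → ℕ} {d : Lam K q m →ₗ[K] Lam K q m}
    (hd : Mn K (gen K q m) deg d) {c : ℕ} (h : HasCup deg d c) : ∃ n, NZ (bs hd) c n := by
  obtain ⟨L, rfl, h1, h2⟩ := h
  have key : ∀ L : List (Lam K q m), (∀ z ∈ L, d z = 0 ∧ ∃ n : ℕ, 0 < n ∧ z ∈ homog deg n) →
      ∃ n, L.prod ∈ Pw (bs hd) L.length n := by
    intro L
    induction L with
    | nil =>
      intro _
      refine ⟨0, ?_⟩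
      rw [List.prod_nil, List.length_nil]
      exact ⟨(bs hd).one_mem, d_one hd⟩
    | cons z L ih =>
      intro hL
      obtain ⟨n, hn⟩ := ih fun x hx => hL x (List.mem_cons_of_mem _ hx)
      obtain ⟨h3, p, h4, h5⟩ := hL z List.mem_cons_self
      refine ⟨(p : ℤ) + n, ?_⟩
      rw [List.prod_cons, List.length_cons, Pw_succ]
      refine Submodule.subset_span ⟨(p : ℤ), by exact_mod_cast h4, z, homog_le deg p h5, h3,
        L.prod, ?_, rfl⟩
      rwa [add_sub_cancel_left]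
  obtain ⟨n, hn⟩ := key L h1
  exact ⟨n, L.prod, hn, h2⟩

theorem frm_of {deg : Fin q ⊕ Fin m → ℕ} {d : Lam K q m →ₗ[K] Lam K q m}
    (hd : Mn K (gen K q m) deg d) (h : IsFormal deg d) : ∃ J, Frm (bs hd) J := by
  obtain ⟨H, _, _, G, _, f, h1, h2, h3, h4⟩ := h
  refine ⟨LinearMap.ker f.toLinearMap, ?_, ?_, ?_, ?_, ?_⟩
  · intro a x hx
    rw [LinearMap.mem_ker, AlgHom.toLinearMap_apply] at hx ⊢
    rw [map_mul, hx, mul_zero]
  · intro a x hx
    rw [LinearMap.mem_ker, AlgHom.toLinearMap_apply] at hx ⊢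
    rw [map_mul, hx, zero_mul]
  · intro p x hx
    rw [LinearMap.mem_ker, AlgHom.toLinearMap_apply] at hx ⊢
    change f (prj (mon K q m) deg p x) = 0
    have key : ∀ n : ℕ, f (prj (mon K q m) deg (n : ℤ) x) = GradedRing.proj G n (f x) := by
      intro n
      have h5 : f.toLinearMap ∘ₗ prj (mon K q m) deg (n : ℤ) =
          (GradedAlgebra.proj G n) ∘ₗ f.toLinearMap := by
        apply (mon K q m).ext
        intro s
        rw [LinearMap.comp_apply, LinearMap.comp_apply, AlgHom.toLinearMap_apply,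
          AlgHom.toLinearMap_apply, prj_bas]
        have h6 := h1 _ _ (bas_homog (K := K) deg s)
        by_cases h7 : Pool.Agent.H68.Hil.dg deg s = n
        · rw [if_pos (by exact_mod_cast h7)]
          rw [h7] at h6
          rw [GradedAlgebra.proj_apply, DirectSum.decompose_of_mem_same G h6]
        · rw [if_neg (by exact_mod_cast h7), map_zero, GradedAlgebra.proj_apply,
            DirectSum.decompose_of_mem_ne G h6 h7]
      exact LinearMap.congr_fun h5 x
    rcases Int.lt_or_le p 0 with hp | hp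
    · have h8 := prj_mem (b := mon K q m) deg p x
      rw [grd_neg deg hp, Submodule.mem_bot] at h8
      rw [h8, map_zero]
    · obtain ⟨n, rfl⟩ := Int.eq_ofNat_of_zero_le hp
      rw [key, hx, map_zero]
  · intro a
    rw [LinearMap.mem_ker, AlgHom.toLinearMap_apply]
    exact h2 a
  · intro x hx hdx
    rw [LinearMap.mem_ker, AlgHom.toLinearMap_apply] at hx
    obtain ⟨w, hw⟩ := h4 x hdx hx
    obtain ⟨z, hz, hzw⟩ := h3 (f w)
    refine ⟨w - z, ?_, ?_⟩
    · rw [LinearMap.mem_ker, AlgHom.toLinearMap_apply, map_sub, hzw, sub_self]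
    · change d (w - z) = x
      rw [map_sub, hw, hz, sub_zero]

theorem fib_of (deg : Fin q ⊕ Fin (m + 1) → ℕ) {d : Lam K q (m + 1) →ₗ[K] Lam K q (m + 1)}
    {dF : Lam K q m →ₗ[K] Lam K q m} {p : Lam K q (m + 1) →ₐ[K] Lam K q m} (h : IsFibre d dF p)
    (hd : IsMin deg d) : ∃ hd' : Mn K (gen K q m) (degF deg) dF,
      Fib (bs (mn_of hd)) (bs hd') p (genY K q (m + 1) 0) (deg (Sum.inr 0) : ℤ) := by
  have hP := prj_of h
  have hsur : Function.Surjective p := by
    intro x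
    obtain ⟨a, -, ha⟩ := hP.sur (isMon K q (m + 1)) (isMon K q m) (S := Set.univ)
      (T := Set.univ) (fun s _ => trivial) (mem_univ_cs (b := mon K q m) x)
    exact ⟨a, ha⟩
  rw [degF_eq]
  have hd' : Mn K (gen K q m) (dgF deg) dF := hP.mn deg (mn_of hd) h.comm hsur
  exact ⟨hd', hP.fib (isMon K q (m + 1)) (isMon K q m) (gc_gen K q (m + 1)) (gc_gen K q m)
    (mn_of hd) hd' h.comm h.closed _ (ord_mono deg) _ (ord_mono (dgF deg))⟩

theorem final [CharZero K] (deg : Fin q ⊕ Fin (m + 1) → ℕ)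
    {d : Lam K q (m + 1) →ₗ[K] Lam K q (m + 1)}
    {dF : Lam K q m →ₗ[K] Lam K q m} {p : Lam K q (m + 1) →ₐ[K] Lam K q m} (h : IsFibre d dF p)
    (hd : IsMin deg d) (hfin : FiniteDimensional K (Coh dF)) :
    FiniteDimensional K (Coh d) ∧
    (∀ c, HasCup (degF deg) dF c → 2 * (c + 1) ≤ Module.finrank K (Coh d)) ∧
    (IsFormal (degF deg) dF → 2 * (m + 1) ≤ Module.finrank K (Coh d)) := by
  obtain ⟨hd', F⟩ := fib_of deg h hd
  refine ⟨?_, ?_, ?_⟩
  · obtain ⟨n, hn⟩ := nz_of hd' (c := 0) ⟨[], rfl, fun z hz => absurd hz List.not_mem_nil, by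
      intro w hw
      rw [List.prod_nil] at hw
      have h1 := (bs hd').π_d (-1) w
      have h2 : (bs hd').π (-1) w = 0 := by
        have h3 := (bs hd').π_mem (-1) w
        rw [(bs hd').gr_neg (-1) (by norm_num), Submodule.mem_bot] at h3
        exact h3
      rw [h2, map_zero] at h1
      have h4 : (bs hd').d w = 1 := hw
      rw [h4, neg_add_cancel, (bs hd').π_self 0 1 (bs hd').one_mem] at h1
      exact (bs hd').one_ne h1⟩
    exact (F.main hfin 0 n hn).1
  · intro c hc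
    obtain ⟨n, hn⟩ := nz_of hd' hc
    exact (F.main hfin c n hn).2
  · intro hf
    obtain ⟨J, hJ⟩ := frm_of hd' hf
    obtain ⟨n, hn⟩ := hJ.main
    have h1 : (bs hd').odd 0 = m := odd_mkBase (isMon K q m) (gc_gen K q m) hd' _ _
    rw [h1] at hn
    exact (F.main hfin m n hn).2

end Pool.Agent.H14.HF
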