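import Mathlib

/-!
# A homogeneous system of parameters has at least as many elements as there are variables
-/

namespace Pool.Agent.H14.HF.Krull

open MvPolynomial

variable {K : Type*} [Field K] {q : ℕ}

/-- kill the first `i` variables -/
noncomputable def kil (K : Type*) [Field K] (q i : ℕ) :
    MvPolynomial (Fin q) K →ₐ[K] MvPolynomial (Fin q) K :=
  aeval fun j => if j.1 < i then 0 else X j

theorem kil_X (i : ℕ) (j : Fin q) : kil K q i (X j) = if j.1 < i then 0 else X j := by
  rw [kil, aeval_X]

/-- the ideal of the first `i` variables -/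
noncomputable def P (K : Type*) [Field K] (q i : ℕ) : Ideal (MvPolynomial (Fin q) K) :=
  RingHom.ker (kil K q i)

instance (i : ℕ) : (P K q i).IsPrime := RingHom.ker_isPrime _

theorem mem_P {i : ℕ} {f : MvPolynomial (Fin q) K} : f ∈ P K q i ↔ kil K q i f = 0 := Iff.rfl

theorem kil_kil (i : ℕ) (f : MvPolynomial (Fin q) K) :
    kil K q (i + 1) (kil K q i f) = kil K q (i + 1) f := by
  have h : (kil K q (i + 1)).comp (kil K q i) = kil K q (i + 1) := by
    apply MvPolynomial.algHom_ext
    intro j
    rw [AlgHom.comp_apply, kil_X]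
    split_ifs with h1
    · rw [map_zero, kil_X, if_pos (by omega)]
    · rfl
  exact AlgHom.congr_fun h f

theorem P_lt {i : ℕ} (hi : i < q) : P K q i < P K q (i + 1) := by
  rw [SetLike.lt_iff_le_and_exists]
  refine ⟨?_, X ⟨i, hi⟩, ?_, ?_⟩
  · intro f hf
    rw [mem_P] at hf ⊢
    rw [← kil_kil, hf, map_zero]
  · rw [mem_P, kil_X, if_pos (Nat.lt_succ_self i)]
  · rw [mem_P, kil_X, if_neg (lt_irrefl i)]
    exact X_ne_zero _

theorem height_ge (i : ℕ) (hi : i ≤ q) : (i : ℕ∞) ≤ (P K q i).height := by
  induction i with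
  | zero => exact bot_le
  | succ i ih =>
    have h1 := Ideal.height_add_one_le_of_lt_of_isPrime (P_lt (K := K) (q := q) (i := i) (by omega))
    have h2 := ih (by omega)
    push_cast
    exact (add_le_add_left h2 1).trans h1

theorem sub_mem (f : MvPolynomial (Fin q) K) :
    f - kil K q q f ∈ Ideal.span (Set.range (X : Fin q → MvPolynomial (Fin q) K)) := by
  induction f using MvPolynomial.induction_on with
  | C a =>
    have h : kil K q q (C a) = C a := (kil K q q).commutes a
    rw [h, sub_self]
    exact Ideal.zero_mem _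
  | add f g hf hg =>
    have h : f + g - kil K q q (f + g) = (f - kil K q q f) + (g - kil K q q g) := by
      rw [map_add]
      ring
    rw [h]
    exact Ideal.add_mem _ hf hg
  | mul_X f j _ =>
    rw [map_mul, kil_X, if_pos j.2, mul_zero, sub_zero]
    exact Ideal.mul_mem_left _ _ (Ideal.subset_span ⟨j, rfl⟩)

/-- If the variables are nilpotent modulo `m` polynomials without constant term, then `q ≤ m`. -/
theorem le_card {m : ℕ} (f : Fin m → MvPolynomial (Fin q) K)
    (h : ∀ j : Fin q, X j ∈ (Ideal.span (Set.range f)).radical)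
    (h' : ∀ i, f i ∈ Ideal.span (Set.range (X : Fin q → MvPolynomial (Fin q) K))) : q ≤ m := by
  classical
  have hX : Ideal.span (Set.range (X : Fin q → MvPolynomial (Fin q) K)) ≤ P K q q := by
    rw [Ideal.span_le]
    rintro _ ⟨j, rfl⟩
    rw [SetLike.mem_coe, mem_P, kil_X, if_pos j.2]
  have hS : ((Finset.univ.image f : Finset (MvPolynomial (Fin q) K)) :
      Set (MvPolynomial (Fin q) K)) = Set.range f := by
    rw [Finset.coe_image, Finset.coe_univ, Set.image_univ]
  have hmin : P K q q ∈ (Ideal.span ((Finset.univ.image f : Finset (MvPolynomial (Fin q) K)) :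
      Set (MvPolynomial (Fin q) K))).minimalPrimes := by
    rw [hS]
    refine ⟨⟨inferInstance, ?_⟩, ?_⟩
    · rw [Ideal.span_le]
      rintro _ ⟨i, rfl⟩
      exact hX (h' i)
    · rintro J ⟨hJ, hJS⟩ _ g hg
      have h1 := sub_mem g
      rw [mem_P.mp hg, sub_zero] at h1
      refine (Ideal.span_le.mpr ?_ : Ideal.span (Set.range
        (X : Fin q → MvPolynomial (Fin q) K)) ≤ J) h1
      rintro _ ⟨j, rfl⟩
      exact (hJ.radical_le_iff.mpr hJS) (h j)
  have h1 := Ideal.height_le_card_of_mem_minimalPrimes_span_finset hmin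
  have h2 := (height_ge (K := K) (q := q) q le_rfl).trans h1
  have h3 : (Finset.univ.image f).card ≤ m := by
    refine Finset.card_image_le.trans ?_
    rw [Finset.card_univ, Fintype.card_fin]
  have h4 : q ≤ (Finset.univ.image f).card := by exact_mod_cast h2
  exact h4.trans h3

end Pool.Agent.H14.HF.Krull
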