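import Pool.Agent.H14.HF.Nil
import Pool.Agent.H14.HF.Krull
import Pool.Agent.H14.HF.Final

/-!
# Hilali: `dim V^even ≤ dim V^odd` for elliptic minimal Sullivan algebras
-/

namespace Pool.Agent.H14.HF

open Pool.Agent.H68.Sullivan Pool.Agent.H91.Hil Pool.Agent.H91.Hil.LamBase
open Pool.Agent.H91.HilStatement

universe u

variable {K : Type u} [Field K] {q m : ℕ}

/-- the projection to the polynomial ring -/
noncomputable def ev (K : Type u) [Field K] (q m : ℕ) : Lam K q m →+* MvPolynomial (Fin q) K :=
  (ExteriorAlgebra.algebraMapInv : ExteriorAlgebra (MvPolynomial (Fin q) K)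
    (Fin m → MvPolynomial (Fin q) K) →ₐ[MvPolynomial (Fin q) K]
      MvPolynomial (Fin q) K).toRingHom

theorem ev_inl (i : Fin q) : ev K q m (gen K q m (Sum.inl i)) = MvPolynomial.X i :=
  ExteriorAlgebra.algebraMap_leftInverse (R := MvPolynomial (Fin q) K)
    (Fin m → MvPolynomial (Fin q) K) (MvPolynomial.X i)

theorem ev_inr (j : Fin m) : ev K q m (gen K q m (Sum.inr j)) = 0 := by
  change (ExteriorAlgebra.algebraMapInv : ExteriorAlgebra (MvPolynomial (Fin q) K)
    (Fin m → MvPolynomial (Fin q) K) →ₐ[MvPolynomial (Fin q) K]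
      MvPolynomial (Fin q) K) (ExteriorAlgebra.ι (MvPolynomial (Fin q) K) (vec K q m j)) = 0
  simp [ExteriorAlgebra.algebraMapInv]

theorem ev_smul_mem {I : Ideal (MvPolynomial (Fin q) K)} (c : K) {x : Lam K q m}
    (h : ev K q m x ∈ I) : ev K q m (c • x) ∈ I := by
  rw [Algebra.smul_def, map_mul]
  exact Ideal.mul_mem_left _ _ h

theorem ev_cs {I : Ideal (MvPolynomial (Fin q) K)} {S : Set (Ix q m)}
    (h : ∀ s ∈ S, ev K q m (mon K q m s) ∈ I) {x : Lam K q m} (hx : x ∈ cs (mon K q m) S) :
    ev K q m x ∈ I := by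
  apply cs_ind (P := fun x => ev K q m x ∈ I) _ _ _ _ hx
  · rw [map_zero]; exact Ideal.zero_mem _
  · intro x y h1 h2; rw [map_add]; exact Ideal.add_mem _ h1 h2
  · intro c x h1; exact ev_smul_mem c h1
  · exact h

/-- a monomial that contains `v` -/
theorem ev_occ {I : Ideal (MvPolynomial (Fin q) K)} {v : Fin q ⊕ Fin m} {s : Ix q m}
    (h : occ v s) (hv : ev K q m (gen K q m v) ∈ I) : ev K q m (mon K q m s) ∈ I := by
  obtain ⟨s', rfl, hs'⟩ := exists_up h
  rcases gen_mul_good (isMon K q m) hs' with h5 | h5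
  · rw [← h5, map_mul]
    exact Ideal.mul_mem_right _ _ hv
  · have h6 : mon K q m (up v s') = -(gen K q m v * mon K q m s') := by rw [h5, neg_neg]
    rw [h6, map_neg, map_mul]
    exact Ideal.neg_mem_iff _ |>.mpr (Ideal.mul_mem_right _ _ hv)

variable {deg : Fin q ⊕ Fin m → ℕ} {d : Lam K q m →ₗ[K] Lam K q m}

theorem ev_odd (hd : Mn K (gen K q m) deg d) {p : ℤ} (hp : Odd p) {x : Lam K q m}
    (hx : x ∈ grd (mon K q m) deg p) : ev K q m x = 0 := by
  rw [← Ideal.mem_bot]
  refine ev_cs (fun s hs => ?_) hx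
  have h1 : ¬ Even s.2.card := by
    rw [par hd hs, Int.not_even_iff_odd]
    exact hp
  have h2 : s.2.Nonempty := by
    rw [Finset.nonempty_iff_ne_empty]
    rintro h3
    rw [h3, Finset.card_empty] at h1
    exact h1 Even.zero
  obtain ⟨j, hj⟩ := h2
  exact ev_occ (v := Sum.inr j) hj (by rw [ev_inr]; exact Ideal.zero_mem _)

/-- the polynomials `f_j` -/
noncomputable def ff (d : Lam K q m →ₗ[K] Lam K q m) (j : Fin m) : MvPolynomial (Fin q) K :=
  ev K q m (d (gen K q m (Sum.inr j)))

theorem ev_d_gen (hd : Mn K (gen K q m) deg d) (v : Fin q ⊕ Fin m) :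
    ev K q m (d (gen K q m v)) ∈ Ideal.span (Set.range (ff d)) := by
  rcases v with i | j
  · have h1 : gen K q m (Sum.inl i) ∈ grd (mon K q m) deg (deg (Sum.inl i) : ℤ) := by
      refine cs_mono ?_ (gen_mem_cs (isMon K q m) (Sum.inl i))
      rintro t rfl
      change ((Pool.Agent.H68.Hil.dg deg _ : ℕ) : ℤ) = _
      rw [dg_gen]
    have h2 := d_mem (isMon K q m) hd h1
    have h3 : Odd ((deg (Sum.inl i) : ℤ) + 1) := by
      have := hd.even_deg i
      exact Even.add_one (by exact_mod_cast this)
    rw [ev_odd hd h3 h2]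
    exact Ideal.zero_mem _
  · exact Ideal.subset_span ⟨j, rfl⟩

theorem ev_d (hd : Mn K (gen K q m) deg d) (x : Lam K q m) :
    ev K q m (d x) ∈ Ideal.span (Set.range (ff d)) := by
  apply cs_ind (P := fun x => ev K q m (d x) ∈ Ideal.span (Set.range (ff d))) _ _ _ _
    (mem_univ_cs (b := mon K q m) x)
  · rw [map_zero, map_zero]; exact Ideal.zero_mem _
  · intro x y h1 h2; rw [map_add, map_add]; exact Ideal.add_mem _ h1 h2
  · intro c x h1; rw [map_smul]; exact ev_smul_mem c h1
  · intro s _
    apply mon_ind (isMon K q m) (P := fun _ x => ev K q m (d x) ∈ Ideal.span (Set.range (ff d)))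
    · rw [d_one hd, map_zero]; exact Ideal.zero_mem _
    · intro p x h; rw [map_neg, map_neg]; exact Ideal.neg_mem_iff _ |>.mpr h
    · intro v p x _ _ h
      rw [hd.leibniz (deg v) 1 _ _ (Pool.Agent.H68.Hil.gen_mem_cmp (gen K q m) deg v), map_add,
        map_mul, map_mul, map_mul]
      exact Ideal.add_mem _ (Ideal.mul_mem_right _ _ (ev_d_gen hd v))
        (Ideal.mul_mem_left _ _ (Ideal.mul_mem_left _ _ h))

/-- **Friedlander and Halperin.** If the cohomology of a minimal Sullivan algebra is finite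
dimensional, then `dim V^even ≤ dim V^odd`. -/
theorem even_le_odd [CharZero K] (hd : Mn K (gen K q m) deg d)
    (hfin : FiniteDimensional K (Coh d)) : q ≤ m := by
  obtain ⟨r, hr⟩ := exists_chain (bs hd) hfin
  refine Krull.le_card (K := K) (ff d) ?_ ?_
  · have key : ∀ k : ℕ, ∀ hk : k < q + m, ∀ i : Fin q, ord deg ⟨k, hk⟩ = Sum.inl i →
        (MvPolynomial.X i : MvPolynomial (Fin q) K) ∈ (Ideal.span (Set.range (ff d))).radical := by
      intro k
      induction k using Nat.strong_induction_on with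
      | _ k ih =>
        intro hk i hi
        have he : Even ((bs hd).dg k) := by
          change Even (df deg (ord deg) k)
          rw [df, dif_pos hk, hi]
          have := hd.even_deg i
          exact_mod_cast this
        obtain ⟨w, hw⟩ := pow_mem (bs hd) hr (j := k) hk he
        have hv : (bs hd).v k = gen K q m (Sum.inl i) := by
          change vf (gen K q m) (ord deg) k = _
          rw [vf, dif_pos hk, hi]
        rw [hv] at hw
        have h1 : ev K q m (gen K q m (Sum.inl i) ^ r - d w) ∈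
            (Ideal.span (Set.range (ff d))).radical := by
          refine ev_cs (fun s hs => ?_) hw
          obtain ⟨l, hl, hocc⟩ := hs
          refine ev_occ hocc ?_
          rcases hw : ord deg l with i' | j'
          · rw [ev_inl]
            exact ih l.1 hl l.2 i' hw
          · rw [ev_inr]
            exact Ideal.zero_mem _
        have h2 : ev K q m (d w) ∈ (Ideal.span (Set.range (ff d))).radical :=
          Ideal.le_radical (ev_d hd w)
        have h3 := Ideal.add_mem _ h1 h2
        rw [← map_add, sub_add_cancel, map_pow, ev_inl] at h3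
        obtain ⟨n, hn⟩ := h3
        exact ⟨r * n, by rw [pow_mul]; exact hn⟩
    intro i
    refine key ((ord deg).symm (Sum.inl i)).1 ((ord deg).symm (Sum.inl i)).2 i ?_
    exact (ord deg).apply_symm_apply _
  · intro j
    have h1 : gen K q m (Sum.inr j) ∈ grd (mon K q m) deg (deg (Sum.inr j) : ℤ) := by
      refine cs_mono ?_ (gen_mem_cs (isMon K q m) (Sum.inr j))
      rintro t rfl
      change ((Pool.Agent.H68.Hil.dg deg _ : ℕ) : ℤ) = _
      rw [dg_gen]
    have h2 := d_mem (isMon K q m) hd h1
    have h3 := I_top (σ := ord deg) (by positivity) h2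
    refine ev_cs (fun s hs => ?_) h3
    obtain ⟨l, -, hocc⟩ := hs
    refine ev_occ hocc ?_
    rcases ord deg l with i' | j'
    · rw [ev_inl]
      exact Ideal.subset_span ⟨i', rfl⟩
    · rw [ev_inr]
      exact Ideal.zero_mem _

end Pool.Agent.H14.HF
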