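import Pool.Agent.H91.Hil.Desc
import Pool.Agent.H91.Hil.ChainE

/-!
# Hilali: total spaces over odd spheres (algebra)

`A` is a minimal Sullivan algebra, `y` an odd closed generator, `B = A / (y)`.
-/

namespace Pool.Agent.H14.HF

open Pool.Agent.H91.Hil

variable {K A B : Type*} [Field K] [Ring A] [Algebra K A] [Ring B] [Algebra K B]

/-- `π : A → B` is the quotient by the closed odd generator `y` of degree `e`. -/
structure Fib (BA : Base K A) (BB : Base K B) (π : A →ₐ[K] B) (y : A) (e : ℤ) : Prop where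
  e_odd : Odd e
  e_two : 2 ≤ e
  y_mem : y ∈ BA.gr e
  y_V : y ∈ BA.V
  y_ne : y ≠ 0
  dy : BA.d y = 0
  yy : y * y = 0
  gr : ∀ p, ∀ a ∈ BA.gr p, π a ∈ BB.gr p
  sur : ∀ p, ∀ b ∈ BB.gr p, ∃ a ∈ BA.gr p, π a = b
  ker : ∀ p, ∀ a ∈ BA.gr p, π a = 0 → ∃ c ∈ BA.gr (p - e), a = y * c
  sur' : Function.Surjective π
  ker' : ∀ a, π a = 0 → ∃ c, a = y * c
  reg : ∀ a, y * a = 0 → π a = 0
  comm : ∀ a, π (BA.d a) = BB.d (π a)

/-- `z'` is a value of the derivation `θ` on `z`. -/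
def Rel (BA : Base K A) (π : A →ₐ[K] B) (y : A) (e n : ℤ) (z z' : B) : Prop :=
  ∃ a ∈ BA.gr n, ∃ c ∈ BA.gr (n + 1 - e), π a = z ∧ BA.d a = y * c ∧ π c = z'

/-- products of `j` cocycles of positive degree and a cocycle -/
def Pw (BB : Base K B) : ℕ → ℤ → Submodule K B
  | 0, n => BB.gr n ⊓ LinearMap.ker BB.d
  | j + 1, n => Submodule.span K {x | ∃ p : ℤ, 0 < p ∧ ∃ b ∈ BB.gr p, BB.d b = 0 ∧
      ∃ w ∈ Pw BB j (n - p), x = b * w}

/-- some element of `Pw j n` is not a boundary -/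
def NZ (BB : Base K B) (j : ℕ) (n : ℤ) : Prop := ∃ z ∈ Pw BB j n, ∀ w, BB.d w ≠ z

theorem Pw_succ (BB : Base K B) (j : ℕ) (n : ℤ) : Pw BB (j + 1) n =
    Submodule.span K {x | ∃ p : ℤ, 0 < p ∧ ∃ b ∈ BB.gr p, BB.d b = 0 ∧
      ∃ w ∈ Pw BB j (n - p), x = b * w} := rfl

theorem α_gr (BB : Base K B) {p : ℤ} {b : B} (hb : b ∈ BB.gr p) : BB.α b ∈ BB.gr p := by
  rcases Int.even_or_odd p with h | h
  · rw [BB.α_ev p h b hb]; exact hb
  · rw [BB.α_od p h b hb]; exact Submodule.neg_mem _ hb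

theorem Pw_coc (BB : Base K B) (j : ℕ) : ∀ n : ℤ, ∀ z ∈ Pw BB j n, z ∈ BB.gr n ∧ BB.d z = 0 := by
  induction j with
  | zero => intro n z hz; exact hz
  | succ j ih =>
    intro n z hz
    rw [Pw_succ] at hz
    induction hz using Submodule.span_induction with
    | mem x hx =>
      obtain ⟨p, hp, b, hb, hdb, w, hw, rfl⟩ := hx
      obtain ⟨h1, h2⟩ := ih _ w hw
      refine ⟨?_, ?_⟩
      · have h3 := BB.mul_mem p (n - p) b hb w h1
        rwa [add_sub_cancel] at h3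
      · rw [BB.d_mul, hdb, h2, zero_mul, mul_zero, add_zero]
    | zero => exact ⟨Submodule.zero_mem _, map_zero _⟩
    | add x y _ _ hx hy =>
      exact ⟨Submodule.add_mem _ hx.1 hy.1, by rw [map_add, hx.2, hy.2, add_zero]⟩
    | smul c x _ hx => exact ⟨Submodule.smul_mem _ c hx.1, by rw [map_smul, hx.2, smul_zero]⟩

theorem Pw_range (BB : Base K B) {j : ℕ} {n : ℤ}
    (h : ∀ n' < n, ∀ w ∈ Pw BB j n', w ∈ LinearMap.range BB.d) :
    ∀ z ∈ Pw BB (j + 1) n, z ∈ LinearMap.range BB.d := by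
  intro z hz
  rw [Pw_succ] at hz
  refine (Submodule.span_le.mpr ?_ : _ ≤ LinearMap.range BB.d) hz
  rintro x ⟨p, hp, b, hb, hdb, w, hw, rfl⟩
  obtain ⟨w', hw'⟩ := h (n - p) (by omega) w hw
  refine ⟨BB.α b * w', ?_⟩
  rw [BB.d_mul, BB.α_α, hw', BB.d_α, hdb, map_zero, neg_zero, zero_mul, zero_add]

theorem not_NZ {BB : Base K B} {j : ℕ} {n : ℤ} (h : ¬ NZ BB j n) :
    ∀ w ∈ Pw BB j n, w ∈ LinearMap.range BB.d := by
  intro w hw
  by_contra hcon
  exact h ⟨w, hw, fun w' hw' => hcon ⟨w', hw'⟩⟩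

theorem NZ_step (BB : Base K B) {j : ℕ} {n : ℤ} (h : NZ BB (j + 1) n) :
    ∃ n' < n, NZ BB j n' := by
  by_contra hcon
  push Not at hcon
  obtain ⟨z, hz, hne⟩ := h
  obtain ⟨w, hw⟩ := Pw_range BB (fun n' hn' => not_NZ (hcon n' hn')) z hz
  exact hne w hw

theorem NZ_nonneg (BB : Base K B) {j : ℕ} {n : ℤ} (h : NZ BB j n) : 0 ≤ n := by
  by_contra hn
  obtain ⟨z, hz, hne⟩ := h
  have h1 := (Pw_coc BB j n z hz).1
  rw [BB.gr_neg n (by omega), Submodule.mem_bot] at h1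
  exact hne 0 (by rw [map_zero, h1])

/-- the least degree -/
theorem NZ_least (BB : Base K B) {j : ℕ} {n : ℤ} (h : NZ BB j n) :
    ∃ l ≤ n, NZ BB j l ∧ ∀ n' < l, ¬ NZ BB j n' := by
  obtain ⟨l, h1, h2⟩ := Int.exists_least_of_bdd (P := fun n => NZ BB j n)
    ⟨0, fun z hz => NZ_nonneg BB hz⟩ ⟨n, h⟩
  exact ⟨l, h2 n h, h1, fun n' hn' hN => absurd (h2 n' hN) (by omega)⟩

section

variable {BA : Base K A} {BB : Base K B} {π : A →ₐ[K] B} {y : A} {e : ℤ}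

theorem Rel.add {n : ℤ} {z z' w w' : B} (h : Rel BA π y e n z z') (h' : Rel BA π y e n w w') :
    Rel BA π y e n (z + w) (z' + w') := by
  obtain ⟨a, ha, c, hc, h1, h2, h3⟩ := h
  obtain ⟨a', ha', c', hc', h1', h2', h3'⟩ := h'
  exact ⟨a + a', Submodule.add_mem _ ha ha', c + c', Submodule.add_mem _ hc hc',
    by rw [map_add, h1, h1'], by rw [map_add, h2, h2', mul_add], by rw [map_add, h3, h3']⟩

theorem Rel.smul {n : ℤ} {z z' : B} (k : K) (h : Rel BA π y e n z z') :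
    Rel BA π y e n (k • z) (k • z') := by
  obtain ⟨a, ha, c, hc, h1, h2, h3⟩ := h
  exact ⟨k • a, Submodule.smul_mem _ k ha, k • c, Submodule.smul_mem _ k hc,
    by rw [map_smul, h1], by rw [map_smul, h2, mul_smul_comm], by rw [map_smul, h3]⟩

theorem Rel.zero {n : ℤ} : Rel BA π y e n 0 0 :=
  ⟨0, Submodule.zero_mem _, 0, Submodule.zero_mem _, map_zero _, by rw [map_zero, mul_zero],
    map_zero _⟩

variable (F : Fib BA BB π y e)
include F

theorem Fib.π_y : π y = 0 := F.reg y F.yy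

theorem Fib.d_y_mul (a : A) : BA.d (y * a) = -(y * BA.d a) := by
  rw [BA.d_mul, F.dy, zero_mul, zero_add, BA.α_od e F.e_odd y F.y_mem, neg_mul]

theorem Fib.rel_exists {n : ℤ} {z : B} (hz : z ∈ BB.gr n) (hd : BB.d z = 0) :
    ∃ z', Rel BA π y e n z z' := by
  obtain ⟨a, ha, h1⟩ := F.sur n z hz
  obtain ⟨c, hc, h2⟩ := F.ker (n + 1) (BA.d a) (BA.d_mem n a ha) (by rw [F.comm, h1, hd])
  exact ⟨π c, a, ha, c, hc, h1, h2, rfl⟩

theorem Fib.rel_coc {n : ℤ} {z z' : B} (h : Rel BA π y e n z z') :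
    z' ∈ BB.gr (n + 1 - e) ∧ BB.d z' = 0 := by
  obtain ⟨a, ha, c, hc, h1, h2, h3⟩ := h
  refine ⟨by rw [← h3]; exact F.gr _ c hc, ?_⟩
  rw [← h3, ← F.comm]
  apply F.reg
  have h4 := BA.d_sq a
  rw [h2, F.d_y_mul, neg_eq_zero] at h4
  exact h4

theorem Fib.rel_mul {p n : ℤ} {b b' w w' : B} (h : Rel BA π y e p b b')
    (h' : Rel BA π y e n w w') : Rel BA π y e (p + n) (b * w) (b' * w + b * w') := by
  obtain ⟨a1, ha1, c1, hc1, h1, h2, h3⟩ := h
  obtain ⟨a2, ha2, c2, hc2, h1', h2', h3'⟩ := h'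
  refine ⟨a1 * a2, BA.mul_mem p n a1 ha1 a2 ha2, c1 * a2 + a1 * c2, ?_, ?_, ?_, ?_⟩
  · refine Submodule.add_mem _ ?_ ?_
    · have h4 := BA.mul_mem _ _ c1 hc1 a2 ha2
      have e1 : p + 1 - e + n = p + n + 1 - e := by ring
      rwa [e1] at h4
    · have h4 := BA.mul_mem _ _ a1 ha1 c2 hc2
      have e1 : p + (n + 1 - e) = p + n + 1 - e := by ring
      rwa [e1] at h4
  · rw [map_mul, h1, h1']
  · have h4 : BA.α a1 * y = y * a1 := (BA.gc_od e F.e_odd y F.y_mem a1).symm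
    rw [BA.d_mul, h2, h2', ← mul_assoc (BA.α a1), h4, mul_add, mul_assoc, mul_assoc]
  · rw [map_add, map_mul, map_mul, h3, h1', h1, h3']

/-- `θ` has no constant values -/
theorem Fib.rel_pos {n : ℤ} {z z' : B} (h : Rel BA π y e n z z') (hn : n + 1 - e ≤ 0) :
    z' = 0 := by
  have hc := F.rel_coc h
  rcases lt_or_eq_of_le hn with hlt | heq
  · have h1 := hc.1
    rwa [BB.gr_neg _ hlt, Submodule.mem_bot] at h1
  · obtain ⟨a, ha, c, hc, h1, h2, h3⟩ := h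
    rw [heq] at hc
    obtain ⟨k, rfl⟩ := BA.gr_zero c hc
    have h4 : BA.d a = k • y := by
      rw [h2, ← Algebra.commutes, ← Algebra.smul_def]
    have h5 : k • y ∈ BA.A2 := by rw [← h4]; exact BA.d_A2 a
    have h6 := BA.V_A2 _ (Submodule.smul_mem _ k F.y_V) h5
    have h7 : k = 0 := (smul_eq_zero.mp h6).resolve_right F.y_ne
    rw [← h3, h7, map_zero, map_zero]

theorem Fib.Pw_rel (j : ℕ) : ∀ n : ℤ, ∀ z ∈ Pw BB j n,
    ∃ z' ∈ Pw BB j (n + 1 - e), Rel BA π y e n z z' := by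
  induction j with
  | zero =>
    intro n z hz
    obtain ⟨z', h⟩ := F.rel_exists hz.1 hz.2
    exact ⟨z', F.rel_coc h, h⟩
  | succ j ih =>
    intro n z hz
    rw [Pw_succ] at hz
    induction hz using Submodule.span_induction with
    | mem x hx =>
      obtain ⟨p, hp, b, hb, hdb, w, hw, rfl⟩ := hx
      obtain ⟨b', hb'⟩ := F.rel_exists hb hdb
      obtain ⟨w', hw'm, hw'⟩ := ih _ w hw
      have h1 := F.rel_mul hb' hw'
      rw [add_sub_cancel] at h1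
      refine ⟨_, ?_, h1⟩
      rw [Pw_succ]
      refine Submodule.add_mem _ ?_ (Submodule.subset_span ⟨p, hp, b, hb, hdb, w', ?_, rfl⟩)
      · by_cases h0 : p + 1 - e ≤ 0
        · rw [F.rel_pos hb' h0, zero_mul]
          exact Submodule.zero_mem _
        · have h2 := F.rel_coc hb'
          refine Submodule.subset_span ⟨p + 1 - e, by omega, b', h2.1, h2.2, w, ?_, rfl⟩
          have e1 : n + 1 - e - (p + 1 - e) = n - p := by ring
          rwa [e1]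
      · have e1 : n + 1 - e - p = n - p + 1 - e := by ring
        rwa [e1]
    | zero => exact ⟨0, Submodule.zero_mem _, Rel.zero⟩
    | add x y' _ _ hx hy =>
      obtain ⟨x', hx', h1⟩ := hx
      obtain ⟨y'', hy', h2⟩ := hy
      exact ⟨x' + y'', Submodule.add_mem _ hx' hy', h1.add h2⟩
    | smul c x _ hx =>
      obtain ⟨x', hx', h1⟩ := hx
      exact ⟨c • x', Submodule.smul_mem _ c hx', h1.smul c⟩

/-- Elements of `Pw j l` lift to cocycles of `A` if `l` is the least degree. -/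
theorem Fib.lift {n : ℤ} {z z' : B} (h : Rel BA π y e n z z')
    (hz' : z' ∈ LinearMap.range BB.d) : ∃ a ∈ BA.gr n, BA.d a = 0 ∧ π a = z := by
  have hc := F.rel_coc h
  obtain ⟨a, ha, c, hc', h1, h2, h3⟩ := h
  obtain ⟨w, hw⟩ := hz'
  have hw1 : BB.d (BB.π (n - e) w) = z' := by
    have e1 : n - e + 1 = n + 1 - e := by ring
    rw [← BB.π_d, hw, e1, BB.π_self _ _ hc.1]
  obtain ⟨ε, hε, hε'⟩ := F.sur (n - e) _ (BB.π_mem (n - e) w)
  have h4 : π (c - BA.d ε) = 0 := by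
    rw [map_sub, F.comm, hε', hw1, h3, sub_self]
  obtain ⟨c', hc''⟩ := F.ker' _ h4
  have h5 : y * c = y * BA.d ε := by
    rw [← sub_eq_zero, ← mul_sub, hc'', ← mul_assoc, F.yy, zero_mul]
  refine ⟨a + y * ε, Submodule.add_mem _ ha ?_, ?_, ?_⟩
  · have h6 := BA.mul_mem _ _ y F.y_mem ε hε
    rwa [add_sub_cancel] at h6
  · rw [map_add, F.d_y_mul, h2, h5, add_neg_cancel]
  · rw [map_add, map_mul, F.π_y, zero_mul, add_zero, h1]

/-- **The chain of degrees**, for a filtration `X` by subspaces of cocycles which is stable under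
`θ`. -/
theorem Fib.chainX (X : ℕ → ℤ → Submodule K B) (hX : ∀ j n, ∀ z ∈ X j n, z ∈ BB.gr n)
    (hXr : ∀ j n, ∀ z ∈ X j n, ∃ z' ∈ X j (n + 1 - e), Rel BA π y e n z z')
    (hXs : ∀ j n, (∃ z ∈ X (j + 1) n, ∀ w, BB.d w ≠ z) →
      ∃ n' < n, ∃ z ∈ X j n', ∀ w, BB.d w ≠ z) (c : ℕ) :
    ∀ n : ℤ, (∃ z ∈ X c n, ∀ w, BB.d w ≠ z) → ∃ l : ℕ → ℤ, l c ≤ n ∧
      (∀ i < c, l i < l (i + 1)) ∧ ∀ i ≤ c, ∃ a ∈ BA.gr (l i), BA.d a = 0 ∧
        ∀ w, BB.d w ≠ π a := by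
  have key : ∀ j n, (∃ z ∈ X j n, ∀ w, BB.d w ≠ z) → ∃ l ≤ n, (∃ z ∈ X j l, ∀ w, BB.d w ≠ z) ∧
      ∃ a ∈ BA.gr l, BA.d a = 0 ∧ ∀ w, BB.d w ≠ π a := by
    intro j n hn
    obtain ⟨l, h1, h2⟩ := Int.exists_least_of_bdd (P := fun n => ∃ z ∈ X j n, ∀ w, BB.d w ≠ z)
      ⟨0, fun n hz => by
        by_contra hneg
        obtain ⟨z, hz, hne⟩ := hz
        have h1 := hX _ _ _ hz
        rw [BB.gr_neg n (by omega), Submodule.mem_bot] at h1
        exact hne 0 (by rw [map_zero, h1])⟩ ⟨n, hn⟩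
    obtain ⟨z, hz, hne⟩ := h1
    obtain ⟨z', hz', hr⟩ := hXr j l z hz
    have h3 : z' ∈ LinearMap.range BB.d := by
      by_contra hcon
      have h4 := h2 (l + 1 - e) ⟨z', hz', fun w hw => hcon ⟨w, hw⟩⟩
      have := F.e_two
      omega
    obtain ⟨a, ha, hd, hπ⟩ := F.lift hr h3
    exact ⟨l, h2 n hn, ⟨z, hz, hne⟩, a, ha, hd, by rw [hπ]; exact hne⟩
  induction c with
  | zero =>
    intro n hn
    obtain ⟨l, hl, -, a, ha, hd, hne⟩ := key 0 n hn
    refine ⟨fun _ => l, hl, fun i hi => absurd hi (by omega), ?_⟩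
    intro i hi
    exact ⟨a, ha, hd, hne⟩
  | succ c ih =>
    intro n hn
    obtain ⟨l1, hl1, hN, a, ha, hd, hne⟩ := key (c + 1) n hn
    obtain ⟨n', hn', hN'⟩ := hXs c l1 hN
    obtain ⟨l, hl, hlt, hch⟩ := ih n' hN'
    refine ⟨fun i => if i = c + 1 then l1 else l i, by simpa using hl1, ?_, ?_⟩
    · intro i hi
      by_cases h1 : i = c
      · subst h1
        simp only [Nat.left_eq_add, one_ne_zero, if_false, if_true]
        omega
      · have h2 : i ≠ c + 1 := by omega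
        have h3 : i + 1 ≠ c + 1 := by omega
        simp only [h2, h3, if_false]
        exact hlt i (by omega)
    · intro i hi
      by_cases h1 : i = c + 1
      · simp only [h1, if_true]
        exact ⟨a, ha, hd, hne⟩
      · simp only [h1, if_false]
        exact hch i (by omega)

/-- **The chain of degrees.** -/
theorem Fib.chain (c : ℕ) : ∀ n : ℤ, NZ BB c n → ∃ l : ℕ → ℤ, l c ≤ n ∧
    (∀ i < c, l i < l (i + 1)) ∧ ∀ i ≤ c, ∃ a ∈ BA.gr (l i), BA.d a = 0 ∧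
      ∀ w, BB.d w ≠ π a :=
  F.chainX (Pw BB) (fun j n z hz => (Pw_coc BB j n z hz).1) (fun j n z hz => F.Pw_rel j n z hz)
    (fun _ _ hz => NZ_step BB hz) c

end

end Pool.Agent.H14.HF
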