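import Pool.Agent.H14.HF.Statement

/-! Differentials of homogeneous word length: the definition used by the hand-in. -/

namespace Pool.Agent.H14.HFStatement

open Pool.Agent.H68.Sullivan

universe u

variable {K : Type u} [Field K] {q m : ℕ}

/-- The differential `d` of `ΛW` maps every generator into the elements of word length `k`. For
`k = 2` this is the condition that `(ΛW, d)` is the minimal model of a coformal space (with
`d` purely quadratic). -/
def IsHomog (deg : Fin q ⊕ Fin m → ℕ) (k : ℕ) (d : Lam K q m →ₗ[K] Lam K q m) : Prop :=
  ∀ v, d (gen K q m v) ∈ comp K deg (deg v + 1) k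

end Pool.Agent.H14.HFStatement
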