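import Pool.Agent.H91.Hil.Desc

/-!
# Hilali: the top class lies in the `dim V^odd`-th power of the augmentation ideal
-/

namespace Pool.Agent.H14.HF

open Pool.Agent.H91.Hil

universe u v

variable {K : Type v} {A : Type u} [Field K] [CharZero K] [Ring A] [Algebra K A]

theorem desc_fam (B : Base K A) (r : ℕ) (hr : Chain B r B.gr) (Y : ℕ → ℤ → Submodule K A)
    (hY0 : ∀ q, B.gr q ≤ Y 0 q) (hYle : ∀ i q, Y i q ≤ B.gr q)
    (hYm : ∀ i, ∀ a q, ∀ x ∈ B.gp a, ∀ y ∈ Y i q, x * y ∈ Y (i + 1) (a + q)) (k : ℕ) :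
    ∀ (j : ℕ) (R : Type u) [Ring R] [Algebra K R] (st : Stage B j R), j + k = B.n →
      ∃ (M : ℤ) (z : R), Top st.D (st.F B.gr) M z ∧
          ∃ f ∈ st.F (Y (B.odd j)) M, ∃ w ∈ st.F B.gr (M - 1), z = f + st.D w := by
  induction k with
  | zero =>
    intro j R _ _ st hj
    refine ⟨0, 1, ⟨st.one_mem, st.D_one, st.one_not_bdry, ?_⟩, 1, ?_, 0,
      Submodule.zero_mem _, ?_⟩
    · intro p hp x hx hDx
      have h1 : st.ρ x ∈ B.I j := by
        have h2 := B.I_top p hp _ (st.ρ_mem _ _ _ hx)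
        rw [add_zero] at hj
        rwa [← hj] at h2
      obtain ⟨w, hw, _, h⟩ := st.acyN p x hx h1 hDx
      exact ⟨w, hw, h⟩
    · have h0 : B.odd j = 0 := by
        rw [add_zero] at hj
        unfold Base.odd
        rw [hj]
        simp
      rw [h0]
      exact st.F_mono _ _ hY0 _ st.one_mem
    · rw [map_zero, add_zero]
  | succ k ih =>
    intro j R _ _ st hjk
    have hj : j < B.n := by omega
    obtain ⟨u, hu⟩ := st.exists_next hj
    obtain ⟨e, he⟩ : ∃ e, B.dg j = e + 1 := ⟨B.dg j - 1, by ring⟩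
    rcases Int.even_or_odd (B.dg j) with ho | ho
    · -- even generator
      have he0 := ExtOd.pos_e he hj
      obtain ⟨M, z, htop, f, hf, w, hw, hz⟩ :=
        ih (j + 1) (OE st.α) (ExtOd.ext st hu he ho hj) (by omega)
      have htop' : Top (oD st.α st.D u) (ow st.α e (st.F B.gr)) M z := htop
      have hf' : f ∈ ow st.α e (st.F (Y (B.odd (j + 1)))) M := hf
      have hw' : w ∈ ow st.α e (st.F B.gr) (M - 1) := hw
      have hz' : z = f + oD st.α st.D u w := hz
      refine ⟨M - e, z.c1, ?_, f.c1, ?_, -w.c1, ?_, ?_⟩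
      · refine Cx.nonvan u e (by omega) (ExtOd.u_mul_gr hu he) (ExtOd.D_u_mul hu ho) ⟨r, ?_⟩ htop'
        intro p y hy hDy
        have h1 := st.nil hu.mem_gp (ExtOd.D_u_mul hu ho) r B.gr hr p y hy hDy
        rwa [he] at h1
      · rw [B.odd_of_even hj ho]
        exact hf'.2
      · have h1 := hw'.2
        have e1 : M - 1 - e = M - e - 1 := by ring
        rw [e1] at h1
        exact Submodule.neg_mem _ h1
      · have h1 := congrArg OE.c1 hz'
        rw [OE.c1_add, c1_oD] at h1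
        rw [h1, map_neg]
    · -- odd generator
      have he0 := ExtEv.pos_e he ho hj
      obtain ⟨M, z, htop, f, hf, w, hw, hz⟩ :=
        ih (j + 1) (PowerSeries R) (ExtEv.ext st hu he ho hj) (by omega)
      have htop' : Top (pD st.D u) (pw e (st.F B.gr)) M z := htop
      have hf' : f ∈ pw e (st.F (Y (B.odd (j + 1)))) M := hf
      have hw' : w ∈ pw e (st.F B.gr) (M - 1) := hw
      have hz' : z = f + pD st.D u w := hz
      have h2 := hf' 0
      have e1 : M - ((0 : ℕ) : ℤ) * e = M := by push_cast; ring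
      rw [e1] at h2
      have h3 := st.mul_mem B.gp (Y (B.odd (j + 1))) (Y (B.odd (j + 1) + 1)) B.gp_le
        (hYm (B.odd (j + 1))) _ _ _ hu.mem_gp _ h2
      have e2 : B.dg j + M = M + e + 1 := by rw [he]; ring
      rw [e2] at h3
      refine ⟨M + e + 1, u * PowerSeries.coeff 0 z, ?_, u * PowerSeries.coeff 0 f, ?_,
        -(u * PowerSeries.coeff 0 w), ?_, ?_⟩
      · exact Cx.top_ev u e he0 (ExtEv.u_mul_gr hu he) (ExtEv.u_sq hu ho)
          (ExtEv.D_u_mul hu ho) htop'
      · rw [B.odd_of_odd hj ho]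
        exact h3
      · have h4 := hw' 0
        have e3 : M - 1 - ((0 : ℕ) : ℤ) * e = M - 1 := by push_cast; ring
        rw [e3] at h4
        have h5 := ExtEv.u_mul_gr hu he _ _ h4
        have e4 : M - 1 + e + 1 = M + e + 1 - 1 := by ring
        rw [e4] at h5
        exact Submodule.neg_mem _ h5
      · rw [map_neg, ExtEv.D_u_mul hu ho, neg_neg]
        have h4 : u * PowerSeries.coeff 0 (pD st.D u w) =
            u * st.D (PowerSeries.coeff 0 w) := by
          rw [coeff_pD, mul_add, mul_smul_comm, ← mul_assoc, ExtEv.u_sq hu ho, zero_mul,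
            smul_zero, add_zero]
        rw [← h4, ← mul_add, hz', map_add]

/-- **Theorem.** The top class is represented in `Y (dim V^odd)`. -/
theorem top_fam (B : Base K A) (r : ℕ) (hr : Chain B r B.gr) (Y : ℕ → ℤ → Submodule K A)
    (hY0 : ∀ q, B.gr q ≤ Y 0 q) (hYle : ∀ i q, Y i q ≤ B.gr q)
    (hYm : ∀ i, ∀ a q, ∀ x ∈ B.gp a, ∀ y ∈ Y i q, x * y ∈ Y (i + 1) (a + q)) :
    ∃ M : ℤ, ∃ f ∈ Y (B.odd 0) M, B.d f = 0 ∧ ∀ w, B.d w ≠ f := by
  obtain ⟨M, z, htop, f, hf, w, hw, hz⟩ :=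
    desc_fam B r hr Y hY0 hYle hYm B.n 0 A (Stage.zero B) (zero_add _)
  have hf' : f ∈ Y (B.odd 0) M := hf
  have hz' : z = f + B.d w := hz
  refine ⟨M, f, hf', ?_, ?_⟩
  · have h1 : B.d z = 0 := htop.2.1
    rw [hz', map_add, B.d_sq, add_zero] at h1
    exact h1
  · intro w' hw1
    have h2 : B.d (B.π (M - 1) w') = f := by
      have h3 := B.π_d (M - 1) w'
      rw [sub_add_cancel, hw1, B.π_self M f (hYle _ _ hf')] at h3
      exact h3.symm
    refine htop.2.2.1 (B.π (M - 1) w' + w) (Submodule.add_mem _ (B.π_mem _ _) hw) ?_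
    change B.d (B.π (M - 1) w' + w) = z
    rw [map_add, h2, ← hz']

end Pool.Agent.H14.HF
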