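import Pool.Agent.H91.Hil.Desc

/-!
# Hilali: for a differential of homogeneous word length the lowest degrees of the Toomer
# filtration increase strictly
-/

namespace Pool.Agent.H14.HF

open Pool.Agent.H91.Hil

universe u v

variable {K : Type v} {A : Type u} [Field K] [CharZero K] [Ring A] [Algebra K A]

/-- The filtration `L p` by word length; `T r` is the projection to the words of length at least
`r`; the differential raises the word length by exactly `κ + 1`. -/
structure WL (B : Base K A) (κ : ℕ) where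
  L : ℕ → Submodule K A
  T : ℕ → A →ₗ[K] A
  L_zero : ∀ a, a ∈ L 0
  L_anti : ∀ p, ∀ a ∈ L (p + 1), a ∈ L p
  L_mul : ∀ p r, ∀ a ∈ L p, ∀ b ∈ L r, a * b ∈ L (p + r)
  L_pos : ∀ p, 0 < p → ∀ a ∈ B.gr p, a ∈ L 1
  L_top : ∀ a ∈ L 1, a ∈ B.I B.n
  L_d : ∀ p, ∀ a ∈ L p, B.d a ∈ L (p + (κ + 1))
  L_dec : ∀ i < B.n, ∀ p n, ∀ x ∈ B.gr n, x ∈ L (p + 1) → x ∈ B.I (i + 1) →
    ∃ c ∈ B.gr (n - B.dg i), c ∈ L p ∧ x - B.v i * c ∈ B.I i
  T_mem : ∀ r a, T r a ∈ L r
  T_self : ∀ r, ∀ a ∈ L r, T r a = a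
  T_I : ∀ r j, ∀ a ∈ B.I j, T r a ∈ B.I j
  T_gr : ∀ r n, ∀ a ∈ B.gr n, T r a ∈ B.gr n
  T_d : ∀ r a, T (r + (κ + 1)) (B.d a) = B.d (T r a)

/-- Every cocycle modulo `I j` of word length at least `p` and degree less than `n` is a boundary
modulo `I j`. -/
def WL.P {B : Base K A} {κ : ℕ} (W : WL B κ) (j p : ℕ) (n : ℤ) : Prop :=
  ∀ q < n, ∀ z ∈ B.gr q, z ∈ W.L p → B.d z ∈ B.I j → ∃ w ∈ B.gr (q - 1), z - B.d w ∈ B.I j

variable {B : Base K A} {κ : ℕ} (W : WL B κ)
include W

theorem WL.anti {p r : ℕ} (h : p ≤ r) {a : A} (ha : a ∈ W.L r) : a ∈ W.L p := by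
  induction r, h using Nat.le_induction with
  | base => exact ha
  | succ r _ ih => exact ih (W.L_anti r a ha)

theorem WL.trim {j p : ℕ} {n : ℤ} {z w : A} (hz : z ∈ W.L p) (hw : w ∈ B.gr n)
    (h : z - B.d w ∈ B.I j) : ∃ w' ∈ B.gr n, w' ∈ W.L (p - (κ + 1)) ∧ z - B.d w' ∈ B.I j := by
  by_cases hp : κ + 1 ≤ p
  · refine ⟨W.T (p - (κ + 1)) w, W.T_gr _ _ w hw, W.T_mem _ w, ?_⟩
    rw [← W.T_d, Nat.sub_add_cancel hp]
    nth_rewrite 1 [← W.T_self p z hz]
    rw [← map_sub]
    exact W.T_I _ _ _ h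
  · refine ⟨w, hw, ?_, h⟩
    have h1 : p - (κ + 1) = 0 := by omega
    rw [h1]
    exact W.L_zero w

omit W in
theorem v_sq {i : ℕ} (hi : i < B.n) (ho : Odd (B.dg i)) : B.v i * B.v i = 0 := by
  have h1 := B.gc_od _ ho _ (B.v_mem i hi) (B.v i)
  rw [B.α_od _ ho _ (B.v_mem i hi), neg_mul] at h1
  have h2 : (2 : K) • (B.v i * B.v i) = 0 := by
    rw [two_smul]
    nth_rewrite 1 [h1]
    exact neg_add_cancel _
  exact (smul_eq_zero.mp h2).resolve_left two_ne_zero

omit W in
theorem v_mul_I {i : ℕ} (hi : i < B.n) (ho : Odd (B.dg i)) {n : ℤ} {x : A} (hx : x ∈ B.gr n)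
    (hxI : x ∈ B.I (i + 1)) : B.v i * x ∈ B.I i := by
  obtain ⟨c, -, hc⟩ := B.I_dec i hi n x hx hxI
  have h1 := B.I_left i (B.v i) _ hc
  rwa [mul_sub, ← mul_assoc, v_sq hi ho, zero_mul, sub_zero] at h1

omit [CharZero K] W in
theorem d_v_even {i : ℕ} (hi : i < B.n) (he : Even (B.dg i)) (x : A) :
    B.d (B.v i * x) = B.d (B.v i) * x + B.v i * B.d x := by
  rw [B.d_mul, B.α_ev _ he _ (B.v_mem i hi)]

omit [CharZero K] W in
theorem d_v_odd {i : ℕ} (hi : i < B.n) (ho : Odd (B.dg i)) (x : A) :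
    B.d (B.v i * x) = B.d (B.v i) * x - B.v i * B.d x := by
  rw [B.d_mul, B.α_od _ ho _ (B.v_mem i hi), neg_mul, sub_eq_add_neg]

theorem WL.v_mul {i : ℕ} (hi : i < B.n) {p : ℕ} {e : A} (he : e ∈ W.L (p - 1)) :
    B.v i * e ∈ W.L p := by
  have h1 := B.two_le i hi
  have h2 := W.L_mul _ _ _ (W.L_pos _ (by omega) _ (B.v_mem i hi)) e he
  exact W.anti (by omega) h2

/-- Going to the quotient by one more generator. -/
theorem WL.up {j p : ℕ} {n : ℤ} (hj : j < B.n) (h : W.P j p n) : W.P (j + 1) p n := by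
  have h2 := B.two_le j hj
  have key : ∀ N0 : ℕ, ∀ q : ℤ, q < N0 → q < n → ∀ z ∈ B.gr q, z ∈ W.L p →
      B.d z ∈ B.I (j + 1) → ∃ w ∈ B.gr (q - 1), z - B.d w ∈ B.I (j + 1) := by
    intro N0
    induction N0 with
    | zero =>
      intro q hq _ z hz _ _
      rw [B.gr_neg q (by exact_mod_cast hq), Submodule.mem_bot] at hz
      refine ⟨0, Submodule.zero_mem _, ?_⟩
      rw [hz, map_zero, sub_zero]
      exact Submodule.zero_mem _
    | succ N0 ih =>
      intro q hq hqn z hz hzL hdz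
      obtain ⟨c, hc, hcL, hci⟩ := W.L_dec j hj (p + κ) (q + 1) (B.d z) (B.d_mem q z hz)
        (W.L_d p z hzL) hdz
      have h3 : B.d (B.v j * c) ∈ B.I j := by
        have h4 := B.I_d j hj.le _ hci
        rw [map_sub, B.d_sq, zero_sub] at h4
        exact (Submodule.neg_mem_iff _).mp h4
      have h5 : B.d (B.v j) * c ∈ B.I j := B.I_right j c _ (B.dv_mem j hj)
      have hcL' : c ∈ W.L p := W.anti (by omega) hcL
      rcases Int.even_or_odd (B.dg j) with ho | ho
      · rw [d_v_even hj ho] at h3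
        have h6 : B.v j * B.d c ∈ B.I j := by
          have h7 := Submodule.sub_mem _ h3 h5
          rwa [add_sub_cancel_left] at h7
        have h7 : B.d c ∈ B.I j := B.reg_ev j hj ho _ _ (B.d_mem _ c hc) h6
        obtain ⟨e0, he0, he0'⟩ := h (q + 1 - B.dg j) (by omega) c hc hcL' h7
        obtain ⟨e, he, heL, he'⟩ := W.trim hcL he0 he0'
        have heL' : e ∈ W.L (p - 1) := W.anti (by omega) heL
        have hve : B.v j * e ∈ B.gr q := by
          have h8 := B.mul_mem _ _ _ (B.v_mem j hj) e he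
          have e1 : B.dg j + (q + 1 - B.dg j - 1) = q := by ring
          rwa [e1] at h8
        have hd : B.d (z - B.v j * e) ∈ B.I j := by
          have e1 : B.d (z - B.v j * e) =
              (B.d z - B.v j * c) + B.v j * (c - B.d e) - B.d (B.v j) * e := by
            rw [map_sub, d_v_even hj ho, mul_sub]
            abel
          rw [e1]
          exact Submodule.sub_mem _ (Submodule.add_mem _ hci (B.I_left j _ _ he'))
            (B.I_right j e _ (B.dv_mem j hj))
        obtain ⟨w, hw, hw'⟩ := h q hqn (z - B.v j * e) (Submodule.sub_mem _ hz hve)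
          (Submodule.sub_mem _ hzL (W.v_mul hj heL')) hd
        refine ⟨w, hw, ?_⟩
        have e1 : z - B.d w = (z - B.v j * e - B.d w) + B.v j * e := by abel
        rw [e1]
        exact Submodule.add_mem _ (B.I_mono j _ hw') (B.I_right _ _ _ (B.v_mem_I j hj))
      · rw [d_v_odd hj ho] at h3
        have h6 : B.v j * B.d c ∈ B.I j := by
          have h7 := Submodule.sub_mem _ h5 h3
          rwa [sub_sub_cancel] at h7
        have h7 : B.d c ∈ B.I (j + 1) := by
          obtain ⟨c1, -, hc1⟩ := B.reg_od j hj ho _ _ (B.d_mem _ c hc) h6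
          have e1 : B.d c = (B.d c - B.v j * c1) + B.v j * c1 := by abel
          rw [e1]
          exact Submodule.add_mem _ (B.I_mono j _ hc1) (B.I_right _ _ _ (B.v_mem_I j hj))
        obtain ⟨e0, he0, he0'⟩ := ih (q + 1 - B.dg j) (by push_cast at hq; omega) (by omega) c hc
          hcL' h7
        obtain ⟨e, he, heL, he'⟩ := W.trim hcL he0 he0'
        have heL' : e ∈ W.L (p - 1) := W.anti (by omega) heL
        have hve : B.v j * e ∈ B.gr q := by
          have h8 := B.mul_mem _ _ _ (B.v_mem j hj) e he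
          have e1 : B.dg j + (q + 1 - B.dg j - 1) = q := by ring
          rwa [e1] at h8
        have hcd : c - B.d e ∈ B.gr (q + 1 - B.dg j) := by
          have h8 := B.d_mem _ e he
          rw [sub_add_cancel] at h8
          exact Submodule.sub_mem _ hc h8
        have hd : B.d (z + B.v j * e) ∈ B.I j := by
          have e1 : B.d (z + B.v j * e) =
              (B.d z - B.v j * c) + B.v j * (c - B.d e) + B.d (B.v j) * e := by
            rw [map_add, d_v_odd hj ho, mul_sub]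
            abel
          rw [e1]
          exact Submodule.add_mem _ (Submodule.add_mem _ hci (v_mul_I hj ho hcd he'))
            (B.I_right j e _ (B.dv_mem j hj))
        obtain ⟨w, hw, hw'⟩ := h q hqn (z + B.v j * e) (Submodule.add_mem _ hz hve)
          (Submodule.add_mem _ hzL (W.v_mul hj heL')) hd
        refine ⟨w, hw, ?_⟩
        have e1 : z - B.d w = (z + B.v j * e - B.d w) - B.v j * e := by abel
        rw [e1]
        exact Submodule.sub_mem _ (B.I_mono j _ hw') (B.I_right _ _ _ (B.v_mem_I j hj))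
  intro q hq z hz hzL hdz
  exact key (q.toNat + 1) q (by have := Int.self_le_toNat q; push_cast; omega) hq z hz hzL hdz

/-- Going back from the quotient by one more generator. -/
theorem WL.down {j p : ℕ} {n : ℤ} (hj : j < B.n) (h : W.P j p n) (h' : W.P (j + 1) p n)
    (h'' : W.P (j + 1) (p + 1) (n + 1)) : W.P j (p + 1) (n + 1) := by
  intro q hq z hz hzL hdz
  have h2 := B.two_le j hj
  obtain ⟨w0, hw0, hw0'⟩ := h'' q hq z hz hzL (B.I_mono j _ hdz)
  obtain ⟨w, hw, hwL, hw'⟩ := W.trim hzL hw0 hw0'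
  have hxg : z - B.d w ∈ B.gr q := by
    have h3 := B.d_mem _ w hw
    rw [sub_add_cancel] at h3
    exact Submodule.sub_mem _ hz h3
  have hxL : z - B.d w ∈ W.L (p + 1) :=
    Submodule.sub_mem _ hzL (W.anti (by omega) (W.L_d _ w hwL))
  obtain ⟨c, hc, hcL, hci⟩ := W.L_dec j hj p q _ hxg hxL hw'
  have h3 : B.d (B.v j * c) ∈ B.I j := by
    have h4 := B.I_d j hj.le _ hci
    rw [map_sub, map_sub, B.d_sq, sub_zero] at h4
    have h5 := Submodule.sub_mem _ hdz h4
    rwa [sub_sub_cancel] at h5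
  have h5 : B.d (B.v j) * c ∈ B.I j := B.I_right j c _ (B.dv_mem j hj)
  rcases Int.even_or_odd (B.dg j) with ho | ho
  · rw [d_v_even hj ho] at h3
    have h6 : B.v j * B.d c ∈ B.I j := by
      have h7 := Submodule.sub_mem _ h3 h5
      rwa [add_sub_cancel_left] at h7
    have h7 : B.d c ∈ B.I j := B.reg_ev j hj ho _ _ (B.d_mem _ c hc) h6
    obtain ⟨e, he, he'⟩ := h (q - B.dg j) (by omega) c hc hcL h7
    refine ⟨w + B.v j * e, Submodule.add_mem _ hw ?_, ?_⟩
    · have h8 := B.mul_mem _ _ _ (B.v_mem j hj) e he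
      have e1 : B.dg j + (q - B.dg j - 1) = q - 1 := by ring
      rwa [e1] at h8
    · have e1 : z - B.d (w + B.v j * e) =
          (z - B.d w - B.v j * c) + B.v j * (c - B.d e) - B.d (B.v j) * e := by
        rw [map_add, d_v_even hj ho, mul_sub]
        abel
      rw [e1]
      exact Submodule.sub_mem _ (Submodule.add_mem _ hci (B.I_left j _ _ he'))
        (B.I_right j e _ (B.dv_mem j hj))
  · rw [d_v_odd hj ho] at h3
    have h6 : B.v j * B.d c ∈ B.I j := by
      have h7 := Submodule.sub_mem _ h5 h3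
      rwa [sub_sub_cancel] at h7
    have h7 : B.d c ∈ B.I (j + 1) := by
      obtain ⟨c1, -, hc1⟩ := B.reg_od j hj ho _ _ (B.d_mem _ c hc) h6
      have e1 : B.d c = (B.d c - B.v j * c1) + B.v j * c1 := by abel
      rw [e1]
      exact Submodule.add_mem _ (B.I_mono j _ hc1) (B.I_right _ _ _ (B.v_mem_I j hj))
    obtain ⟨e, he, he'⟩ := h' (q - B.dg j) (by omega) c hc hcL h7
    have hcd : c - B.d e ∈ B.gr (q - B.dg j) := by
      have h8 := B.d_mem _ e he
      rw [sub_add_cancel] at h8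
      exact Submodule.sub_mem _ hc h8
    refine ⟨w - B.v j * e, Submodule.sub_mem _ hw ?_, ?_⟩
    · have h8 := B.mul_mem _ _ _ (B.v_mem j hj) e he
      have e1 : B.dg j + (q - B.dg j - 1) = q - 1 := by ring
      rwa [e1] at h8
    · have e1 : z - B.d (w - B.v j * e) =
          (z - B.d w - B.v j * c) + B.v j * (c - B.d e) + B.d (B.v j) * e := by
        rw [map_sub, d_v_odd hj ho, mul_sub]
        abel
      rw [e1]
      exact Submodule.add_mem _ (Submodule.add_mem _ hci (v_mul_I hj ho hcd he'))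
        (B.I_right j e _ (B.dv_mem j hj))

theorem WL.top (p : ℕ) (n : ℤ) : W.P B.n (p + 1) n := by
  intro q _ z _ hzL _
  refine ⟨0, Submodule.zero_mem _, ?_⟩
  rw [map_zero, sub_zero]
  exact W.L_top z (W.anti (by omega) hzL)

/-- **Strictness.** -/
theorem WL.strict (p : ℕ) (n : ℤ) (k : ℕ) : ∀ j, j + k = B.n → W.P j p n →
    W.P j (p + 1) (n + 1) := by
  induction k with
  | zero =>
    intro j hj _
    rw [add_zero] at hj
    rw [hj]
    exact W.top p (n + 1)
  | succ k ih =>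
    intro j hj h
    have hjn : j < B.n := by omega
    have h' := W.up hjn h
    exact W.down hjn h h' (ih (j + 1) (by omega) h')

/-- some cocycle of word length at least `p` and degree `n` is not a boundary -/
def WL.NZ (p : ℕ) (n : ℤ) : Prop :=
  ∃ z ∈ W.L p ⊓ B.gr n ⊓ LinearMap.ker B.d, ∀ w, B.d w ≠ z

theorem WL.NZ_step {p : ℕ} {n : ℤ} (h : W.NZ (p + 1) n) : ∃ n' < n, W.NZ p n' := by
  by_contra hcon
  push Not at hcon
  have hb : ∀ q : ℤ, ∀ z ∈ B.gr q, (∃ w, B.d w = z) → ∃ w ∈ B.gr (q - 1), z - B.d w = 0 := by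
    rintro q z hz ⟨w, rfl⟩
    refine ⟨B.π (q - 1) w, B.π_mem _ _, ?_⟩
    have h3 := B.π_d (q - 1) w
    rw [sub_add_cancel] at h3
    rw [← h3, B.π_self _ _ hz, sub_self]
  have h1 : W.P 0 p n := by
    intro q hq z hz hzL hdz
    rw [B.I_zero, Submodule.mem_bot] at hdz
    have h2 : ∃ w, B.d w = z := by
      by_contra h3
      exact hcon q hq ⟨z, ⟨⟨hzL, hz⟩, hdz⟩, fun w hw => h3 ⟨w, hw⟩⟩
    obtain ⟨w, hw, hw'⟩ := hb q z hz h2
    exact ⟨w, hw, by rw [hw']; exact Submodule.zero_mem _⟩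
  have h2 := W.strict p n B.n 0 (by omega) h1
  obtain ⟨z, ⟨⟨hzL, hz⟩, hdz⟩, hne⟩ := h
  obtain ⟨w, hw, hw'⟩ := h2 n (by omega) z hz hzL (by
    rw [LinearMap.mem_ker.mp hdz]; exact Submodule.zero_mem _)
  rw [B.I_zero, Submodule.mem_bot] at hw'
  exact hne w (sub_eq_zero.mp hw').symm

end Pool.Agent.H14.HF
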