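import Pool.Agent.H14.HF.Mon
import Pool.Agent.H14.HF.Strict

/-!
# Hilali: the word length filtration of `ΛV`
-/

namespace Pool.Agent.H14.HF

open Pool.Agent.H91.Hil Pool.Agent.H91.Hil.LamBase Pool.Agent.H68.Hil

universe u v

variable {K : Type v} {A : Type u} [Field K] [Ring A] [Algebra K A] {q m : ℕ}
  {g : Fin q ⊕ Fin m → A} {b : Module.Basis (Ix q m) K A} {deg : Fin q ⊕ Fin m → ℕ}
  {d : A →ₗ[K] A}

/-- the projection to the words of length at least `r` -/
noncomputable def tr (b : Module.Basis (Ix q m) K A) (r : ℕ) : A →ₗ[K] A :=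
  b.constr K (fun s => if r ≤ wl s then b s else 0)

theorem tr_bas (r : ℕ) (s : Ix q m) : tr b r (b s) = if r ≤ wl s then b s else 0 := by
  rw [tr, Module.Basis.constr_basis]

theorem tr_cs (r : ℕ) {S : Set (Ix q m)} {a : A} (ha : a ∈ cs b S) : tr b r a ∈ cs b S := by
  apply cs_ind (P := fun a => tr b r a ∈ cs b S) _ _ _ _ ha
  · rw [map_zero]; exact Submodule.zero_mem _
  · intro x y h1 h2; rw [map_add]; exact Submodule.add_mem _ h1 h2
  · intro c x h1; rw [map_smul]; exact Submodule.smul_mem _ _ h1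
  · intro s hs
    rw [tr_bas]
    split_ifs
    · exact bas_mem hs
    · exact Submodule.zero_mem _

theorem tr_mem (r : ℕ) (a : A) : tr b r a ∈ cs b {s | r ≤ wl s} := by
  apply cs_ind (P := fun a => tr b r a ∈ cs b {s | r ≤ wl s}) _ _ _ _ (mem_univ_cs (b := b) a)
  · rw [map_zero]; exact Submodule.zero_mem _
  · intro x y h1 h2; rw [map_add]; exact Submodule.add_mem _ h1 h2
  · intro c x h1; rw [map_smul]; exact Submodule.smul_mem _ _ h1
  · intro s _
    rw [tr_bas]
    split_ifs with h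
    · exact bas_mem h
    · exact Submodule.zero_mem _

theorem tr_self (r : ℕ) {a : A} (ha : a ∈ cs b {s | r ≤ wl s}) : tr b r a = a := by
  apply cs_ind (P := fun a => tr b r a = a) _ _ _ _ ha
  · rw [map_zero]
  · intro x y h1 h2; rw [map_add, h1, h2]
  · intro c x h1; rw [map_smul, h1]
  · intro s hs
    have hs' : r ≤ wl s := hs
    rw [tr_bas, if_pos hs']

theorem tr_zero (r : ℕ) {a : A} (ha : a ∈ cs b {s | ¬ r ≤ wl s}) : tr b r a = 0 := by
  apply cs_ind (P := fun a => tr b r a = 0) _ _ _ _ ha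
  · rw [map_zero]
  · intro x y h1 h2; rw [map_add, h1, h2, add_zero]
  · intro c x h1; rw [map_smul, h1, smul_zero]
  · intro s hs
    have hs' : ¬ r ≤ wl s := hs
    rw [tr_bas, if_neg hs']

theorem tr_d {κ : ℕ} (hκ : ∀ s, d (b s) ∈ cs b {t | wl t = wl s + (κ + 1)}) (r : ℕ) (a : A) :
    tr b (r + (κ + 1)) (d a) = d (tr b r a) := by
  apply cs_ind (P := fun a => tr b (r + (κ + 1)) (d a) = d (tr b r a)) _ _ _ _
    (mem_univ_cs (b := b) a)
  · simp
  · intro x y h1 h2; rw [map_add, map_add, h1, h2, map_add, map_add]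
  · intro c x h1; rw [map_smul, map_smul, h1, map_smul, map_smul]
  · intro s _
    rw [tr_bas]
    split_ifs with h
    · refine tr_self _ (cs_mono ?_ (hκ s))
      intro t ht
      have ht' : wl t = wl s + (κ + 1) := ht
      change r + (κ + 1) ≤ wl t
      omega
    · rw [map_zero]
      refine tr_zero _ (cs_mono ?_ (hκ s))
      intro t ht
      have ht' : wl t = wl s + (κ + 1) := ht
      change ¬ (r + (κ + 1) ≤ wl t)
      omega

theorem wl_pos_of_dg {p : ℤ} (hp : 0 < p) {s : Ix q m} (hs : (dg deg s : ℤ) = p) : 1 ≤ wl s := by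
  by_contra h0
  have h1 : wl s = 0 := by omega
  unfold wl at h1
  simp only [Nat.add_eq_zero_iff, Finset.card_eq_zero, Finset.sum_eq_zero_iff, Finset.mem_univ,
    true_implies] at h1
  have : dg deg s = 0 := by
    unfold dg
    rw [h1.2]
    simp [h1.1]
  omega

theorem L_dec_aux (hb : IsMon g b) {N : ℕ} (σ : Fin N ≃ Fin q ⊕ Fin m) (i : Fin N) (p : ℕ)
    (n : ℤ) {x : A} (hx : x ∈ grd b deg n) (hxL : x ∈ cs b {s | p + 1 ≤ wl s})
    (hx' : x ∈ cs b (Si σ (i.1 + 1))) :
    ∃ c ∈ grd b deg (n - deg (σ i)), c ∈ cs b {s | p ≤ wl s} ∧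
      x - g (σ i) * c ∈ cs b (Si σ i.1) := by
  have h0 := cs_inf (cs_inf hx hxL) hx'
  apply cs_ind (P := fun x => ∃ c ∈ grd b deg (n - deg (σ i)), c ∈ cs b {s | p ≤ wl s} ∧
    x - g (σ i) * c ∈ cs b (Si σ i.1)) _ _ _ _ h0
  · exact ⟨0, Submodule.zero_mem _, Submodule.zero_mem _, by simp⟩
  · rintro x y ⟨c, hc, hcL, h1⟩ ⟨c', hc', hcL', h2⟩
    refine ⟨c + c', Submodule.add_mem _ hc hc', Submodule.add_mem _ hcL hcL', ?_⟩
    have : x + y - g (σ i) * (c + c') = (x - g (σ i) * c) + (y - g (σ i) * c') := by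
      rw [mul_add]; abel
    rw [this]
    exact Submodule.add_mem _ h1 h2
  · rintro r x ⟨c, hc, hcL, h1⟩
    refine ⟨r • c, Submodule.smul_mem _ _ hc, Submodule.smul_mem _ _ hcL, ?_⟩
    rw [mul_smul_comm, ← smul_sub]
    exact Submodule.smul_mem _ _ h1
  · rintro s ⟨⟨hs1, hsL⟩, k, hk, hk'⟩
    have hs1' : (dg deg s : ℤ) = n := hs1
    have hsL' : p + 1 ≤ wl s := hsL
    by_cases hki : k.1 < i.1
    · exact ⟨0, Submodule.zero_mem _, Submodule.zero_mem _,
        by rw [mul_zero, sub_zero]; exact bas_mem ⟨k, hki, hk'⟩⟩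
    · have hki' : k = i := by
        apply Fin.ext
        omega
      subst hki'
      obtain ⟨s', rfl, hs'⟩ := exists_up hk'
      have hs2 : b s' ∈ grd b deg (n - deg (σ k)) := by
        apply bas_mem
        change ((dg deg s' : ℕ) : ℤ) = n - deg (σ k)
        rw [dg_up deg hs'] at hs1'
        push_cast at hs1'
        omega
      have hs3 : b s' ∈ cs b {s : Ix q m | p ≤ wl s} := by
        apply bas_mem
        change p ≤ wl s'
        rw [wl_up hs'] at hsL'
        omega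
      rcases gen_mul_good hb hs' with h5 | h5
      · exact ⟨b s', hs2, hs3, by rw [h5, sub_self]; exact Submodule.zero_mem _⟩
      · exact ⟨-b s', Submodule.neg_mem _ hs2, Submodule.neg_mem _ hs3, by
          rw [mul_neg, h5, neg_neg, sub_self]; exact Submodule.zero_mem _⟩

/-- The word length filtration. -/
noncomputable def wlf (hb : IsMon g b) (hg : GC g) (hd : Mn K g deg d) {N : ℕ}
    (σ : Fin N ≃ Fin q ⊕ Fin m) (hσ : ∀ j k : Fin N, j ≤ k → deg (σ j) ≤ deg (σ k)) {κ : ℕ}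
    (hκ : ∀ s, d (b s) ∈ cs b {t | wl t = wl s + (κ + 1)}) : WL (mkBase hb hg hd σ hσ) κ where
  L p := cs b {s | p ≤ wl s}
  T := tr b
  L_zero := fun a => cs_mono (fun _ _ => Nat.zero_le _) (mem_univ_cs (b := b) a)
  L_anti := fun p a ha => cs_mono (fun s hs => by
    have hs' : p + 1 ≤ wl s := hs
    change p ≤ wl s
    omega) ha
  L_mul := fun p r x hx y hy => cs_mul hb (fun s hs s' hs' hd => by
    have h1 : p ≤ wl s := hs
    have h2 : r ≤ wl s' := hs'
    change p + r ≤ wl _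
    rw [wl_add hd]
    omega) hx hy
  L_pos := fun p hp a ha => cs_mono (fun s hs => wl_pos_of_dg hp hs) ha
  L_top := fun a ha => cs_mono (fun s hs => by
    have h1 : 1 ≤ wl s := hs
    obtain ⟨w, hw⟩ := exists_occ (p := s) (by omega)
    exact ⟨σ.symm w, (σ.symm w).2, by simpa using hw⟩) ha
  L_d := by
    intro p a ha
    apply cs_ind (P := fun a => d a ∈ cs b {s | p + (κ + 1) ≤ wl s}) _ _ _ _ ha
    · rw [map_zero]; exact Submodule.zero_mem _
    · intro x y h1 h2; rw [map_add]; exact Submodule.add_mem _ h1 h2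
    · intro c x h1; rw [map_smul]; exact Submodule.smul_mem _ _ h1
    · intro s hs
      refine cs_mono ?_ (hκ s)
      intro t ht
      have h1 : p ≤ wl s := hs
      have h2 : wl t = wl s + (κ + 1) := ht
      change p + (κ + 1) ≤ wl t
      omega
  L_dec := by
    intro i hi p n x hx hxL hxI
    have hi' : i < N := hi
    change ∃ c ∈ grd b deg (n - df deg σ i), c ∈ cs b {s | p ≤ wl s} ∧
      x - vf g σ i * c ∈ cs b (Si σ i)
    rw [vf, dif_pos hi', df, dif_pos hi']
    exact L_dec_aux hb σ ⟨i, hi'⟩ p n hx hxL hxI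
  T_mem := fun r a => tr_mem r a
  T_self := fun r a ha => tr_self r ha
  T_I := fun r j a ha => tr_cs r ha
  T_gr := fun r n a ha => tr_cs r ha
  T_d := fun r a => tr_d hκ r a

/-- differentials of homogeneous word length -/
theorem hom_bas (hb : IsMon g b) (hd : Mn K g deg d) {κ : ℕ}
    (hh : ∀ v, d (g v) ∈ cs b {t | wl t = κ + 2}) (s : Ix q m) :
    d (b s) ∈ cs b {t | wl t = wl s + (κ + 1)} := by
  apply mon_ind hb (P := fun s x => d x ∈ cs b {t | wl t = wl s + (κ + 1)})
  · rw [d_one hd]; exact Submodule.zero_mem _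
  · intro p x h; rw [map_neg]; exact Submodule.neg_mem _ h
  · intro v p x hv hx h
    rw [hd.leibniz (deg v) 1 _ _ (gen_mem_cmp g deg v)]
    apply Submodule.add_mem
    · apply cs_mul hb _ (hh v) (hx ▸ bas_mem (S := {p}) rfl)
      rintro t ht t' rfl hdis
      have ht' : wl t = κ + 2 := ht
      change wl _ = _
      rw [wl_add hdis, wl_up hv]
      omega
    · have h3 : g v * d x ∈ cs b {t | wl t = wl (up v p) + (κ + 1)} := by
        apply cs_mul hb _ (gen_mem_cs hb v) h
        rintro t rfl t' ht' hdis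
        have ht2 : wl t' = wl p + (κ + 1) := ht'
        change wl _ = _
        rw [wl_add hdis, wl_up hv, wl_gen]
        omega
      rcases neg_one_pow_eq_or A (deg v) with h4 | h4
      · rw [h4, one_mul]; exact h3
      · rw [h4, neg_one_mul]; exact Submodule.neg_mem _ h3

/-- the differential raises the word length -/
theorem d_wl (hb : IsMon g b) (hd : Mn K g deg d) {p : ℕ} {a : A}
    (ha : a ∈ cs b {s | p ≤ wl s}) : d a ∈ cs b {s | p + 1 ≤ wl s} := by
  apply cs_ind (P := fun a => d a ∈ cs b {s | p + 1 ≤ wl s}) _ _ _ _ ha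
  · rw [map_zero]; exact Submodule.zero_mem _
  · intro x y h1 h2; rw [map_add]; exact Submodule.add_mem _ h1 h2
  · intro c x h1; rw [map_smul]; exact Submodule.smul_mem _ _ h1
  · intro s hs
    have h1 : d (b s) ∈ cs b {t | wl s + 1 ≤ wl t} := by
      apply mon_ind hb (P := fun s x => d x ∈ cs b {t | wl s + 1 ≤ wl t})
      · rw [d_one hd]; exact Submodule.zero_mem _
      · intro p x h; rw [map_neg]; exact Submodule.neg_mem _ h
      · intro v p x hv hx h
        rw [hd.leibniz (deg v) 1 _ _ (gen_mem_cmp g deg v)]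
        apply Submodule.add_mem
        · apply cs_mul hb _ (d_gen hb hd v) (hx ▸ bas_mem (S := {p}) rfl)
          rintro t ⟨-, ht'⟩ t' rfl hdis
          change _ ≤ wl _
          rw [wl_add hdis, wl_up hv]
          omega
        · have h3 : g v * d x ∈ cs b {t | wl (up v p) + 1 ≤ wl t} := by
            apply cs_mul hb _ (gen_mem_cs hb v) h
            rintro t rfl t' ht' hdis
            have ht2 : wl p + 1 ≤ wl t' := ht'
            change _ ≤ wl _
            rw [wl_add hdis, wl_up hv, wl_gen]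
            omega
          rcases neg_one_pow_eq_or A (deg v) with h4 | h4
          · rw [h4, one_mul]; exact h3
          · rw [h4, neg_one_mul]; exact Submodule.neg_mem _ h3
    refine cs_mono ?_ h1
    intro t ht
    have h2 : p ≤ wl s := hs
    have h3 : wl s + 1 ≤ wl t := ht
    change p + 1 ≤ wl t
    omega

section fibre

variable {A' : Type u} [Ring A'] [Algebra K A'] {G : Fin q ⊕ Fin (m + 1) → A'}
  {bA : Module.Basis (Ix q (m + 1)) K A'} {π : A' →ₐ[K] A}

theorem wl_sc (s : Ix q m) : wl (sc s) = wl s := by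
  unfold wl
  simp only [sc, Finset.card_map]

theorem Prj.cs_map (h : Prj G g π) (hbA : IsMon G bA) (hb : IsMon g b)
    {S : Set (Ix q (m + 1))} {T : Set (Ix q m)} (hST : ∀ s, sc s ∈ S → s ∈ T) {a : A'}
    (ha : a ∈ cs bA S) : π a ∈ cs b T := by
  apply cs_ind (P := fun a => π a ∈ cs b T) _ _ _ _ ha
  · rw [map_zero]; exact Submodule.zero_mem _
  · intro x y hx hy; rw [map_add]; exact Submodule.add_mem _ hx hy
  · intro c x hx; rw [map_smul]; exact Submodule.smul_mem _ _ hx
  · intro s hs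
    rcases h.bas hbA hb s with ⟨-, h2⟩ | ⟨t, rfl, h2⟩
    · rw [h2]; exact Submodule.zero_mem _
    · have h3 : b t ∈ cs b T := bas_mem (hST t hs)
      rcases h2 with h2 | h2
      · rw [h2]; exact h3
      · rw [h2]; exact Submodule.neg_mem _ h3

/-- `θ` preserves the word length filtration. -/
theorem Prj.rel_wl (h : Prj G g π) (hbA : IsMon G bA) (hb : IsMon g b)
    {dg' : Fin q ⊕ Fin (m + 1) → ℕ} {D : A' →ₗ[K] A'} (hD : Mn K G dg' D)
    (hc : ∀ a, π (D a) = d (π a)) (p : ℕ) (n : ℤ) {z : A} (hz : z ∈ cs b {s | p ≤ wl s})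
    (hzn : z ∈ grd b (dgF dg') n) (hdz : d z = 0) :
    ∃ a ∈ grd bA dg' n, ∃ c ∈ grd bA dg' (n + 1 - dg' (Sum.inr 0)), π a = z ∧
      D a = G (Sum.inr 0) * c ∧ π c ∈ cs b {s | p ≤ wl s} := by
  have h0 := cs_inf hz hzn
  obtain ⟨a, ha, rfl⟩ := h.sur hbA hb (T := {s | p ≤ wl s ∧ (dg dg' s : ℤ) = n}) (by
    rintro s ⟨h1, h2⟩
    have h1' : p ≤ wl s := h1
    have h2' : (dg (dgF dg') s : ℤ) = n := h2
    refine ⟨?_, ?_⟩
    · rw [wl_sc]; exact h1'
    · rw [dg_sc]; exact h2') h0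
  have ha1 : a ∈ cs bA {s | p ≤ wl s} := cs_mono (fun s hs => hs.1) ha
  have ha2 : a ∈ grd bA dg' n := cs_mono (fun s hs => hs.2) ha
  have h1 := h.mem_cs_of hbA hb (a := D a) (by rw [hc, hdz])
  have h2 := cs_inf (cs_inf h1 (d_wl hbA hD ha1)) (d_mem hbA hD ha2)
  obtain ⟨c, hc1, hc2⟩ := exists_mul hbA
    (T := {s | p ≤ wl s ∧ (dg dg' s : ℤ) = n + 1 - dg' (Sum.inr 0)}) (by
    rintro s ⟨⟨h3, h4⟩, h5⟩
    refine ⟨h3, ?_⟩
    rintro s' rfl hs'
    have h4' : p + 1 ≤ wl (up (Sum.inr 0) s') := h4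
    have h5' : ((dg dg' (up (Sum.inr 0) s') : ℕ) : ℤ) = n + 1 := h5
    rw [wl_up hs'] at h4'
    rw [dg_up dg' hs'] at h5'
    push_cast at h5'
    refine ⟨by omega, by omega⟩) h2
  refine ⟨a, ha2, c, cs_mono (fun s hs => hs.2) hc1, rfl, hc2, ?_⟩
  refine h.cs_map hbA hb ?_ hc1
  rintro s ⟨h3, -⟩
  change p ≤ wl s
  rw [wl_sc] at h3
  exact h3

end fibre

end Pool.Agent.H14.HF
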