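import Pool.Agent.H14.HF.Dim
import Pool.Agent.H14.HF.Top
import Pool.Agent.H14.HF.Word
import Pool.Agent.H14.HF.StatementH

/-!
# Hilali: total spaces over odd spheres, fibres with a differential of homogeneous word length
-/

namespace Pool.Agent.H14.HF

open Pool.Agent.H68.Sullivan Pool.Agent.H91.Hil Pool.Agent.H91.Hil.LamBase
open Pool.Agent.H14.HFStatement Pool.Agent.H91.HilStatement

universe u

variable {K : Type u} [Field K] {q m : ℕ}

theorem finalH [CharZero K] (deg : Fin q ⊕ Fin (m + 1) → ℕ)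
    {d : Lam K q (m + 1) →ₗ[K] Lam K q (m + 1)}
    {dF : Lam K q m →ₗ[K] Lam K q m} {p : Lam K q (m + 1) →ₐ[K] Lam K q m} (h : IsFibre d dF p)
    (hd : IsMin deg d) (hfin : FiniteDimensional K (Coh dF)) (κ : ℕ)
    (hh : IsHomog (degF deg) (κ + 2) dF) :
    FiniteDimensional K (Coh d) ∧ 2 * (m + 1) ≤ Module.finrank K (Coh d) := by
  obtain ⟨hd', F⟩ := fib_of deg h hd
  have hP := prj_of h
  have hgen : ∀ v, dF (gen K q m v) ∈ cs (mon K q m) {t | Pool.Agent.H68.Hil.wl t = κ + 2} := by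
    intro v
    have h1 := hh v
    rw [comp_eq] at h1
    refine ((Pool.Agent.H68.Hil.cmp_le_span (isMon K q m) (degF deg) _ _).trans
      (Submodule.span_mono (Set.image_mono ?_))) h1
    rintro s ⟨-, h2⟩
    exact h2
  let W : WL (bs hd') κ := wlf (isMon K q m) (gc_gen K q m) hd' (ord (degF deg))
    (ord_mono (degF deg)) (hom_bas (isMon K q m) hd' hgen)
  obtain ⟨r, hr⟩ := exists_chain (bs hd') hfin
  obtain ⟨M, f, hf, hdf, hne⟩ := top_fam (bs hd') r hr (fun i n => W.L i ⊓ (bs hd').gr n)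
    (fun n a ha => ⟨W.L_zero a, ha⟩) (fun i n => inf_le_right) (by
      intro i a n x hx y hy
      refine ⟨?_, (bs hd').mul_mem _ _ _ ((bs hd').gp_le a hx) _ hy.2⟩
      by_cases ha : 0 < a
      · have h1 := W.L_mul 1 i x (W.L_pos a ha x ((bs hd').gp_le a hx)) y hy.1
        rwa [add_comm] at h1
      · rw [Base.gp_zero ha hx, zero_mul]
        exact Submodule.zero_mem _)
  have h1 : (bs hd').odd 0 = m := odd_mkBase (isMon K q m) (gc_gen K q m) hd' _ _
  rw [h1] at hf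
  obtain ⟨l, -, hl, hch⟩ := F.chainX
    (fun j n => W.L j ⊓ (bs hd').gr n ⊓ LinearMap.ker (bs hd').d)
    (fun j n z hz => hz.1.2) (by
      rintro j n z ⟨⟨hzL, hzn⟩, hdz⟩
      have hzn' : z ∈ grd (mon K q m) (dgF deg) n := by
        rw [← degF_eq]
        exact hzn
      obtain ⟨a, ha, c, hc, h2, h3, h4⟩ := hP.rel_wl (isMon K q (m + 1)) (isMon K q m) (mn_of hd)
        h.comm j n hzL hzn' hdz
      have hR : Rel (bs (mn_of hd)) p (genY K q (m + 1) 0) (deg (Sum.inr 0) : ℤ) n z (p c) :=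
        ⟨a, ha, c, hc, h2, h3, rfl⟩
      have h5 := F.rel_coc hR
      exact ⟨p c, ⟨⟨h4, h5.1⟩, h5.2⟩, hR⟩)
    (fun j n hz => W.NZ_step hz) m M ⟨f, ⟨hf, hdf⟩, hne⟩
  exact F.mainl hfin m l hl hch

end Pool.Agent.H14.HF
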