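import Pool.Agent.H14.HF.Two

/-!
# Hilali: total spaces over a product of two odd spheres (the two operators)
-/

namespace Pool.Agent.H14.HF

open Pool.Agent.H91.Hil
open Pool.Agent.H68.Sullivan (Coh)

variable {K C A B : Type*} [Field K] [Ring C] [Algebra K C] [Ring A] [Algebra K A] [Ring B]
  [Algebra K B]

/-- `C → A = C / (y₂) → B = A / (y₁)`, where `y₁` is the image of the closed element `t`. -/
structure Fib2 (BC : Base K C) (BA : Base K A) (BB : Base K B) (π₂ : C →ₐ[K] A) (π₁ : A →ₐ[K] B)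
    (y₂ : C) (y₁ : A) (t : C) (e₂ e₁ : ℤ) : Prop where
  F2 : Fib BC BA π₂ y₂ e₂
  F1 : Fib BA BB π₁ y₁ e₁
  t_mem : t ∈ BC.gr e₁
  t_V : t ∈ BC.V
  dt : BC.d t = 0
  tt : t * t = 0
  πt : π₂ t = y₁

/-- `z'` is a value of the derivation belonging to `y₂` on `z`. -/
def Rel2 (BC : Base K C) (π₂ : C →ₐ[K] A) (π₁ : A →ₐ[K] B) (y₂ t : C) (e₂ e₁ n : ℤ)
    (z z' : B) : Prop :=
  ∃ a ∈ BC.gr n, ∃ c ∈ BC.gr (n + 1 - e₂), ∃ u ∈ BC.gr (n + 1 - e₁), π₁ (π₂ a) = z ∧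
    BC.d a = y₂ * c + t * u ∧ π₁ (π₂ c) = z'

variable {BC : Base K C} {BA : Base K A} {BB : Base K B} {π₂ : C →ₐ[K] A} {π₁ : A →ₐ[K] B}
  {y₂ : C} {y₁ : A} {t : C} {e₂ e₁ : ℤ}

theorem Rel2.add {n : ℤ} {z z' w w' : B} (h : Rel2 BC π₂ π₁ y₂ t e₂ e₁ n z z')
    (h' : Rel2 BC π₂ π₁ y₂ t e₂ e₁ n w w') :
    Rel2 BC π₂ π₁ y₂ t e₂ e₁ n (z + w) (z' + w') := by
  obtain ⟨a, ha, c, hc, u, hu, h1, h2, h3⟩ := h
  obtain ⟨a', ha', c', hc', u', hu', h1', h2', h3'⟩ := h'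
  refine ⟨a + a', Submodule.add_mem _ ha ha', c + c', Submodule.add_mem _ hc hc',
    u + u', Submodule.add_mem _ hu hu', by rw [map_add, map_add, h1, h1'], ?_,
    by rw [map_add, map_add, h3, h3']⟩
  rw [map_add, h2, h2', mul_add, mul_add]
  abel

theorem Rel2.smul {n : ℤ} {z z' : B} (k : K) (h : Rel2 BC π₂ π₁ y₂ t e₂ e₁ n z z') :
    Rel2 BC π₂ π₁ y₂ t e₂ e₁ n (k • z) (k • z') := by
  obtain ⟨a, ha, c, hc, u, hu, h1, h2, h3⟩ := h
  exact ⟨k • a, Submodule.smul_mem _ k ha, k • c, Submodule.smul_mem _ k hc,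
    k • u, Submodule.smul_mem _ k hu, by rw [map_smul, map_smul, h1],
    by rw [map_smul, h2, mul_smul_comm, mul_smul_comm, smul_add],
    by rw [map_smul, map_smul, h3]⟩

theorem Rel2.zero {n : ℤ} : Rel2 BC π₂ π₁ y₂ t e₂ e₁ n 0 0 :=
  ⟨0, Submodule.zero_mem _, 0, Submodule.zero_mem _, 0, Submodule.zero_mem _,
    by rw [map_zero, map_zero], by rw [map_zero, mul_zero, mul_zero, add_zero],
    by rw [map_zero, map_zero]⟩

variable (F : Fib2 BC BA BB π₂ π₁ y₂ y₁ t e₂ e₁)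
include F

theorem Fib2.ty : t * y₂ = -(y₂ * t) := by
  rw [BC.gc_od e₂ F.F2.e_odd y₂ F.F2.y_mem t, BC.α_od e₁ F.F1.e_odd t F.t_mem, neg_mul, neg_neg]

theorem Fib2.d_t_mul (a : C) : BC.d (t * a) = -(t * BC.d a) := by
  rw [BC.d_mul, F.dt, zero_mul, zero_add, BC.α_od e₁ F.F1.e_odd t F.t_mem, neg_mul]

theorem Fib2.reg2 {c u : C} (h : y₂ * c + t * u = 0) : π₁ (π₂ c) = 0 := by
  have h1 : y₁ * π₂ u = 0 := by
    have h0 := congrArg π₂ h
    rw [map_add, map_mul, map_mul, F.F2.π_y, zero_mul, zero_add, F.πt, map_zero] at h0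
    exact h0
  have h2 := F.F1.reg _ h1
  obtain ⟨v, hv⟩ := F.F1.ker' _ h2
  obtain ⟨v', rfl⟩ := F.F2.sur' v
  obtain ⟨w, hw⟩ := F.F2.ker' (u - t * v') (by rw [map_sub, map_mul, F.πt, hv, sub_self])
  have h3 : t * u = -(y₂ * (t * w)) := by
    have hu : u = t * v' + y₂ * w := by rw [← hw]; abel
    rw [hu, mul_add, ← mul_assoc, F.tt, zero_mul, zero_add, ← mul_assoc, F.ty, neg_mul, mul_assoc]
  rw [h3, ← sub_eq_add_neg, ← mul_sub] at h
  have h4 := F.F2.reg _ h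
  rw [map_sub, map_mul, F.πt, sub_eq_zero] at h4
  rw [h4, map_mul, F.F1.π_y, zero_mul]

theorem Fib2.range {a c u : C} {w : B} (h : BC.d a = y₂ * c + t * u)
    (hw : BB.d w = π₁ (π₂ a)) : ∃ w', BB.d w' = π₁ (π₂ c) := by
  obtain ⟨w1, rfl⟩ := F.F1.sur' w
  obtain ⟨w2, rfl⟩ := F.F2.sur' w1
  have h1 : π₁ (π₂ (a - BC.d w2)) = 0 := by
    rw [map_sub, map_sub, F.F2.comm, F.F1.comm, hw, sub_self]
  obtain ⟨v, hv⟩ := F.F1.ker' _ h1
  obtain ⟨v', rfl⟩ := F.F2.sur' v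
  obtain ⟨x, hx⟩ := F.F2.ker' (a - BC.d w2 - t * v') (by
    rw [map_sub, hv, map_mul, F.πt, sub_self])
  have ha : a = BC.d w2 + t * v' + y₂ * x := by rw [← hx]; abel
  have h2 : y₂ * (c + BC.d x) + t * (u + BC.d v') = 0 := by
    have h3 := congrArg BC.d ha
    rw [h, map_add, map_add, BC.d_sq, zero_add, F.d_t_mul, F.F2.d_y_mul] at h3
    have h4 : y₂ * (c + BC.d x) + t * (u + BC.d v') =
        (y₂ * c + t * u) - (-(t * BC.d v') + -(y₂ * BC.d x)) := by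
      rw [mul_add, mul_add]
      abel
    rw [h4, h3, sub_self]
  have h4 := F.reg2 h2
  refine ⟨-(π₁ (π₂ x)), ?_⟩
  rw [map_add, map_add, F.F2.comm, F.F1.comm] at h4
  rw [map_neg, neg_eq_iff_add_eq_zero, add_comm]
  exact h4

theorem Fib2.rel_exists {n : ℤ} {z : B} (hz : z ∈ BB.gr n) (hd : BB.d z = 0) :
    ∃ z', Rel2 BC π₂ π₁ y₂ t e₂ e₁ n z z' := by
  obtain ⟨a1, ha1, h1⟩ := F.F1.sur n z hz
  obtain ⟨u1, hu1, h2⟩ := F.F1.ker (n + 1) (BA.d a1) (BA.d_mem n a1 ha1) (by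
    rw [F.F1.comm, h1, hd])
  obtain ⟨a, ha, h3⟩ := F.F2.sur n a1 ha1
  obtain ⟨u, hu, h4⟩ := F.F2.sur _ u1 hu1
  have h5 : t * u ∈ BC.gr (n + 1) := by
    have h6 := BC.mul_mem _ _ t F.t_mem u hu
    rwa [add_sub_cancel] at h6
  obtain ⟨c, hc, h6⟩ := F.F2.ker (n + 1) (BC.d a - t * u)
    (Submodule.sub_mem _ (BC.d_mem n a ha) h5) (by
      rw [map_sub, F.F2.comm, h3, map_mul, F.πt, h4, h2, sub_self])
  exact ⟨π₁ (π₂ c), a, ha, c, hc, u, hu, by rw [h3, h1], by rw [← h6]; abel, rfl⟩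

theorem Fib2.rel_coc {n : ℤ} {z z' : B} (h : Rel2 BC π₂ π₁ y₂ t e₂ e₁ n z z') :
    z' ∈ BB.gr (n + 1 - e₂) ∧ BB.d z' = 0 := by
  obtain ⟨a, ha, c, hc, u, hu, h1, h2, h3⟩ := h
  refine ⟨by rw [← h3]; exact F.F1.gr _ _ (F.F2.gr _ c hc), ?_⟩
  rw [← h3, ← F.F1.comm, ← F.F2.comm]
  apply F.reg2 (u := BC.d u)
  have h4 := BC.d_sq a
  rw [h2, map_add, F.F2.d_y_mul, F.d_t_mul, ← neg_add, neg_eq_zero] at h4
  exact h4

theorem Fib2.rel_mul {p n : ℤ} {b b' w w' : B} (h : Rel2 BC π₂ π₁ y₂ t e₂ e₁ p b b')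
    (h' : Rel2 BC π₂ π₁ y₂ t e₂ e₁ n w w') :
    Rel2 BC π₂ π₁ y₂ t e₂ e₁ (p + n) (b * w) (b' * w + b * w') := by
  obtain ⟨a1, ha1, c1, hc1, u1, hu1, h1, h2, h3⟩ := h
  obtain ⟨a2, ha2, c2, hc2, u2, hu2, h1', h2', h3'⟩ := h'
  refine ⟨a1 * a2, BC.mul_mem p n a1 ha1 a2 ha2, c1 * a2 + a1 * c2, ?_, u1 * a2 + a1 * u2, ?_,
    ?_, ?_, ?_⟩
  · refine Submodule.add_mem _ ?_ ?_
    · have h4 := BC.mul_mem _ _ c1 hc1 a2 ha2
      have e1 : p + 1 - e₂ + n = p + n + 1 - e₂ := by ring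
      rwa [e1] at h4
    · have h4 := BC.mul_mem _ _ a1 ha1 c2 hc2
      have e1 : p + (n + 1 - e₂) = p + n + 1 - e₂ := by ring
      rwa [e1] at h4
  · refine Submodule.add_mem _ ?_ ?_
    · have h4 := BC.mul_mem _ _ u1 hu1 a2 ha2
      have e1 : p + 1 - e₁ + n = p + n + 1 - e₁ := by ring
      rwa [e1] at h4
    · have h4 := BC.mul_mem _ _ a1 ha1 u2 hu2
      have e1 : p + (n + 1 - e₁) = p + n + 1 - e₁ := by ring
      rwa [e1] at h4
  · rw [map_mul, map_mul, h1, h1']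
  · have h4 : BC.α a1 * y₂ = y₂ * a1 := (BC.gc_od e₂ F.F2.e_odd y₂ F.F2.y_mem a1).symm
    have h5 : BC.α a1 * t = t * a1 := (BC.gc_od e₁ F.F1.e_odd t F.t_mem a1).symm
    rw [BC.d_mul, h2, h2', mul_add (BC.α a1), ← mul_assoc (BC.α a1), ← mul_assoc (BC.α a1), h4, h5,
      add_mul, mul_add, mul_add, mul_assoc, mul_assoc, mul_assoc, mul_assoc]
    abel
  · rw [map_add, map_add, map_mul, map_mul, map_mul, map_mul, h3, h1', h1, h3']

theorem Fib2.rel_pos {n : ℤ} {z z' : B} (h : Rel2 BC π₂ π₁ y₂ t e₂ e₁ n z z')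
    (hn : n + 1 - e₂ ≤ 0) : z' = 0 := by
  have hc := F.rel_coc h
  rcases lt_or_eq_of_le hn with hlt | heq
  · have h1 := hc.1
    rwa [BB.gr_neg _ hlt, Submodule.mem_bot] at h1
  · obtain ⟨a, ha, c, hc, u, hu, h1, h2, h3⟩ := h
    rw [heq] at hc
    obtain ⟨k, rfl⟩ := BC.gr_zero c hc
    have h4 : BC.d a = k • y₂ + t * u := by
      rw [h2, ← Algebra.commutes, ← Algebra.smul_def]
    have h5 : ∃ k' : K, k • y₂ + k' • t ∈ BC.A2 := by
      rcases lt_trichotomy (n + 1 - e₁) 0 with h6 | h6 | h6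
      · rw [BC.gr_neg _ h6, Submodule.mem_bot] at hu
        refine ⟨0, ?_⟩
        rw [zero_smul, add_zero]
        have h7 := BC.d_A2 a
        rw [h4, hu, mul_zero, add_zero] at h7
        exact h7
      · rw [h6] at hu
        obtain ⟨k', rfl⟩ := BC.gr_zero u hu
        refine ⟨k', ?_⟩
        have h7 := BC.d_A2 a
        rw [h4, ← Algebra.commutes, ← Algebra.smul_def] at h7
        exact h7
      · refine ⟨0, ?_⟩
        rw [zero_smul, add_zero]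
        have h7 := BC.d_A2 a
        have h8 := BC.A2_mul e₁ (n + 1 - e₁) (by have := F.F1.e_two; omega) h6 t F.t_mem u hu
        rw [h4] at h7
        have h9 := Submodule.sub_mem _ h7 h8
        rwa [add_sub_cancel_right] at h9
    obtain ⟨k', hk'⟩ := h5
    have h6 := BC.V_A2 _ (Submodule.add_mem _ (Submodule.smul_mem _ k F.F2.y_V)
      (Submodule.smul_mem _ k' F.t_V)) hk'
    have h7 : k' = 0 := by
      have h8 := congrArg π₂ h6
      rw [map_add, map_smul, map_smul, F.F2.π_y, smul_zero, zero_add, F.πt, map_zero] at h8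
      exact (smul_eq_zero.mp h8).resolve_right F.F1.y_ne
    rw [h7, zero_smul, add_zero] at h6
    have h8 : k = 0 := (smul_eq_zero.mp h6).resolve_right F.F2.y_ne
    rw [← h3, h8, map_zero, map_zero, map_zero]

theorem Fib2.Pw_rel (j : ℕ) (n : ℤ) (z : B) (hz : z ∈ Pw BB j n) :
    ∃ z' ∈ Pw BB j (n + 1 - e₂), Rel2 BC π₂ π₁ y₂ t e₂ e₁ n z z' :=
  Pw_R BB e₂ (Rel2 BC π₂ π₁ y₂ t e₂ e₁) (fun _ _ h1 h2 => F.rel_exists h1 h2)
    (fun _ _ _ h => F.rel_coc h) (fun _ _ _ _ _ _ h h' => F.rel_mul h h')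
    (fun _ _ _ h hn => F.rel_pos h hn) (fun _ => Rel2.zero) (fun _ _ _ _ _ h h' => h.add h')
    (fun _ k _ _ h => h.smul k) j n z hz

/-- **Theorem.** A chain of subspaces of cocycles of the fibre which is stable under both
operators gives a lower bound for the cohomology of the total space. -/
theorem Fib2.mainX (hfin : FiniteDimensional K (Coh BB.d)) (X : ℕ → ℤ → Submodule K B)
    (hX : ∀ j n, ∀ z ∈ X j n, z ∈ BB.gr n)
    (hX1 : ∀ j n, ∀ z ∈ X j n, ∃ z' ∈ X j (n + 1 - e₁), Rel BA π₁ y₁ e₁ n z z')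
    (hX2 : ∀ j n, ∀ z ∈ X j n, ∃ z' ∈ X j (n + 1 - e₂), Rel2 BC π₂ π₁ y₂ t e₂ e₁ n z z')
    (hXs : ∀ j n, (∃ z ∈ X (j + 1) n, ∀ w, BB.d w ≠ z) →
      ∃ n' < n, ∃ z ∈ X j n', ∀ w, BB.d w ≠ z) (c : ℕ) (n : ℤ)
    (hn : ∃ z ∈ X c n, ∀ w, BB.d w ≠ z) :
    FiniteDimensional K (Coh BC.d) ∧ 2 * (c + 1) ≤ Module.finrank K (Coh BC.d) := by
  obtain ⟨l, -, hl, hch⟩ := chainP BB X hX hXs
    (fun l => ∃ a ∈ BA.gr l, BA.d a = 0 ∧ (∀ w, BB.d w ≠ π₁ a) ∧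
      ∀ a' c', π₂ a' = a → BC.d a' = y₂ * c' → ∃ w, BB.d w = π₁ (π₂ c')) (by
    intro j l z hz hne hleast
    obtain ⟨z1, hz1, hr1⟩ := hX1 j l z hz
    have h2 := F.F1.e_two
    have h2' := F.F2.e_two
    obtain ⟨a, ha, hda, haz⟩ := F.F1.lift hr1 (by
      obtain ⟨w, hw⟩ := hleast _ (by omega) z1 hz1
      exact ⟨w, hw⟩)
    refine ⟨a, ha, hda, by rw [haz]; exact hne, ?_⟩
    intro a' c' ha' hc'
    obtain ⟨z2, hz2, a2, ha2, c2, hc2, u2, hu2, h3, h4, h5⟩ := hX2 j l z hz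
    obtain ⟨w2, hw2⟩ := hleast _ (by omega) z2 hz2
    have h6 : BC.d (a' - a2) = y₂ * (c' - c2) + t * (-u2) := by
      rw [map_sub, hc', h4, mul_sub, mul_neg]
      abel
    obtain ⟨w3, hw3⟩ := F.range h6 (w := 0) (by
      rw [map_zero, map_sub, map_sub, ha', haz, h3, sub_self])
    refine ⟨w3 + w2, ?_⟩
    rw [map_add, hw3, hw2, map_sub, map_sub, h5, sub_add_cancel]) c n hn
  choose! a ha hda hne hT using hch
  have hfA : FiniteDimensional K (Coh BA.d) :=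
    (F.F1.mainl hfin c l hl fun i hi => ⟨a i, ha i hi, hda i hi, hne i hi⟩).1
  have p1 : ∀ a, BA.d a = 0 → BB.d (π₁.toLinearMap a) = 0 := fun a ha => by
    rw [AlgHom.toLinearMap_apply, ← F.F1.comm, ha, map_zero]
  have p2 : ∀ a, ∃ w, BB.d w = π₁.toLinearMap (BA.d a) := fun a => ⟨π₁ a, (F.F1.comm a).symm⟩
  obtain ⟨L, hL, hLg⟩ := F.F1.indep c l hl a ha hda hne p1 p2
  refine F.F2.mainK hfA (c + 1) ?_
  intro θ t1 t2 hθ
  have hr : ∀ x, BA.d x = 0 → ∀ w, BB.d w = π₁ x → ∃ w', BB.d w' = π₁ (θ x) := by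
    intro x hx w hw
    obtain ⟨a', c', h1, h2, h3⟩ := hθ x hx
    have h4 : BC.d a' = y₂ * c' + t * 0 := by rw [h2, mul_zero, add_zero]
    obtain ⟨w', hw'⟩ := F.range h4 (w := w) (by rw [h1, hw])
    exact ⟨w', by rw [hw', h3]⟩
  have h0 := ker_count (cm BA.d BA.d θ t1 t2) (cm BA.d BB.d π₁.toLinearMap p1 p2) (by
    intro x hx
    obtain ⟨x', hx', rfl⟩ := cl_surj BA.d x
    rw [cm_cl, cl_eq_zero] at hx
    obtain ⟨w, hw⟩ := hx
    rw [cm_cl, cm_cl, cl_eq_zero]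
    exact hr x' hx' w hw) L hL (by
    intro g
    obtain ⟨hs, hg⟩ := hLg g
    rw [hg, cm_cl, cm_cl, cl_eq_zero]
    change π₁ (θ (∑ i : Fin (c + 1), g i • a i)) ∈ LinearMap.range BB.d
    rw [map_sum, map_sum]
    refine Submodule.sum_mem _ fun i _ => ?_
    rw [map_smul, map_smul]
    refine Submodule.smul_mem _ _ ?_
    obtain ⟨a', c', h1, h2, h3⟩ := hθ (a i) (hda i (by omega))
    obtain ⟨w, hw⟩ := hT i (by omega) a' c' h1 h2
    exact ⟨w, by rw [hw, h3]⟩)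
  rwa [Module.finrank_fintype_fun_eq_card, Fintype.card_fin] at h0

/-- **Theorem.** A product of `c` cocycles of positive degree of the fibre which is not a boundary
gives `2 (c + 1) ≤ dim H` for the total space. -/
theorem Fib2.main (hfin : FiniteDimensional K (Coh BB.d)) (c : ℕ) (n : ℤ) (hN : NZ BB c n) :
    FiniteDimensional K (Coh BC.d) ∧ 2 * (c + 1) ≤ Module.finrank K (Coh BC.d) :=
  F.mainX hfin (Pw BB) (fun j n z hz => (Pw_coc BB j n z hz).1)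
    (fun j n z hz => F.F1.Pw_rel j n z hz) F.Pw_rel (fun _ _ hz => NZ_step BB hz) c n hN

end Pool.Agent.H14.HF
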