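import Pool.Agent.H14.HF.Word
import Pool.Agent.H14.HF.Two2

/-!
# Hilali: the word length filtration and the two operators
-/

namespace Pool.Agent.H14.HF

open Pool.Agent.H91.Hil Pool.Agent.H91.Hil.LamBase Pool.Agent.H68.Hil

universe u v

variable {K : Type v} {A : Type u} [Field K] [Ring A] [Algebra K A] {q m : ℕ}

/-- lifts with the same degree and word length -/
theorem Prj.sur_wl {A' : Type u} [Ring A'] [Algebra K A'] {G : Fin q ⊕ Fin (m + 1) → A'}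
    {bA : Module.Basis (Ix q (m + 1)) K A'} {π : A' →ₐ[K] A} {g : Fin q ⊕ Fin m → A}
    {b : Module.Basis (Ix q m) K A} (h : Prj G g π) (hbA : IsMon G bA) (hb : IsMon g b)
    (dg' : Fin q ⊕ Fin (m + 1) → ℕ) (p : ℕ) (n : ℤ) {z : A}
    (hz : z ∈ cs b {s | p ≤ wl s ∧ (dg (dgF dg') s : ℤ) = n}) :
    ∃ a ∈ cs bA {s | p ≤ wl s ∧ (dg dg' s : ℤ) = n}, π a = z :=
  h.sur hbA hb (T := {s | p ≤ wl s ∧ (dg dg' s : ℤ) = n}) (by
    rintro s ⟨h1, h2⟩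
    refine ⟨?_, ?_⟩
    · rw [wl_sc]; exact h1
    · rw [dg_sc]; exact h2) hz

/-- elements of the kernel with given degree and word length -/
theorem Prj.ker_wl {A' : Type u} [Ring A'] [Algebra K A'] {G : Fin q ⊕ Fin (m + 1) → A'}
    {bA : Module.Basis (Ix q (m + 1)) K A'} {π : A' →ₐ[K] A} {g : Fin q ⊕ Fin m → A}
    {b : Module.Basis (Ix q m) K A} (h : Prj G g π) (hbA : IsMon G bA) (hb : IsMon g b)
    (dg' : Fin q ⊕ Fin (m + 1) → ℕ) (p : ℕ) (n : ℤ) {x : A'} (hx : x ∈ cs bA {s | p + 1 ≤ wl s})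
    (hxn : x ∈ grd bA dg' (n + 1)) (hπ : π x = 0) :
    ∃ c ∈ cs bA {s | p ≤ wl s ∧ (dg dg' s : ℤ) = n + 1 - dg' (Sum.inr 0)},
      x = G (Sum.inr 0) * c := by
  have h2 := cs_inf (cs_inf (h.mem_cs_of hbA hb hπ) hx) hxn
  refine exists_mul hbA
    (T := {s | p ≤ wl s ∧ (dg dg' s : ℤ) = n + 1 - dg' (Sum.inr 0)}) ?_ h2
  rintro s ⟨⟨h3, h4⟩, h5⟩
  refine ⟨h3, ?_⟩
  rintro s' rfl hs'
  have h4' : p + 1 ≤ wl (up (Sum.inr 0) s') := h4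
  have h5' : ((dg dg' (up (Sum.inr 0) s') : ℕ) : ℤ) = n + 1 := h5
  rw [wl_up hs'] at h4'
  rw [dg_up dg' hs'] at h5'
  push_cast at h5'
  exact ⟨by omega, by omega⟩

/-- The second operator preserves the word length filtration. -/
theorem Prj.rel_wl2 {C A' : Type u} [Ring C] [Algebra K C] [Ring A'] [Algebra K A']
    {GC : Fin q ⊕ Fin (m + 1 + 1) → C} {G : Fin q ⊕ Fin (m + 1) → A'} {g : Fin q ⊕ Fin m → A}
    {bC : Module.Basis (Ix q (m + 1 + 1)) K C} {bA : Module.Basis (Ix q (m + 1)) K A'}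
    {b : Module.Basis (Ix q m) K A} {π₂ : C →ₐ[K] A'} {π₁ : A' →ₐ[K] A}
    (h₂ : Prj GC G π₂) (h₁ : Prj G g π₁) (hbC : IsMon GC bC) (hbA : IsMon G bA) (hb : IsMon g b)
    {dg' : Fin q ⊕ Fin (m + 1 + 1) → ℕ} {DC : C →ₗ[K] C} {DA : A' →ₗ[K] A'} {d : A →ₗ[K] A}
    (hDC : Mn K GC dg' DC) (hDA : Mn K G (dgF dg') DA) (hc₂ : ∀ a, π₂ (DC a) = DA (π₂ a))
    (hc₁ : ∀ a, π₁ (DA a) = d (π₁ a)) (p : ℕ) (n : ℤ) {z : A} (hz : z ∈ cs b {s | p ≤ wl s})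
    (hzn : z ∈ grd b (dgF (dgF dg')) n) (hdz : d z = 0) :
    ∃ a ∈ grd bC dg' n, ∃ c ∈ grd bC dg' (n + 1 - dg' (Sum.inr 0)),
      ∃ u ∈ grd bC dg' (n + 1 - dgF dg' (Sum.inr 0)), π₁ (π₂ a) = z ∧
      DC a = GC (Sum.inr 0) * c + GC (Sum.inr 1) * u ∧ π₁ (π₂ c) ∈ cs b {s | p ≤ wl s} := by
  obtain ⟨a1, ha1, rfl⟩ := h₁.sur_wl hbA hb (dgF dg') p n (cs_inf hz hzn)
  have ha1w : a1 ∈ cs bA {s | p ≤ wl s} := cs_mono (fun s hs => hs.1) ha1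
  have ha1n : a1 ∈ grd bA (dgF dg') n := cs_mono (fun s hs => hs.2) ha1
  obtain ⟨u1, hu1, hu1'⟩ := h₁.ker_wl hbA hb (dgF dg') p n (d_wl hbA hDA ha1w)
    (d_mem hbA hDA ha1n) (by rw [hc₁, hdz])
  obtain ⟨a, ha, rfl⟩ := h₂.sur_wl hbC hbA dg' p n ha1
  obtain ⟨u, hu, rfl⟩ := h₂.sur_wl hbC hbA dg' p _ hu1
  have haw : a ∈ cs bC {s | p ≤ wl s} := cs_mono (fun s hs => hs.1) ha
  have han : a ∈ grd bC dg' n := cs_mono (fun s hs => hs.2) ha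
  have huw : u ∈ cs bC {s | p ≤ wl s} := cs_mono (fun s hs => hs.1) hu
  have hun : u ∈ grd bC dg' (n + 1 - dgF dg' (Sum.inr 0)) := cs_mono (fun s hs => hs.2) hu
  have ht := gen_mem_cs hbC (Sum.inr 1 : Fin q ⊕ Fin (m + 1 + 1))
  have htw : GC (Sum.inr 1) * u ∈ cs bC {s | p + 1 ≤ wl s} := by
    refine cs_mul hbC ?_ ht huw
    rintro s rfl s' hs' hdis
    have h3 : p ≤ wl s' := hs'
    change p + 1 ≤ wl _
    rw [wl_add hdis, wl_gen]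
    omega
  have htn : GC (Sum.inr 1) * u ∈ grd bC dg' (n + 1) := by
    refine cs_mul hbC ?_ ht hun
    rintro s rfl s' hs' hdis
    have h3 : ((dg dg' s' : ℕ) : ℤ) = n + 1 - dgF dg' (Sum.inr 0) := hs'
    change ((dg dg' _ : ℕ) : ℤ) = n + 1
    rw [dg_add dg' hdis, dg_gen]
    have h4 : dgF dg' (Sum.inr 0) = dg' (Sum.inr 1) := rfl
    rw [h4] at h3
    push_cast
    omega
  have hπt : π₂ (GC (Sum.inr 1)) = G (Sum.inr 0) := h₂.g_sh (Sum.inr 0)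
  obtain ⟨c, hc, hc'⟩ := h₂.ker_wl hbC hbA dg' p n (x := DC a - GC (Sum.inr 1) * u)
    (Submodule.sub_mem _ (d_wl hbC hDC haw) htw) (Submodule.sub_mem _ (d_mem hbC hDC han) htn) (by
      rw [map_sub, hc₂, hu1', map_mul, hπt, sub_self])
  refine ⟨a, han, c, cs_mono (fun s hs => hs.2) hc, u, hun, rfl, by rw [← hc']; abel, ?_⟩
  have hcw : c ∈ cs bC {s | p ≤ wl s} := cs_mono (fun s hs => hs.1) hc
  refine h₁.cs_map hbA hb ?_ (h₂.cs_map hbC hbA (T := {s | p ≤ wl s}) ?_ hcw)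
  · intro s h3
    have h3' : p ≤ wl (sc s) := h3
    change p ≤ wl s
    rwa [wl_sc] at h3'
  · intro s h3
    have h3' : p ≤ wl (sc s) := h3
    change p ≤ wl s
    rwa [wl_sc] at h3'

end Pool.Agent.H14.HF
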