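import Pool.Agent.H14.HF.FinalH
import Pool.Agent.H14.HF.Word2

/-!
# Hilali: total spaces over products of two odd spheres, conclusion
-/

namespace Pool.Agent.H14.HF

open Pool.Agent.H68.Sullivan Pool.Agent.H91.Hil Pool.Agent.H91.Hil.LamBase
open Pool.Agent.H14.HFStatement Pool.Agent.H91.HilStatement

universe u

variable {K : Type u} [Field K] {q m : ℕ}

theorem fib_ofM (deg : Fin q ⊕ Fin (m + 1) → ℕ) {d : Lam K q (m + 1) →ₗ[K] Lam K q (m + 1)}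
    {dF : Lam K q m →ₗ[K] Lam K q m} {p : Lam K q (m + 1) →ₐ[K] Lam K q m} (h : IsFibre d dF p)
    (hd : Mn K (gen K q (m + 1)) deg d) : ∃ hd' : Mn K (gen K q m) (degF deg) dF,
      Fib (bs hd) (bs hd') p (genY K q (m + 1) 0) (deg (Sum.inr 0) : ℤ) := by
  have hP := prj_of h
  have hsur : Function.Surjective p := by
    intro x
    obtain ⟨a, -, ha⟩ := hP.sur (isMon K q (m + 1)) (isMon K q m) (S := Set.univ)
      (T := Set.univ) (fun s _ => trivial) (mem_univ_cs (b := mon K q m) x)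
    exact ⟨a, ha⟩
  rw [degF_eq]
  have hd' : Mn K (gen K q m) (dgF deg) dF := hP.mn deg hd h.comm hsur
  exact ⟨hd', hP.fib (isMon K q (m + 1)) (isMon K q m) (gc_gen K q (m + 1)) (gc_gen K q m)
    hd hd' h.comm h.closed _ (ord_mono deg) _ (ord_mono (dgF deg))⟩

theorem fib2_of [CharZero K] (deg : Fin q ⊕ Fin (m + 1 + 1) → ℕ)
    {d : Lam K q (m + 1 + 1) →ₗ[K] Lam K q (m + 1 + 1)}
    {d₁ : Lam K q (m + 1) →ₗ[K] Lam K q (m + 1)}
    {p₁ : Lam K q (m + 1 + 1) →ₐ[K] Lam K q (m + 1)}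
    {dF : Lam K q m →ₗ[K] Lam K q m} {p₂ : Lam K q (m + 1) →ₐ[K] Lam K q m}
    (h₁ : IsFibre d d₁ p₁) (h₂ : IsFibre d₁ dF p₂) (hy : d (genY K q (m + 1 + 1) 1) = 0)
    (hd : Mn K (gen K q (m + 1 + 1)) deg d) :
    ∃ (hd₁ : Mn K (gen K q (m + 1)) (degF deg) d₁) (hdF : Mn K (gen K q m) (degF (degF deg)) dF),
      Fib2 (bs hd) (bs hd₁) (bs hdF) p₁ p₂ (genY K q (m + 1 + 1) 0) (genY K q (m + 1) 0)
        (genY K q (m + 1 + 1) 1) (deg (Sum.inr 0) : ℤ) (degF deg (Sum.inr 0) : ℤ) := by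
  obtain ⟨hd₁, F₁⟩ := fib_ofM deg h₁ hd
  obtain ⟨hdF, F₂⟩ := fib_ofM (degF deg) h₂ hd₁
  have hmem : genY K q (m + 1 + 1) 1 ∈ (bs hd).gr (degF deg (Sum.inr 0) : ℤ) := by
    refine cs_mono ?_ (gen_mem_cs (isMon K q (m + 1 + 1)) (Sum.inr 1))
    rintro t rfl
    change ((Pool.Agent.H68.Hil.dg deg _ : ℕ) : ℤ) = _
    rw [dg_gen]
    rfl
  refine ⟨hd₁, hdF, F₁, F₂, hmem, Submodule.subset_span ⟨Sum.inr 1, rfl⟩, hy, ?_,
    h₁.genY_succ 0⟩
  have h3 := (bs hd).gc_od _ F₂.e_odd _ hmem (genY K q (m + 1 + 1) 1)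
  rw [(bs hd).α_od _ F₂.e_odd _ hmem, neg_mul] at h3
  have h4 : (2 : K) • (genY K q (m + 1 + 1) 1 * genY K q (m + 1 + 1) 1) = 0 := by
    rw [two_smul]
    nth_rewrite 1 [h3]
    exact neg_add_cancel _
  exact (smul_eq_zero.mp h4).resolve_left two_ne_zero

theorem final2 [CharZero K] (deg : Fin q ⊕ Fin (m + 1 + 1) → ℕ)
    {d : Lam K q (m + 1 + 1) →ₗ[K] Lam K q (m + 1 + 1)}
    {d₁ : Lam K q (m + 1) →ₗ[K] Lam K q (m + 1)}
    {p₁ : Lam K q (m + 1 + 1) →ₐ[K] Lam K q (m + 1)}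
    {dF : Lam K q m →ₗ[K] Lam K q m} {p₂ : Lam K q (m + 1) →ₐ[K] Lam K q m}
    (h₁ : IsFibre d d₁ p₁) (h₂ : IsFibre d₁ dF p₂) (hy : d (genY K q (m + 1 + 1) 1) = 0)
    (hd : IsMin deg d) (hfin : FiniteDimensional K (Coh dF)) :
    (HasCup (degF (degF deg)) dF m → FiniteDimensional K (Coh d) ∧
      2 * (m + 1) ≤ Module.finrank K (Coh d)) ∧
    (IsFormal (degF (degF deg)) dF → FiniteDimensional K (Coh d) ∧
      2 * (m + 1) ≤ Module.finrank K (Coh d)) ∧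
    (∀ κ, IsHomog (degF (degF deg)) (κ + 2) dF → FiniteDimensional K (Coh d) ∧
      2 * (m + 1) ≤ Module.finrank K (Coh d)) ∧ q ≤ m := by
  obtain ⟨hd₁, hdF, F⟩ := fib2_of deg h₁ h₂ hy (mn_of hd)
  refine ⟨?_, ?_, ?_, even_le_odd hdF hfin⟩
  · intro hc
    obtain ⟨n, hn⟩ := nz_of hdF hc
    exact F.main hfin m n hn
  · intro hf
    obtain ⟨J, hJ⟩ := frm_of hdF hf
    obtain ⟨n, hn⟩ := hJ.main
    have h1 : (bs hdF).odd 0 = m := odd_mkBase (isMon K q m) (gc_gen K q m) hdF _ _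
    rw [h1] at hn
    exact F.main hfin m n hn
  · intro κ hh
    have hP₁ := prj_of h₁
    have hP₂ := prj_of h₂
    have hgen : ∀ v, dF (gen K q m v) ∈ cs (mon K q m) {t | Pool.Agent.H68.Hil.wl t = κ + 2} := by
      intro v
      have h1 := hh v
      rw [comp_eq] at h1
      refine ((Pool.Agent.H68.Hil.cmp_le_span (isMon K q m) (degF (degF deg)) _ _).trans
        (Submodule.span_mono (Set.image_mono ?_))) h1
      rintro s ⟨-, h2⟩
      exact h2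
    let W : WL (bs hdF) κ := wlf (isMon K q m) (gc_gen K q m) hdF (ord (degF (degF deg)))
      (ord_mono (degF (degF deg))) (hom_bas (isMon K q m) hdF hgen)
    obtain ⟨r, hr⟩ := exists_chain (bs hdF) hfin
    obtain ⟨M, f, hf, hdf, hne⟩ := top_fam (bs hdF) r hr (fun i n => W.L i ⊓ (bs hdF).gr n)
      (fun n a ha => ⟨W.L_zero a, ha⟩) (fun i n => inf_le_right) (by
        intro i a n x hx y hy
        refine ⟨?_, (bs hdF).mul_mem _ _ _ ((bs hdF).gp_le a hx) _ hy.2⟩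
        by_cases ha : 0 < a
        · have h1 := W.L_mul 1 i x (W.L_pos a ha x ((bs hdF).gp_le a hx)) y hy.1
          rwa [add_comm 1 i] at h1
        · rw [Base.gp_zero ha hx, zero_mul]
          exact Submodule.zero_mem _)
    have h1 : (bs hdF).odd 0 = m := odd_mkBase (isMon K q m) (gc_gen K q m) hdF _ _
    rw [h1] at hf
    refine F.mainX hfin (fun j n => W.L j ⊓ (bs hdF).gr n ⊓ LinearMap.ker (bs hdF).d)
      (fun j n z hz => hz.1.2) ?_ ?_ (fun j n hz => W.NZ_step hz) m M ⟨f, ⟨hf, hdf⟩, hne⟩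
    · rintro j n z ⟨⟨hzL, hzn⟩, hdz⟩
      have hzn' : z ∈ grd (mon K q m) (dgF (degF deg)) n := by
        rw [← degF_eq]
        exact hzn
      obtain ⟨a, ha, c, hc, h2, h3, h4⟩ := hP₂.rel_wl (isMon K q (m + 1)) (isMon K q m) hd₁
        h₂.comm j n hzL hzn' hdz
      have hR : Rel (bs hd₁) p₂ (genY K q (m + 1) 0) (degF deg (Sum.inr 0) : ℤ) n z (p₂ c) :=
        ⟨a, ha, c, hc, h2, h3, rfl⟩
      have h5 := F.F1.rel_coc hR
      exact ⟨p₂ c, ⟨⟨h4, h5.1⟩, h5.2⟩, hR⟩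
    · rintro j n z ⟨⟨hzL, hzn⟩, hdz⟩
      have hzn' : z ∈ grd (mon K q m) (dgF (dgF deg)) n := by
        rw [← degF_eq, ← degF_eq]
        exact hzn
      have hd₁' : Mn K (gen K q (m + 1)) (dgF deg) d₁ := by
        rw [← degF_eq]
        exact hd₁
      obtain ⟨a, ha, c, hc, u, hu, h2, h3, h4⟩ := hP₁.rel_wl2 hP₂ (isMon K q (m + 1 + 1))
        (isMon K q (m + 1)) (isMon K q m) (mn_of hd) hd₁' h₁.comm h₂.comm j n hzL hzn' hdz
      have hR : Rel2 (bs (mn_of hd)) p₁ p₂ (genY K q (m + 1 + 1) 0) (genY K q (m + 1 + 1) 1)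
          (deg (Sum.inr 0) : ℤ) (degF deg (Sum.inr 0) : ℤ) n z (p₂ (p₁ c)) := by
        refine ⟨a, ha, c, hc, u, ?_, h2, h3, rfl⟩
        rw [degF_eq]
        exact hu
      have h5 := F.rel_coc hR
      exact ⟨p₂ (p₁ c), ⟨⟨h4, h5.1⟩, h5.2⟩, hR⟩

end Pool.Agent.H14.HF
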