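import Pool.Agent.H91.Hil.Cnt

/-!
# Hilali: powers of the even generators in an elliptic minimal Sullivan algebra
-/

namespace Pool.Agent.H14.HF

open Pool.Agent.H91.Hil
open Pool.Agent.H68.Sullivan (Coh)

universe u v

variable {K : Type v} {A : Type u} [Field K] [CharZero K] [Ring A] [Algebra K A]

/-- Finite-dimensional cohomology gives a chain. -/
theorem exists_chain (B : Base K A) (hfin : FiniteDimensional K (Coh B.d)) :
    ∃ r, Chain B r B.gr := by
  obtain ⟨C, hC⟩ := exists_C B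
  have hfinite : {p | Bad B C p}.Finite := by
    by_contra hinf
    obtain ⟨T, hT, hcard⟩ :=
      (show Set.Infinite {p | Bad B C p} from hinf).exists_subset_card_eq
        (Module.finrank K (Coh B.d))
    have h1 : ∀ t : T, Bad B C (t : ℤ) := fun t => hT t.2
    choose c hc using h1
    have h2 := card_le hC T c hc (fun t => Bad.pos (hT t.2)) hfin
    omega
  set S := hfinite.toFinset with hS
  have hSmem : ∀ p, p ∈ S ↔ Bad B C p := fun p => by
    rw [hS, Set.Finite.mem_toFinset]
    exact Iff.rfl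
  have h3 : Chain B S.card (EE B C) := by
    refine chain_of_finset B S.card S rfl (EE B C) (EE_idl fun p => (hC p).1)
      (EE_d fun p => (hC p).1) ?_
    intro p hp z hz hDz
    by_contra hcon
    push Not at hcon
    exact hp ((hSmem p).mpr ⟨z, hz, hDz, hcon⟩)
  exact ⟨_, chain_gr _ h3⟩

theorem exists_stage (B : Base K A) (j : ℕ) : j ≤ B.n →
    ∃ (R : Type u) (_ : Ring R) (_ : Algebra K R), Nonempty (Stage B j R) := by
  induction j with
  | zero => intro _; exact ⟨A, inferInstance, inferInstance, ⟨Stage.zero B⟩⟩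
  | succ j ih =>
    intro hj1
    have hj : j < B.n := by omega
    obtain ⟨R, _, _, ⟨st⟩⟩ := ih hj.le
    obtain ⟨u, hu⟩ := st.exists_next hj
    obtain ⟨e, he⟩ : ∃ e, B.dg j = e + 1 := ⟨B.dg j - 1, by ring⟩
    rcases Int.even_or_odd (B.dg j) with ho | ho
    · exact ⟨OE st.α, inferInstance, inferInstance, ⟨ExtOd.ext st hu he ho hj⟩⟩
    · exact ⟨PowerSeries R, inferInstance, inferInstance, ⟨ExtEv.ext st hu he ho hj⟩⟩

theorem pow_sub_mem (B : Base K A) (j : ℕ) {v w : A} (h : v - w ∈ B.I j) (r : ℕ) :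
    v ^ r - w ^ r ∈ B.I j := by
  induction r with
  | zero => rw [pow_zero, pow_zero, sub_self]; exact Submodule.zero_mem _
  | succ r ih =>
    have e1 : v ^ (r + 1) - w ^ (r + 1) = v * (v ^ r - w ^ r) + (v - w) * w ^ r := by
      rw [pow_succ', pow_succ', mul_sub, sub_mul]
      abel
    rw [e1]
    exact Submodule.add_mem _ (B.I_left j _ _ ih) (B.I_right j _ _ h)

/-- A power of the even generator `v_j` is a boundary modulo the generators before it. -/
theorem pow_mem (B : Base K A) {r : ℕ} (hr : Chain B r B.gr) {j : ℕ} (hj : j < B.n)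
    (he : Even (B.dg j)) : ∃ w, B.v j ^ r - B.d w ∈ B.I j := by
  obtain ⟨R, _, _, ⟨st⟩⟩ := exists_stage B j hj.le
  obtain ⟨u, hu⟩ := st.exists_next hj
  obtain ⟨w, -, hw⟩ := st.nil hu.mem_gp (ExtOd.D_u_mul hu he) r B.gr hr 0 1 (Stage.one_mem st)
    (Stage.D_one st)
  rw [mul_one] at hw
  refine ⟨st.ρ w, ?_⟩
  have h1 := st.ρD w
  rw [hw, map_pow] at h1
  have h2 := pow_sub_mem B j hu.ρ_sub r
  have e1 : B.v j ^ r - B.d (st.ρ w) =
      (B.v j ^ r - st.ρ u ^ r) + (st.ρ u ^ r - B.d (st.ρ w)) := by abel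
  rw [e1]
  exact Submodule.add_mem _ h2 h1

end Pool.Agent.H14.HF
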