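import Pool.Agent.H14.HF.Count

/-!
# Hilali: total spaces over a product of two odd spheres (algebra)
-/

namespace Pool.Agent.H14.HF

open Pool.Agent.H91.Hil
open Pool.Agent.H68.Sullivan (Coh)

section lin

variable {K : Type*} [Field K]

/-- An operator `T` for which the kernel of `P` is stable, with independent vectors modulo the
kernel of `P` which `T` maps into the kernel of `P`. -/
theorem ker_count {H H' V : Type*} [AddCommGroup H] [Module K H] [AddCommGroup H'] [Module K H']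
    [AddCommGroup V] [Module K V] [FiniteDimensional K H] [FiniteDimensional K V]
    (T : H →ₗ[K] H) (P : H →ₗ[K] H')
    (hS : ∀ x, P x = 0 → P (T x) = 0) (L : V →ₗ[K] H) (hL : Function.Injective (P ∘ₗ L))
    (hT : ∀ g, P (T (L g)) = 0) :
    Module.finrank K V ≤ Module.finrank K (LinearMap.ker T) := by
  let Φ : V × LinearMap.ker P →ₗ[K] H := L.coprod (LinearMap.ker P).subtype
  have hΦ : ∀ x, Φ x = L x.1 + (x.2 : H) := fun x => rfl
  have hΦi : Function.Injective Φ := by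
    rw [← LinearMap.ker_eq_bot, LinearMap.ker_eq_bot']
    rintro ⟨g, k⟩ h
    rw [hΦ] at h
    have hk : P (k : H) = 0 := k.2
    have h1 : P (L g) = 0 := by
      have h2 := congrArg P h
      rw [map_add, hk, add_zero, map_zero] at h2
      exact h2
    have h3 : g = 0 := hL (by rw [LinearMap.comp_apply, h1, map_zero])
    subst h3
    rw [map_zero, zero_add] at h
    rw [Prod.mk_eq_zero]
    exact ⟨rfl, Subtype.ext h⟩
  let Ψ : V × LinearMap.ker P →ₗ[K] LinearMap.ker P :=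
    (T ∘ₗ Φ).codRestrict (LinearMap.ker P) (by
      rintro ⟨g, k⟩
      rw [LinearMap.mem_ker, LinearMap.comp_apply, hΦ, map_add, map_add, hT, hS _ k.2, add_zero])
  have hΨ : ∀ x, ((Ψ x : LinearMap.ker P) : H) = T (Φ x) := fun x => rfl
  have h1 := LinearMap.finrank_range_add_finrank_ker Ψ
  rw [Module.finrank_prod] at h1
  have h2 : Module.finrank K (LinearMap.range Ψ) ≤ Module.finrank K (LinearMap.ker P) :=
    Submodule.finrank_le _
  have h3 : Module.finrank K (LinearMap.ker Ψ) ≤ Module.finrank K (LinearMap.ker T) := by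
    let j : LinearMap.ker Ψ →ₗ[K] LinearMap.ker T :=
      (Φ ∘ₗ (LinearMap.ker Ψ).subtype).codRestrict (LinearMap.ker T) (by
        rintro ⟨x, hx⟩
        rw [LinearMap.mem_ker] at hx ⊢
        rw [LinearMap.comp_apply, Submodule.subtype_apply, ← hΨ, hx]
        rfl)
    refine LinearMap.finrank_le_finrank_of_injective (f := j) ?_
    intro x x' h
    have h4 : Φ x = Φ x' := congrArg Subtype.val h
    exact Subtype.ext (hΦi h4)
  omega

variable {A B : Type*} [Ring A] [Algebra K A] [Ring B] [Algebra K B]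

/-- The Wang sequence gives `dim H(A) = 2 dim ker θ`. -/
theorem wangK (dA : A →ₗ[K] A) (dB : B →ₗ[K] B) (π : A →ₗ[K] B) (s μ : B →ₗ[K] A) (θ : B →ₗ[K] B)
    (hd : ∀ b, dB (dB b) = 0)
    (hπs : ∀ b, π (s b) = b) (hπμ : ∀ b, π (μ b) = 0) (hker : ∀ a, π a = 0 → ∃ b, a = μ b)
    (hinj : ∀ b, μ b = 0 → b = 0) (hπ : ∀ a, π (dA a) = dB (π a))
    (hμ : ∀ b, dA (μ b) = -μ (dB b)) (hs : ∀ b, dA (s b) = s (dB b) + μ (θ b))
    (hθ : ∀ b, dB (θ b) = θ (dB b)) [hfin : FiniteDimensional K (Coh dB)] (c : ℕ)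
    (hc : ∀ (t1 : ∀ a, dB a = 0 → dB (θ a) = 0) (t2 : ∀ a, ∃ w, dB w = θ (dB a)),
      c ≤ Module.finrank K (LinearMap.ker (cm dB dB θ t1 t2))) :
    FiniteDimensional K (Coh dA) ∧ 2 * c ≤ Module.finrank K (Coh dA) := by
  refine wang dA dB π s μ θ hd hπs hπμ hker hinj hπ hμ hs hθ c ?_
  intro h1 h2
  have t1 : ∀ a, dB a = 0 → dB (θ a) = 0 := fun a ha => by rw [hθ, ha, map_zero]
  have t2 : ∀ a, ∃ w, dB w = θ (dB a) := fun a => ⟨θ a, hθ a⟩
  refine (hc t1 t2).trans (Submodule.finrank_mono ?_)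
  intro x hx
  rw [LinearMap.mem_ker] at hx
  obtain ⟨b, hb, rfl⟩ := cl_surj dB x
  rw [cm_cl, cl_eq_zero] at hx
  obtain ⟨w, hw⟩ := hx
  have h3 : dA (s b - μ w) = 0 ∨ dA (s b + μ w) = 0 := by
    right
    rw [map_add, hs, hμ, hb, hw, map_zero, zero_add, add_neg_cancel]
  have h4 : dA (s b + μ w) = 0 := by
    rw [map_add, hs, hμ, hb, hw, map_zero, zero_add, add_neg_cancel]
  refine ⟨cl dA (s b + μ w) h4, ?_⟩
  rw [cm_cl]
  refine cl_eq dB _ _ _ _ 0 ?_
  rw [map_add, hπs, hπμ, add_zero, sub_self, map_zero]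

end lin

section

variable {K A B : Type*} [Field K] [Ring A] [Algebra K A] [Ring B] [Algebra K B]
  {BA : Base K A} {BB : Base K B} {π : A →ₐ[K] B} {y : A} {e : ℤ}

/-- `2 c ≤ dim H(A)` if `c ≤ dim ker θ`. -/
theorem Fib.mainK (F : Fib BA BB π y e) (hfin : FiniteDimensional K (Coh BB.d)) (c : ℕ)
    (hc : ∀ (θ : B →ₗ[K] B) (t1 : ∀ a, BB.d a = 0 → BB.d (θ a) = 0)
      (t2 : ∀ a, ∃ w, BB.d w = θ (BB.d a)),
      (∀ b, BB.d b = 0 → ∃ a c, π a = b ∧ BA.d a = y * c ∧ π c = θ b) →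
      c ≤ Module.finrank K (LinearMap.ker (cm BB.d BB.d θ t1 t2))) :
    FiniteDimensional K (Coh BA.d) ∧ 2 * c ≤ Module.finrank K (Coh BA.d) := by
  obtain ⟨s, hs⟩ := LinearMap.exists_rightInverse_of_surjective π.toLinearMap
    (LinearMap.range_eq_top.mpr F.sur')
  have hπs : ∀ b, π (s b) = b := fun b => LinearMap.congr_fun hs b
  have hyk : ∀ a, π a = 0 → y * a = 0 := by
    intro a ha
    obtain ⟨c, rfl⟩ := F.ker' a ha
    rw [← mul_assoc, F.yy, zero_mul]
  let μ : B →ₗ[K] A := (LinearMap.mulLeft K y) ∘ₗ s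
  have hμ : ∀ b, μ b = y * s b := fun b => rfl
  have hinj : ∀ b, μ b = 0 → b = 0 := by
    intro b hb
    have h1 := F.reg _ ((hμ b).symm.trans hb)
    rwa [hπs] at h1
  have hπμ : ∀ b, π (μ b) = 0 := fun b => by rw [hμ, map_mul, F.π_y, zero_mul]
  have hker : ∀ a, π a = 0 → ∃ b, a = μ b := by
    intro a ha
    obtain ⟨c, rfl⟩ := F.ker' a ha
    refine ⟨π c, ?_⟩
    rw [hμ, ← sub_eq_zero, ← mul_sub]
    exact hyk _ (by rw [map_sub, hπs, sub_self])
  have hdμ : ∀ b, BA.d (μ b) = -μ (BB.d b) := by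
    intro b
    rw [hμ, hμ, F.d_y_mul, neg_inj, ← sub_eq_zero, ← mul_sub]
    exact hyk _ (by rw [map_sub, F.comm, hπs, hπs, sub_self])
  have hμi : Function.Injective μ := by
    intro b b' h
    rw [← sub_eq_zero]
    apply hinj
    rw [map_sub, h, sub_self]
  let δ : B →ₗ[K] A := BA.d ∘ₗ s - s ∘ₗ BB.d
  have hδ : ∀ b, δ b ∈ LinearMap.range μ := by
    intro b
    obtain ⟨b', hb'⟩ := hker (δ b) (by
      change π (BA.d (s b) - s (BB.d b)) = 0
      rw [map_sub, F.comm, hπs, hπs, sub_self])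
    exact ⟨b', hb'.symm⟩
  let θ : B →ₗ[K] B := (LinearEquiv.ofInjective μ hμi).symm.toLinearMap ∘ₗ
    δ.codRestrict (LinearMap.range μ) hδ
  have hθ : ∀ b, μ (θ b) = δ b := by
    intro b
    have h1 : (LinearEquiv.ofInjective μ hμi) (θ b) = ⟨δ b, hδ b⟩ :=
      (LinearEquiv.ofInjective μ hμi).apply_symm_apply _
    exact congrArg Subtype.val h1
  have hds : ∀ b, BA.d (s b) = s (BB.d b) + μ (θ b) := by
    intro b
    rw [hθ]
    change BA.d (s b) = s (BB.d b) + (BA.d (s b) - s (BB.d b))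
    abel
  have hdθ : ∀ b, BB.d (θ b) = θ (BB.d b) := by
    intro b
    apply hμi
    have h1 := BA.d_sq (s b)
    rw [hds, map_add, hds, BB.d_sq, map_zero, zero_add, hdμ] at h1
    exact (add_neg_eq_zero.mp h1).symm
  refine wangK BA.d BB.d π.toLinearMap s μ θ BB.d_sq hπs hπμ hker hinj F.comm hdμ hds hdθ c ?_
  intro t1 t2
  refine hc θ t1 t2 ?_
  intro b hb
  refine ⟨s b, s (θ b), hπs b, ?_, hπs _⟩
  rw [hds, hb, map_zero, zero_add, hμ]

/-- classes of different degrees in the image of `H(A)` in `H(B)` are independent -/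
theorem Fib.indep (F : Fib BA BB π y e) (c : ℕ) (l : ℕ → ℤ) (hl : ∀ i < c, l i < l (i + 1))
    (a : ℕ → A) (ha : ∀ i ≤ c, a i ∈ BA.gr (l i)) (hda : ∀ i ≤ c, BA.d (a i) = 0)
    (hne : ∀ i ≤ c, ∀ w, BB.d w ≠ π (a i))
    (h1 : ∀ a, BA.d a = 0 → BB.d (π.toLinearMap a) = 0)
    (h2 : ∀ a, ∃ w, BB.d w = π.toLinearMap (BA.d a)) :
    ∃ L : (Fin (c + 1) → K) →ₗ[K] Coh BA.d,
      Function.Injective (cm BA.d BB.d π.toLinearMap h1 h2 ∘ₗ L) ∧
      ∀ g : Fin (c + 1) → K, ∃ hs : BA.d (∑ i, g i • a i) = 0,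
        L g = cl BA.d (∑ i, g i • a i) hs := by
  have hmono : ∀ i j, i < j → j ≤ c → l i < l j := by
    intro i j hij
    induction j with
    | zero => omega
    | succ j ih =>
      intro hj
      have h3 := hl j (by omega)
      rcases Nat.lt_succ_iff_lt_or_eq.mp hij with h | h
      · exact (ih h (by omega)).trans h3
      · rw [h]; exact h3
  let L : (Fin (c + 1) → K) →ₗ[K] Coh BA.d :=
    ((LinearMap.range BA.d).submoduleOf (LinearMap.ker BA.d)).mkQ ∘ₗ
      Fintype.linearCombination K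
        (fun i : Fin (c + 1) => (⟨a i, hda i (by omega)⟩ : LinearMap.ker BA.d))
  have hL : ∀ g : Fin (c + 1) → K, ∃ hs : BA.d (∑ i, g i • a i) = 0,
      L g = cl BA.d (∑ i, g i • a i) hs := by
    intro g
    have hs : BA.d (∑ i, g i • a i) = 0 := by
      rw [map_sum]
      exact Finset.sum_eq_zero fun i _ => by rw [map_smul, hda i (by omega), smul_zero]
    refine ⟨hs, ?_⟩
    have h4 : Fintype.linearCombination K
        (fun i : Fin (c + 1) => (⟨a i, hda i (by omega)⟩ : LinearMap.ker BA.d)) g =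
        ⟨∑ i, g i • a i, hs⟩ := by
      apply Subtype.ext
      rw [Fintype.linearCombination_apply]
      simp
    change ((LinearMap.range BA.d).submoduleOf (LinearMap.ker BA.d)).mkQ
      (Fintype.linearCombination K _ g) = _
    rw [h4]
    rfl
  refine ⟨L, ?_, hL⟩
  rw [← LinearMap.ker_eq_bot, LinearMap.ker_eq_bot']
  intro g hg
  obtain ⟨hs, hgL⟩ := hL g
  rw [LinearMap.comp_apply, hgL, cm_cl, cl_eq_zero] at hg
  obtain ⟨w, hw⟩ := hg
  rw [AlgHom.toLinearMap_apply, map_sum] at hw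
  funext i
  rw [Pi.zero_apply]
  by_contra hgi
  have h3 := congrArg (BB.π (l i)) hw
  rw [map_sum, Finset.sum_eq_single i] at h3
  · rw [map_smul, map_smul, BB.π_self _ _ (F.gr _ _ (ha i (by omega)))] at h3
    refine hne i (by omega) ((g i)⁻¹ • BB.π (l i - 1) w) ?_
    have h4 := BB.π_d (l i - 1) w
    rw [sub_add_cancel] at h4
    rw [map_smul, ← h4, h3, smul_smul, inv_mul_cancel₀ hgi, one_smul]
  · intro j _ hj
    rw [map_smul, map_smul]
    have h5 : l j ≠ l i := by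
      intro h6
      rcases lt_trichotomy (j : ℕ) (i : ℕ) with h7 | h7 | h7
      · have := hmono j i h7 (by omega); omega
      · exact hj (Fin.ext h7)
      · have := hmono i j h7 (by omega); omega
    rw [BB.π_ne _ _ h5 _ (F.gr _ _ (ha j (by omega))), smul_zero]
  · intro h5
    exact absurd (Finset.mem_univ i) h5

/-- the chain of least degrees -/
theorem chainP (BB : Base K B) (X : ℕ → ℤ → Submodule K B) (hX : ∀ j n, ∀ z ∈ X j n, z ∈ BB.gr n)
    (hXs : ∀ j n, (∃ z ∈ X (j + 1) n, ∀ w, BB.d w ≠ z) →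
      ∃ n' < n, ∃ z ∈ X j n', ∀ w, BB.d w ≠ z) (P : ℤ → Prop)
    (hP : ∀ j l, ∀ z ∈ X j l, (∀ w, BB.d w ≠ z) →
      (∀ l' < l, ∀ z ∈ X j l', ∃ w, BB.d w = z) → P l) (c : ℕ) :
    ∀ n : ℤ, (∃ z ∈ X c n, ∀ w, BB.d w ≠ z) → ∃ l : ℕ → ℤ, l c ≤ n ∧
      (∀ i < c, l i < l (i + 1)) ∧ ∀ i ≤ c, P (l i) := by
  have key : ∀ j n, (∃ z ∈ X j n, ∀ w, BB.d w ≠ z) → ∃ l ≤ n, (∃ z ∈ X j l, ∀ w, BB.d w ≠ z) ∧
      P l := by
    intro j n hn
    obtain ⟨l, h1, h2⟩ := Int.exists_least_of_bdd (P := fun n => ∃ z ∈ X j n, ∀ w, BB.d w ≠ z)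
      ⟨0, fun n hz => by
        by_contra hneg
        obtain ⟨z, hz, hne⟩ := hz
        have h1 := hX _ _ _ hz
        rw [BB.gr_neg n (by omega), Submodule.mem_bot] at h1
        exact hne 0 (by rw [map_zero, h1])⟩ ⟨n, hn⟩
    obtain ⟨z, hz, hne⟩ := h1
    refine ⟨l, h2 n hn, ⟨z, hz, hne⟩, hP j l z hz hne ?_⟩
    intro l' hl' z' hz'
    by_contra hcon
    have h4 := h2 l' ⟨z', hz', fun w hw => hcon ⟨w, hw⟩⟩
    omega
  induction c with
  | zero =>
    intro n hn
    obtain ⟨l, hl, -, hPl⟩ := key 0 n hn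
    exact ⟨fun _ => l, hl, fun i hi => absurd hi (by omega), fun i hi => hPl⟩
  | succ c ih =>
    intro n hn
    obtain ⟨l1, hl1, hN, hPl⟩ := key (c + 1) n hn
    obtain ⟨n', hn', hN'⟩ := hXs c l1 hN
    obtain ⟨l, hl, hlt, hch⟩ := ih n' hN'
    refine ⟨fun i => if i = c + 1 then l1 else l i, by simpa using hl1, ?_, ?_⟩
    · intro i hi
      by_cases h1 : i = c
      · subst h1
        simp only [Nat.left_eq_add, one_ne_zero, if_false, if_true]
        omega
      · have h2 : i ≠ c + 1 := by omega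
        have h3 : i + 1 ≠ c + 1 := by omega
        simp only [h2, h3, if_false]
        exact hlt i (by omega)
    · intro i hi
      by_cases h1 : i = c + 1
      · simp only [h1, if_true]
        exact hPl
      · simp only [h1, if_false]
        exact hch i (by omega)

/-- An additive relation which behaves like a derivation on cocycles preserves `Pw`. -/
theorem Pw_R (BB : Base K B) (e : ℤ) (R : ℤ → B → B → Prop)
    (hex : ∀ n, ∀ z ∈ BB.gr n, BB.d z = 0 → ∃ z', R n z z')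
    (hcoc : ∀ n z z', R n z z' → z' ∈ BB.gr (n + 1 - e) ∧ BB.d z' = 0)
    (hmul : ∀ p n b b' w w', R p b b' → R n w w' → R (p + n) (b * w) (b' * w + b * w'))
    (hpos : ∀ n z z', R n z z' → n + 1 - e ≤ 0 → z' = 0)
    (hz : ∀ n, R n 0 0) (hadd : ∀ n z z' w w', R n z z' → R n w w' → R n (z + w) (z' + w'))
    (hsm : ∀ n (k : K) z z', R n z z' → R n (k • z) (k • z')) (j : ℕ) :
    ∀ n : ℤ, ∀ z ∈ Pw BB j n, ∃ z' ∈ Pw BB j (n + 1 - e), R n z z' := by
  induction j with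
  | zero =>
    intro n z hz
    obtain ⟨z', h⟩ := hex n z hz.1 hz.2
    exact ⟨z', hcoc _ _ _ h, h⟩
  | succ j ih =>
    intro n z hz
    rw [Pw_succ] at hz
    induction hz using Submodule.span_induction with
    | mem x hx =>
      obtain ⟨p, hp, b, hb, hdb, w, hw, rfl⟩ := hx
      obtain ⟨b', hb'⟩ := hex p b hb hdb
      obtain ⟨w', hw'm, hw'⟩ := ih _ w hw
      have h1 := hmul _ _ _ _ _ _ hb' hw'
      rw [add_sub_cancel] at h1
      refine ⟨_, ?_, h1⟩
      rw [Pw_succ]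
      refine Submodule.add_mem _ ?_ (Submodule.subset_span ⟨p, hp, b, hb, hdb, w', ?_, rfl⟩)
      · by_cases h0 : p + 1 - e ≤ 0
        · rw [hpos _ _ _ hb' h0, zero_mul]
          exact Submodule.zero_mem _
        · have h2 := hcoc _ _ _ hb'
          refine Submodule.subset_span ⟨p + 1 - e, by omega, b', h2.1, h2.2, w, ?_, rfl⟩
          have e1 : n + 1 - e - (p + 1 - e) = n - p := by ring
          rwa [e1]
      · have e1 : n + 1 - e - p = n - p + 1 - e := by ring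
        rwa [e1]
    | zero => exact ⟨0, Submodule.zero_mem _, hz _⟩
    | add x y' _ _ hx hy =>
      obtain ⟨x', hx', h1⟩ := hx
      obtain ⟨y'', hy', h2⟩ := hy
      exact ⟨x' + y'', Submodule.add_mem _ hx' hy', hadd _ _ _ _ _ h1 h2⟩
    | smul c x _ hx =>
      obtain ⟨x', hx', h1⟩ := hx
      exact ⟨c • x', Submodule.smul_mem _ c hx', hsm _ c _ _ h1⟩

end

end Pool.Agent.H14.HF
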